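import Pool.Agent.TH596.RO.Forms
import Pool.Agent.TH596.RO.Cpt

/-!
# Bilinear forms with a totally bounded orbit
-/

set_option autoImplicit false
set_option linter.style.haveILetI false
set_option linter.unusedVariables false

namespace Pool.Agent.TH596.RO

open Metric Set

section
variable {B : Type*} [NormedAddCommGroup B] [NormedSpace ℝ B] {Γ : Type*} [Group Γ]

/-- the invariant finite-dimensional subspace near a vector with a totally bounded orbit -/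
theorem ap_sub [CompleteSpace B] {σ : Γ → (B →ₗ[ℝ] B)} (h1 : ∀ v, σ 1 v = v)
    (h2 : ∀ g k v, σ (g * k) v = σ g (σ k v)) (h3 : ∀ g v, ‖σ g v‖ ≤ ‖v‖) {b : B}
    (hb : TotallyBounded (range fun g => σ g b)) {ε : ℝ} (hε : 0 < ε) :
    ∃ w : B, ‖w - b‖ < ε ∧ ∃ N : Submodule ℝ B, Module.Finite ℝ N ∧ (∀ g, ∀ v ∈ N, σ g v ∈ N) ∧ w ∈ N := by
  let τ : Γ → (B →L[ℝ] B) := fun g => (σ g).mkContinuous 1 (fun v => by rw [one_mul]; exact h3 g v)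
  have hτ : Rp τ := ⟨h1, h2, h3⟩
  obtain ⟨w, hw, F, hF, hFw⟩ := ap_main hτ (b := b) hb hε
  refine ⟨w, hw, Submodule.span ℝ (range fun g => σ g w), ?_, ?_, ?_⟩
  · apply Submodule.finiteDimensional_of_le (S₂ := F)
    rw [Submodule.span_le]
    rintro _ ⟨g, rfl⟩
    exact hFw g
  · intro g v hv
    have : Submodule.span ℝ (range fun g => σ g w) ≤ (Submodule.span ℝ (range fun g => σ g w)).comap (σ g) := by
      rw [Submodule.span_le]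
      rintro _ ⟨k, rfl⟩
      exact Submodule.subset_span ⟨g * k, h2 g k w⟩
    exact this hv
  · exact Submodule.subset_span ⟨1, h1 w⟩

end

section
variable {E : Type*} [NormedAddCommGroup E] [NormedSpace ℝ E]

theorem form_ap {H : Subgroup (E ≃ₗᵢ[ℝ] E)} {b : E →L[ℝ] E →L[ℝ] ℝ}
    (hb : TotallyBounded {c | ∃ T ∈ H, c = bl T b}) {ε : ℝ} (hε : 0 < ε) :
    ∃ w : E →L[ℝ] E →L[ℝ] ℝ, ‖w - b‖ < ε ∧ ∃ N : Submodule ℝ (E →L[ℝ] E →L[ℝ] ℝ), Module.Finite ℝ N ∧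
      (∀ T ∈ H, ∀ v ∈ N, bl T v ∈ N) ∧ w ∈ N := by
  have hb' : TotallyBounded (range fun T : H => bl (T : E ≃ₗᵢ[ℝ] E) b) := by
    refine TotallyBounded.subset ?_ hb
    rintro _ ⟨T, rfl⟩
    exact ⟨T, T.2, rfl⟩
  obtain ⟨w, hw, N, hN, hN2, hN3⟩ := @ap_sub (E →L[ℝ] E →L[ℝ] ℝ) _ _ H _ inferInstance
    (fun T : H => bl (T : E ≃ₗᵢ[ℝ] E)) (fun v => bl_one v)
    (fun S T v => bl_mul (S : E ≃ₗᵢ[ℝ] E) (T : E ≃ₗᵢ[ℝ] E) v) (fun T v => norm_bl_le (T : E ≃ₗᵢ[ℝ] E) v) b hb' ε hε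
  exact ⟨w, hw, N, hN, fun T hT v hv => hN2 ⟨T, hT⟩ v hv, hN3⟩

theorem forms_ap [CompleteSpace E] (hE : ¬ FiniteDimensional ℝ E) {H : Subgroup (E ≃ₗᵢ[ℝ] E)} (hH : AT H)
    {b : E →L[ℝ] E →L[ℝ] ℝ} (hb : TotallyBounded {c | ∃ T ∈ H, c = bl T b}) {x0 : E} (hx0 : b x0 x0 ≠ 0)
    (x y : E) : ‖x + y‖ ^ 2 + ‖x - y‖ ^ 2 = 2 * ‖x‖ ^ 2 + 2 * ‖y‖ ^ 2 := by
  obtain ⟨w, hw, N, hN, hN2, hN3⟩ := form_ap hb (ε := |b x0 x0| / (‖x0‖ * ‖x0‖ + 1)) (by positivity)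
  refine forms_par hE hH hN hN2 hN3 (x0 := x0) ?_ x y
  intro h0
  have h1 := (w - b).le_opNorm₂ x0 x0
  have h2 : (w - b) x0 x0 = w x0 x0 - b x0 x0 := rfl
  rw [h2, h0, zero_sub, norm_neg, Real.norm_eq_abs, mul_assoc] at h1
  have h3 : ‖w - b‖ * (‖x0‖ * ‖x0‖) ≤ |b x0 x0| / (‖x0‖ * ‖x0‖ + 1) * (‖x0‖ * ‖x0‖) :=
    mul_le_mul_of_nonneg_right hw.le (by positivity)
  have h4 : |b x0 x0| / (‖x0‖ * ‖x0‖ + 1) * (‖x0‖ * ‖x0‖) < |b x0 x0| := by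
    rw [div_mul_eq_mul_div, div_lt_iff₀ (by positivity)]
    have := abs_pos.2 hx0
    nlinarith
  linarith

end

end Pool.Agent.TH596.RO
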