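import Pool.Agent.TH596.RO.LaB
import Pool.Agent.TH596.RO.Main

/-!
# Locally abelian and solvable groups of isometries normalised by a transitive group
-/

set_option autoImplicit false
set_option linter.unusedVariables false
set_option linter.style.haveILetI false

namespace Pool.Agent.TH596.RO

open Pool.H590R3.Ab TopologicalSpace Metric Set Filter Topology

section
variable {E : Type*} [NormedAddCommGroup E] [NormedSpace ℝ E]

/-- a group of isometries is covered by countably many translates of a neighbourhood of `1` -/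
theorem near_cover [SeparableSpace E] (G : Subgroup (E ≃ₗᵢ[ℝ] E)) {ι : Type} [Finite ι] (f : ι → E)
    {r : ℝ} (hr : 0 < r) :
    ∃ c : ℕ → E ≃ₗᵢ[ℝ] E, (∀ n, c n ∈ G) ∧ ∀ T ∈ G, ∃ n, ∀ i, ‖((c n)⁻¹ * T) (f i) - f i‖ ≤ r := by
  have := Fintype.ofFinite ι
  have : SecondCountableTopology E := UniformSpace.secondCountable_of_separable E
  set F : G → (ι → E) := fun T i => (T : E ≃ₗᵢ[ℝ] E) (f i) with hF
  obtain ⟨D, hDc, hD⟩ := TopologicalSpace.isOpen_iUnion_countable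
    (fun T : G => ball (F T) r) (fun T => isOpen_ball)
  have hne : D.Nonempty := by
    by_contra h
    rw [not_nonempty_iff_eq_empty] at h
    rw [h] at hD
    have h1 : F 1 ∈ ⋃ i : G, ball (F i) r := mem_iUnion.2 ⟨1, mem_ball_self hr⟩
    rw [← hD] at h1
    simp at h1
  obtain ⟨c, hc⟩ := hDc.exists_eq_range hne
  refine ⟨fun n => (c n : E ≃ₗᵢ[ℝ] E), fun n => (c n).2, fun T hT => ?_⟩
  have h1 : F ⟨T, hT⟩ ∈ ⋃ i ∈ D, ball (F i) r := by
    rw [hD]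
    exact mem_iUnion.2 ⟨⟨T, hT⟩, mem_ball_self hr⟩
  obtain ⟨g, hg, h2⟩ := mem_iUnion₂.1 h1
  rw [hc] at hg
  obtain ⟨n, rfl⟩ := hg
  refine ⟨n, fun i => ?_⟩
  rw [mem_ball, dist_pi_lt_iff hr] at h2
  have h3 := h2 i
  rw [dist_eq_norm] at h3
  have h4 : ((c n : E ≃ₗᵢ[ℝ] E)⁻¹ * T) (f i) - f i =
      (c n : E ≃ₗᵢ[ℝ] E)⁻¹ (T (f i) - (c n : E ≃ₗᵢ[ℝ] E) (f i)) := by
    rw [map_sub]
    congr 1
    exact ((c n : E ≃ₗᵢ[ℝ] E).symm_apply_apply (f i)).symm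
  rw [h4, ((c n : E ≃ₗᵢ[ℝ] E)⁻¹).norm_map]
  exact h3.le

/-- operators whose conjugates near `1` stay in a finite-dimensional space -/
theorem near_DD [CompleteSpace E] [SeparableSpace E] (hE : ¬ FiniteDimensional ℝ E)
    {G : Subgroup (E ≃ₗᵢ[ℝ] E)} (htr : ∀ x y : E, ‖x‖ = 1 → ‖y‖ = 1 → ∃ T ∈ G, T x = y)
    {ι : Type} [Finite ι] (f : ι → E) {r : ℝ} (hr : 0 < r) {a : E →L[ℝ] E}
    {F : Submodule ℝ (E →L[ℝ] E)} (hF : FiniteDimensional ℝ F)
    (h : ∀ T ∈ G, (∀ i, ‖T (f i) - f i‖ ≤ r) → cj T a ∈ F) : a ∈ DD G := by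
  apply fam_le_DD hE htr
  rw [mem_Al_fam]
  obtain ⟨c, hcG, hc⟩ := near_cover G f hr
  refine ⟨Module.finrank ℝ F, fun n => F.map (cl (c n)),
    fun n => ⟨inferInstance, Submodule.finrank_map_le _ _⟩, fun T hT => ?_⟩
  obtain ⟨n, hn⟩ := hc T hT
  refine ⟨n, ⟨cj ((c n)⁻¹ * T) a, h _ (G.mul_mem (G.inv_mem (hcG n)) hT) hn, ?_⟩⟩
  rw [cl_apply, cj_mul, cj_cj_inv]

theorem one_mem_DD' (G : Subgroup (E ≃ₗᵢ[ℝ] E)) (s : ℝ) : s • (1 : E →L[ℝ] E) ∈ DD G :=
  Subalgebra.smul_mem _ (Subalgebra.one_mem _) s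

theorem cj_eq_op (T : E ≃ₗᵢ[ℝ] E) (a : E →L[ℝ] E) : cj T a = op T * a * op T⁻¹ := rfl

theorem cj_op (T S : E ≃ₗᵢ[ℝ] E) : cj T (op S) = op (T * S * T⁻¹) := rfl

/-- isometries commuting with their conjugates near `1` -/
theorem loc_single [CompleteSpace E] [SeparableSpace E] (hE : ¬ FiniteDimensional ℝ E)
    {G : Subgroup (E ≃ₗᵢ[ℝ] E)} (htr : ∀ x y : E, ‖x‖ = 1 → ‖y‖ = 1 → ∃ T ∈ G, T x = y)
    (n : E ≃ₗᵢ[ℝ] E) {ι : Type} [Finite ι] (f : ι → E) {r0 : ℝ} (hr0 : 0 < r0)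
    (hn : ∀ T ∈ G, (∀ i, ‖T (f i) - f i‖ ≤ r0) → (T * n * T⁻¹) * n = n * (T * n * T⁻¹)) :
    op n ∈ DD G := by
  haveI : Nontrivial E := nontriv hE
  rcases LA.single G htr n f hr0 hn with ⟨s, hs⟩ | ⟨J, c, s, ι', hι', f', r', hr', hJ, hfix⟩
  · rw [hs]
    exact one_mem_DD' G s
  · have hJD : J ∈ DD G := by
      refine near_DD hE htr f' hr' (F := Submodule.span ℝ {J}) inferInstance fun T hT hTf => ?_
      rw [cj_eq_op, hfix T hT hTf]
      exact Submodule.mem_span_singleton_self J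
    rw [hJ]
    exact Subalgebra.add_mem _ (one_mem_DD' G c) (Subalgebra.smul_mem _ hJD s)

/-- groups of isometries which are abelian near `1` -/
theorem loc_ab [CompleteSpace E] [SeparableSpace E] (hE : ¬ FiniteDimensional ℝ E)
    {G N : Subgroup (E ≃ₗᵢ[ℝ] E)} (htr : ∀ x y : E, ‖x‖ = 1 → ‖y‖ = 1 → ∃ T ∈ G, T x = y)
    (hN : ∀ T ∈ G, ∀ S ∈ N, T * S * T⁻¹ ∈ N)
    {ι : Type} [Finite ι] (f : ι → E) {r : ℝ} (hr : 0 < r)
    (hab : ∀ S ∈ N, ∀ T ∈ N, (∀ i, ‖S (f i) - f i‖ < r) → (∀ i, ‖T (f i) - f i‖ < r) →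
      S * T = T * S) {S : E ≃ₗᵢ[ℝ] E} (hS : S ∈ N) : op S ∈ DD G := by
  have hAT : AT G := by
    intro x y hx hy ε hε
    obtain ⟨T, hT, hTx⟩ := htr x y hx hy
    exact ⟨T, hT, by rw [hTx, sub_self, norm_zero]; exact hε⟩
  -- elements near `1`
  have key : ∀ n ∈ N, (∀ i, ‖n (f i) - f i‖ < r) → op n ∈ DD G := by
    intro n hn hnf
    obtain ⟨ρ, hρ, hρn⟩ : ∃ ρ : ℝ, 0 < ρ ∧ ∀ i, ‖n (f i) - f i‖ + 2 * ρ < r := by
      have h1 : ∀ᶠ ρ in 𝓝[>] (0 : ℝ), ∀ i, ‖n (f i) - f i‖ + 2 * ρ < r := by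
        rw [eventually_all]
        intro i
        have h2 : Tendsto (fun ρ : ℝ => ‖n (f i) - f i‖ + 2 * ρ) (𝓝[>] 0)
            (𝓝 (‖n (f i) - f i‖ + 2 * 0)) :=
          ((continuous_const.add (continuous_const.mul continuous_id)).tendsto 0).mono_left
            nhdsWithin_le_nhds
        rw [mul_zero, add_zero] at h2
        exact h2.eventually (gt_mem_nhds (hnf i))
      obtain ⟨ρ, h3, h4⟩ := (h1.and self_mem_nhdsWithin).exists
      exact ⟨ρ, h4, h3⟩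
    refine loc_single hE htr n (Sum.elim f (fun i => n (f i))) hρ fun T hT hTf => ?_
    refine hab _ (hN T hT n hn) _ hn (fun i => ?_) hnf
    have hT1 : ‖T (f i) - f i‖ ≤ ρ := hTf (Sum.inl i)
    have hT2 : ‖T (n (f i)) - n (f i)‖ ≤ ρ := hTf (Sum.inr i)
    have e1 : (T * n * T⁻¹) (f i) - f i =
        T (n (T.symm (f i) - f i)) + (T (n (f i)) - n (f i)) + (n (f i) - f i) := by
      show T (n (T.symm (f i))) - f i = _
      rw [map_sub, map_sub]; abel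
    have e2 : ‖T.symm (f i) - f i‖ ≤ ρ := by
      have h10 : T.symm (f i) - f i = T.symm (f i - T (f i)) := by
        rw [map_sub, T.symm_apply_apply]
      rw [h10, T.symm.norm_map, norm_sub_rev]
      exact hT1
    rw [e1]
    refine (norm_add_le _ _).trans_lt ?_
    have e3 := norm_add_le (T (n (T.symm (f i) - f i))) (T (n (f i)) - n (f i))
    rw [T.norm_map, n.norm_map] at e3
    have := hρn i
    linarith
  -- the general case
  have hfd : FiniteDimensional ℝ (DD G) := tri_fd (core_DD hE hAT).1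
  let R : (E →L[ℝ] E) →ₗ[ℝ] (E →L[ℝ] E) := LinearMap.mulRight ℝ (op S)
  haveI : FiniteDimensional ℝ (Subalgebra.toSubmodule (DD G)) := hfd
  refine near_DD hE htr (Sum.elim f (fun i => S⁻¹ (f i))) (r := r / 3) (by positivity)
    (F := (Subalgebra.toSubmodule (DD G)).map R) inferInstance fun T hT hTf => ?_
  have hk : T * S * T⁻¹ * S⁻¹ ∈ N := N.mul_mem (hN T hT S hS) (N.inv_mem hS)
  have hkn : ∀ i, ‖(T * S * T⁻¹ * S⁻¹) (f i) - f i‖ < r := by
    intro i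
    have hT1 : ‖T (f i) - f i‖ ≤ r / 3 := hTf (Sum.inl i)
    have hT2 : ‖T (S⁻¹ (f i)) - S⁻¹ (f i)‖ ≤ r / 3 := hTf (Sum.inr i)
    set y := S⁻¹ (f i) with hy
    have hSy : S y = f i := S.apply_symm_apply (f i)
    have e1 : (T * S * T⁻¹ * S⁻¹) (f i) - f i =
        T (S (T.symm y - y)) + (T (f i) - f i) := by
      show T (S (T.symm y)) - f i = _
      rw [map_sub, map_sub, hSy]; abel
    have e2 : ‖T.symm y - y‖ ≤ r / 3 := by
      have h10 : T.symm y - y = T.symm (y - T y) := by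
        rw [map_sub, T.symm_apply_apply]
      rw [h10, T.symm.norm_map, norm_sub_rev]
      exact hT2
    rw [e1]
    refine (norm_add_le _ _).trans_lt ?_
    rw [T.norm_map, S.norm_map]
    linarith
  refine ⟨op (T * S * T⁻¹ * S⁻¹), key _ hk hkn, ?_⟩
  show op (T * S * T⁻¹ * S⁻¹) * op S = cj T (op S)
  rw [cj_op, ← op_mul]
  congr 1
  group

/-- groups with commutators `± 1` -/
theorem comm_pm [CompleteSpace E] [SeparableSpace E] (hE : ¬ FiniteDimensional ℝ E)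
    {G N : Subgroup (E ≃ₗᵢ[ℝ] E)} (htr : ∀ x y : E, ‖x‖ = 1 → ‖y‖ = 1 → ∃ T ∈ G, T x = y)
    (hN : ∀ T ∈ G, ∀ S ∈ N, T * S * T⁻¹ ∈ N)
    (hab : ∀ S ∈ N, ∀ T ∈ N, (∀ x, (S * T * S⁻¹ * T⁻¹) x = x) ∨ (∀ x, (S * T * S⁻¹ * T⁻¹) x = -x))
    {S : E ≃ₗᵢ[ℝ] E} (hS : S ∈ N) : op S ∈ DD G := by
  haveI : Nontrivial E := nontriv hE
  obtain ⟨x, hx⟩ := exists_norm_eq E (zero_le_one (α := ℝ))
  refine loc_ab hE htr hN (fun _ : Fin 1 => x) (r := 1 / 2) (by norm_num) ?_ hS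
  intro S hS T hT hSx hTx
  have hS1 := hSx 0
  have hT1 := hTx 0
  rcases hab S hS T hT with h | h
  · have h1 : S * T * S⁻¹ * T⁻¹ = 1 := by
      apply LinearIsometryEquiv.ext
      intro y
      exact h y
    have h2 : S * T = (S * T * S⁻¹ * T⁻¹) * (T * S) := by group
    rw [h2, h1, one_mul]
  · exfalso
    have h1 : S (T x) = -(T (S x)) := by
      have h2 : (S * T * S⁻¹ * T⁻¹) ((T * S) x) = S (T x) := by
        have h3 : (S * T * S⁻¹ * T⁻¹) * (T * S) = S * T := by group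
        have h4 := congrArg (fun A : E ≃ₗᵢ[ℝ] E => A x) h3
        exact h4
      rw [← h2, h ((T * S) x)]
      rfl
    have h3 : ‖S (T x) - x‖ < 1 := by
      have : S (T x) - x = S (T x - x) + (S x - x) := by rw [map_sub]; abel
      rw [this]
      refine (norm_add_le _ _).trans_lt ?_
      rw [S.norm_map]
      linarith
    have h4 : ‖T (S x) - x‖ < 1 := by
      have : T (S x) - x = T (S x - x) + (T x - x) := by rw [map_sub]; abel
      rw [this]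
      refine (norm_add_le _ _).trans_lt ?_
      rw [T.norm_map]
      linarith
    have h5 : (2 : ℝ) • x = -((S (T x) - x) + (T (S x) - x)) := by
      rw [h1, two_smul]; abel
    have h6 : ‖(2 : ℝ) • x‖ = 2 := by rw [norm_smul, hx]; norm_num
    rw [h5, norm_neg] at h6
    have h7 := norm_add_le (S (T x) - x) (T (S x) - x)
    linarith

/-- solvable groups -/
theorem solv [CompleteSpace E] [SeparableSpace E] (hE : ¬ FiniteDimensional ℝ E)
    {G N : Subgroup (E ≃ₗᵢ[ℝ] E)} (htr : ∀ x y : E, ‖x‖ = 1 → ‖y‖ = 1 → ∃ T ∈ G, T x = y)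
    (hN : ∀ T ∈ G, ∀ S ∈ N, T * S * T⁻¹ ∈ N) (hs : Group.IsSolvable N)
    (hND : ∀ S ∈ N, op S ∈ DD G → (∀ x, S x = x) ∨ (∀ x, S x = -x)) :
    ∀ S ∈ N, (∀ x, S x = x) ∨ (∀ x, S x = -x) := by
  classical
  -- the derived series inside `E ≃ₗᵢ E`
  let M : ℕ → Subgroup (E ≃ₗᵢ[ℝ] E) := fun k => (derivedSeries N k).map N.subtype
  have hMle : ∀ k, M k ≤ N := by
    rintro k _ ⟨S, _, rfl⟩
    exact S.2
  have hMinv : ∀ k, ∀ T ∈ G, ∀ S ∈ M k, T * S * T⁻¹ ∈ M k := by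
    intro k T hT
    -- conjugation by `T` as an automorphism of `N`
    let φ : N →* N :=
      { toFun := fun n => ⟨T * n * T⁻¹, hN T hT n n.2⟩
        map_one' := by
          apply Subtype.ext
          show T * 1 * T⁻¹ = 1
          group
        map_mul' := by
          intro a b
          apply Subtype.ext
          show T * (a * b) * T⁻¹ = (T * a * T⁻¹) * (T * b * T⁻¹)
          group }
    rintro _ ⟨S, hS, rfl⟩
    have h1 : φ S ∈ derivedSeries N k := by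
      have h2 : (derivedSeries N k).map φ ≤ derivedSeries N k := map_derivedSeries_le_derivedSeries φ k
      exact h2 ⟨S, hS, rfl⟩
    exact ⟨φ S, h1, rfl⟩
  have hMcomm : ∀ k, ∀ S ∈ M k, ∀ T ∈ M k, S * T * S⁻¹ * T⁻¹ ∈ M (k + 1) := by
    rintro k _ ⟨S, hS, rfl⟩ _ ⟨T, hT, rfl⟩
    refine ⟨S * T * S⁻¹ * T⁻¹, ?_, rfl⟩
    show S * T * S⁻¹ * T⁻¹ ∈ ⁅derivedSeries N k, derivedSeries N k⁆
    exact Subgroup.commutator_mem_commutator hS hT
  obtain ⟨m, hm⟩ := hs.solvable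
  have hP : ∃ k, ∀ S ∈ M k, (∀ x, S x = x) ∨ (∀ x, S x = -x) := by
    refine ⟨m, ?_⟩
    rintro _ ⟨S, hS, rfl⟩
    rw [hm] at hS
    left
    intro x
    have : S = 1 := hS
    rw [this]
    rfl
  have hmin := Nat.find_spec hP
  rcases Nat.eq_zero_or_pos (Nat.find hP) with h0 | hpos
  · rw [h0] at hmin
    intro S hS
    exact hmin S ⟨⟨S, hS⟩, Subgroup.mem_top _, rfl⟩
  · exfalso
    obtain ⟨j, hj⟩ : ∃ j, Nat.find hP = j + 1 := ⟨Nat.find hP - 1, by omega⟩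
    rw [hj] at hmin
    refine Nat.find_min hP (m := j) (by omega) fun S hS => hND S (hMle j hS) ?_
    exact comm_pm hE htr (hMinv j) (fun A hA B hB => hmin _ (hMcomm j A hA B hB)) hS

end

end Pool.Agent.TH596.RO
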