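import Pool.Agent.TH596.RO.Frob
import Pool.Agent.TH596.RO.Spec
import Pool.Agent.TH596.RO.Inj

/-!
# Algebras of operators with finite-dimensional conjugation orbits under almost transitive groups
-/

set_option autoImplicit false

namespace Pool.Agent.TH596.RO

open Metric Quaternion

section
variable {E : Type*} [NormedAddCommGroup E] [NormedSpace ℝ E]

/-- every finite set of members lies in a finite-dimensional subspace of `A` invariant under an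
almost transitive group -/
def Good (A : Subalgebra ℝ (E →L[ℝ] E)) : Prop :=
  ∀ s : Finset (E →L[ℝ] E), (∀ a ∈ s, a ∈ A) → ∃ H : Subgroup (E ≃ₗᵢ[ℝ] E), AT H ∧
    ∃ F : Submodule ℝ (E →L[ℝ] E), FiniteDimensional ℝ F ∧ Inv H F ∧ (∀ c ∈ F, c ∈ A) ∧ ∀ a ∈ s, a ∈ F

theorem Good.below (hE : ¬ FiniteDimensional ℝ E) {A : Subalgebra ℝ (E →L[ℝ] E)} (hA : Good A)
    {a : E →L[ℝ] E} (ha : a ∈ A) (ha0 : a ≠ 0) : ∃ δ : ℝ, 0 < δ ∧ ∀ y : E, δ * ‖y‖ ≤ ‖a y‖ := by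
  obtain ⟨H, hH, F, hF1, hF2, _, hF4⟩ := hA {a} (by simpa using ha)
  exact RO.below hE hH hF2 (hF4 a (by simp)) ha0

theorem nontriv (hE : ¬ FiniteDimensional ℝ E) : Nontrivial E := by
  by_contra h
  rw [not_nontrivial_iff_subsingleton] at h
  exact hE inferInstance

theorem pow_cmp {x y C : ℝ} (hx : 0 ≤ x) (hy : 0 ≤ y) (h : ∀ n : ℕ, x ^ n ≤ C * y ^ n) : x ≤ y := by
  by_contra hxy
  push Not at hxy
  rcases hy.eq_or_lt with h0 | h0
  · have := h 1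
    rw [← h0] at this hxy
    simp at this
    linarith
  · obtain ⟨n, hn⟩ := pow_unbounded_of_one_lt C ((one_lt_div h0).2 hxy)
    have h1 := h n
    rw [div_pow, lt_div_iff₀ (by positivity)] at hn
    linarith

/-- the isometry part -/
theorem iso_part (hE : ¬ FiniteDimensional ℝ E) {A : Subalgebra ℝ (E →L[ℝ] E)} (hA : Good A)
    {D : Type*} [NormedDivisionRing D] [NormedAlgebra ℝ D] [FiniteDimensional ℝ D] (φ : D ≃ₐ[ℝ] A)
    (q : D) (y : E) : ‖(φ q : E →L[ℝ] E) y‖ = ‖q‖ * ‖y‖ := by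
  classical
  have hEn : Nontrivial E := nontriv hE
  -- an almost transitive group normalising `A`
  have hAfd : FiniteDimensional ℝ A := Module.Finite.equiv φ.toLinearEquiv
  obtain ⟨H, hH, hinv⟩ : ∃ H : Subgroup (E ≃ₗᵢ[ℝ] E), AT H ∧ ∀ T ∈ H, ∀ c ∈ A, cj T c ∈ A := by
    let b := Module.finBasis ℝ A
    obtain ⟨H, hH, F, hF1, hF2, hF3, hF4⟩ := hA (Finset.univ.image fun i => ((b i : A) : E →L[ℝ] E)) (by
      intro a ha
      obtain ⟨i, _, rfl⟩ := Finset.mem_image.1 ha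
      exact (b i).2)
    refine ⟨H, hH, fun T hT c hc => hF3 _ (hF2 T hT c ?_)⟩
    have h1 : c = ∑ i, b.repr ⟨c, hc⟩ i • ((b i : A) : E →L[ℝ] E) := by
      calc c = ((∑ i, b.repr ⟨c, hc⟩ i • b i : A) : E →L[ℝ] E) := by rw [b.sum_repr]
        _ = ∑ i, b.repr ⟨c, hc⟩ i • ((b i : A) : E →L[ℝ] E) :=
          map_sum A.val (fun i => b.repr ⟨c, hc⟩ i • b i) Finset.univ
    rw [h1]
    exact F.sum_mem fun i _ => F.smul_mem _ (hF4 _ (Finset.mem_image.2 ⟨i, Finset.mem_univ _, rfl⟩))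
  -- continuity of `φ` and its inverse
  let φ1 : D →ₗ[ℝ] (E →L[ℝ] E) := A.val.toLinearMap.comp φ.toLinearEquiv.toLinearMap
  have hφ1 : ∀ q, φ1 q = (φ q : E →L[ℝ] E) := fun q => rfl
  obtain ⟨K, hK0, hK⟩ : ∃ K : ℝ, 0 < K ∧ ∀ q : D, ‖(φ q : E →L[ℝ] E)‖ ≤ K * ‖q‖ := by
    let g := LinearMap.toContinuousLinearMap φ1
    refine ⟨‖g‖ + 1, by positivity, fun q => ?_⟩
    refine (g.le_opNorm q).trans (mul_le_mul_of_nonneg_right (by linarith) (norm_nonneg _))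
  obtain ⟨K', hK'0, hK'⟩ : ∃ K : ℝ, 0 < K ∧ ∀ a : A, ‖φ.symm a‖ ≤ K * ‖(a : E →L[ℝ] E)‖ := by
    let g := LinearMap.toContinuousLinearMap φ.symm.toLinearEquiv.toLinearMap
    refine ⟨‖g‖ + 1, by positivity, fun a => ?_⟩
    refine (g.le_opNorm a).trans (mul_le_mul_of_nonneg_right (by linarith) (norm_nonneg _))
  -- conjugation does not increase the norm of `D`
  have hconj : ∀ T (hT : T ∈ H) (q : D), ‖φ.symm ⟨cj T (φ q : E →L[ℝ] E), hinv T hT _ (φ q).2⟩‖ ≤ ‖q‖ := by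
    intro T hT q
    apply pow_cmp (norm_nonneg _) (norm_nonneg _) (C := K' * K)
    intro n
    rw [← norm_pow, ← map_pow]
    refine (hK' _).trans ?_
    have h1 : (((⟨cj T (φ q : E →L[ℝ] E), hinv T hT _ (φ q).2⟩ : A) ^ n : A) : E →L[ℝ] E) =
        cj T (φ (q ^ n) : E →L[ℝ] E) := by
      rw [map_pow]
      push_cast
      rw [map_pow]
    rw [h1, norm_cj, mul_assoc]
    apply mul_le_mul_of_nonneg_left _ hK'0.le
    rw [← norm_pow]
    exact hK _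
  -- the invariant norm
  let M : E → ℝ := fun y => ⨆ q : closedBall (0 : D) 1, ‖(φ (q : D) : E →L[ℝ] E) y‖
  have hqn : ∀ q : closedBall (0 : D) 1, ‖(q : D)‖ ≤ 1 := fun q => by
    have := q.2; rwa [mem_closedBall, dist_zero_right] at this
  have hb : ∀ y : E, BddAbove (Set.range fun q : closedBall (0 : D) 1 => ‖(φ (q : D) : E →L[ℝ] E) y‖) := by
    intro y
    refine ⟨K * ‖y‖, ?_⟩
    rintro _ ⟨q, rfl⟩
    refine ((φ (q : D) : E →L[ℝ] E).le_opNorm y).trans (mul_le_mul_of_nonneg_right ?_ (norm_nonneg _))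
    refine (hK _).trans ?_
    have := hqn q
    nlinarith
  haveI hne : Nonempty (closedBall (0 : D) 1) := ⟨⟨0, by simp⟩⟩
  have hle : ∀ (q : D), ‖q‖ ≤ 1 → ∀ y, ‖(φ q : E →L[ℝ] E) y‖ ≤ M y := fun q hq y =>
    le_ciSup (hb y) ⟨q, by rwa [mem_closedBall, dist_zero_right]⟩
  have hM1 : ∀ y, ‖y‖ ≤ M y := by
    intro y
    have := hle 1 (by rw [norm_one]) y
    rw [map_one] at this
    exact this
  have hMsmul : ∀ (c : ℝ) (y : E), M (c • y) = |c| * M y := by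
    intro c y
    show (⨆ q : closedBall (0 : D) 1, ‖(φ (q : D) : E →L[ℝ] E) (c • y)‖) = |c| * _
    rw [Real.mul_iSup_of_nonneg (abs_nonneg c)]
    congr 1
    funext q
    rw [map_smul, norm_smul, Real.norm_eq_abs]
  have hMT : ∀ T ∈ H, ∀ y, M (T y) ≤ M y := by
    intro T hT y
    apply ciSup_le
    intro q
    have h1 : T.symm ∈ H := H.inv_mem hT
    have h2 : ‖(φ (q : D) : E →L[ℝ] E) (T y)‖ = ‖cj T.symm (φ (q : D) : E →L[ℝ] E) y‖ := by
      rw [cj_apply, LinearIsometryEquiv.symm_symm, T.symm.norm_map]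
    rw [h2]
    have h3 := hconj T.symm h1 q
    have h4 := hle _ (h3.trans (hqn q)) y
    rw [AlgEquiv.apply_symm_apply] at h4
    exact h4
  have hMlip : ∀ y z, M y ≤ M z + K * ‖y - z‖ := by
    intro y z
    apply ciSup_le
    intro q
    have h1 : (φ (q : D) : E →L[ℝ] E) y = (φ (q : D) : E →L[ℝ] E) z + (φ (q : D) : E →L[ℝ] E) (y - z) := by
      rw [map_sub]; abel
    rw [h1]
    refine (norm_add_le _ _).trans (add_le_add (hle _ (hqn q) z) ?_)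
    refine ((φ (q : D) : E →L[ℝ] E).le_opNorm _).trans (mul_le_mul_of_nonneg_right ?_ (norm_nonneg _))
    refine (hK _).trans ?_
    have := hqn q
    nlinarith
  have hMunit : ∀ y z : E, ‖y‖ = 1 → ‖z‖ = 1 → M y ≤ M z := by
    intro y z hy hz
    apply le_of_forall_pos_le_add
    intro ε hε
    obtain ⟨T, hT, hTy⟩ := hH z y hz hy (ε / K) (by positivity)
    calc M y ≤ M (T z) + K * ‖y - T z‖ := hMlip _ _
      _ ≤ M z + K * (ε / K) := by
          apply add_le_add (hMT T hT z)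
          rw [norm_sub_rev]
          exact mul_le_mul_of_nonneg_left hTy.le hK0.le
      _ = M z + ε := by rw [mul_div_cancel₀ _ hK0.ne']
  -- contractions
  have hcontr : ∀ q : D, ‖q‖ ≤ 1 → ∀ y, ‖(φ q : E →L[ℝ] E) y‖ ≤ ‖y‖ := by
    intro q hq y
    by_cases h0 : (φ q : E →L[ℝ] E) y = 0
    · rw [h0, norm_zero]; exact norm_nonneg _
    have hy0 : y ≠ 0 := fun h => h0 (by rw [h, map_zero])
    have hyn : 0 < ‖y‖ := norm_pos_iff.2 hy0
    set w := (φ q : E →L[ℝ] E) y with hw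
    have hwn : 0 < ‖w‖ := norm_pos_iff.2 h0
    have hMw : M w ≤ M y := by
      apply ciSup_le
      intro q'
      have h1 : (φ (q' : D) : E →L[ℝ] E) w = (φ ((q' : D) * q) : E →L[ℝ] E) y := by
        rw [map_mul]; rfl
      rw [h1]
      apply hle
      rw [norm_mul]
      have := hqn q'
      have h0 := norm_nonneg q
      nlinarith
    have e1 : M w = ‖w‖ * M ((‖w‖⁻¹ : ℝ) • w) := by
      rw [hMsmul, abs_of_pos (inv_pos.2 hwn), ← mul_assoc, mul_inv_cancel₀ hwn.ne', one_mul]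
    have e2 : M y = ‖y‖ * M ((‖y‖⁻¹ : ℝ) • y) := by
      rw [hMsmul, abs_of_pos (inv_pos.2 hyn), ← mul_assoc, mul_inv_cancel₀ hyn.ne', one_mul]
    have n1 : ‖(‖w‖⁻¹ : ℝ) • w‖ = 1 := by rw [norm_smul, norm_inv, norm_norm, inv_mul_cancel₀ hwn.ne']
    have n2 : ‖(‖y‖⁻¹ : ℝ) • y‖ = 1 := by rw [norm_smul, norm_inv, norm_norm, inv_mul_cancel₀ hyn.ne']
    have h2 := hMunit _ _ n2 n1
    have h3 := hM1 ((‖w‖⁻¹ : ℝ) • w)
    rw [n1] at h3
    rw [e1, e2] at hMw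
    have h4 : ‖w‖ * M ((‖w‖⁻¹ : ℝ) • w) ≤ ‖y‖ * M ((‖w‖⁻¹ : ℝ) • w) :=
      hMw.trans (mul_le_mul_of_nonneg_left h2 hyn.le)
    exact le_of_mul_le_mul_right h4 (by linarith)
  have hunit : ∀ q : D, ‖q‖ = 1 → ∀ y, ‖(φ q : E →L[ℝ] E) y‖ = ‖y‖ := by
    intro q hq y
    apply le_antisymm (hcontr q hq.le y)
    have hq0 : q ≠ 0 := fun h => by rw [h, norm_zero] at hq; exact zero_ne_one hq
    have h1 := hcontr q⁻¹ (by rw [norm_inv, hq, inv_one]) ((φ q : E →L[ℝ] E) y)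
    have h2 : (φ q⁻¹ : E →L[ℝ] E) ((φ q : E →L[ℝ] E) y) = (φ (q⁻¹ * q) : E →L[ℝ] E) y := by
      rw [map_mul]; rfl
    rw [h2, inv_mul_cancel₀ hq0, map_one] at h1
    exact h1
  by_cases hq0 : q = 0
  · rw [hq0, map_zero, norm_zero, zero_mul]
    exact norm_zero
  have hqn0 : 0 < ‖q‖ := norm_pos_iff.2 hq0
  have h1 := hunit ((‖q‖⁻¹ : ℝ) • q) (by rw [norm_smul, norm_inv, norm_norm, inv_mul_cancel₀ hqn0.ne']) y
  rw [map_smul] at h1
  have h2 : ‖(‖q‖⁻¹ : ℝ) • (φ q : E →L[ℝ] E) y‖ = ‖y‖ := h1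
  rw [norm_smul, norm_inv, norm_norm] at h2
  rw [← h2, ← mul_assoc, mul_inv_cancel₀ hqn0.ne', one_mul]

/-- the main theorem -/
theorem core [CompleteSpace E] (hE : ¬ FiniteDimensional ℝ E) {A : Subalgebra ℝ (E →L[ℝ] E)} (hA : Good A) :
    (Nonempty (A ≃ₐ[ℝ] ℝ) ∨ Nonempty (A ≃ₐ[ℝ] ℂ) ∨ Nonempty (A ≃ₐ[ℝ] ℍ[ℝ])) ∧
      ∀ a ∈ A, ∀ x, ‖a x‖ = ‖a‖ * ‖x‖ := by
  have hEn : Nontrivial E := nontriv hE
  have hnt : Nontrivial (E →L[ℝ] E) := inferInstance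
  have hnz : NoZeroDivisors A := by
    refine ⟨fun {a b} hab => ?_⟩
    by_contra hcon
    push Not at hcon
    have ha0 : (a : E →L[ℝ] E) ≠ 0 := fun h => hcon.1 (Subtype.ext h)
    have hb0 : (b : E →L[ℝ] E) ≠ 0 := fun h => hcon.2 (Subtype.ext h)
    obtain ⟨δ, hδ, h1⟩ := hA.below hE a.2 ha0
    obtain ⟨δ', hδ', h2⟩ := hA.below hE b.2 hb0
    obtain ⟨y, hy⟩ := exists_ne (0 : E)
    have hyn : 0 < ‖y‖ := norm_pos_iff.2 hy
    have h3 : (a : E →L[ℝ] E) ((b : E →L[ℝ] E) y) = 0 := by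
      have := congrArg (fun z : A => (z : E →L[ℝ] E) y) hab
      exact this
    have h4 := h1 ((b : E →L[ℝ] E) y)
    rw [h3, norm_zero] at h4
    have h5 := h2 y
    have : 0 < δ * (δ' * ‖y‖) := by positivity
    nlinarith
  have hQ : Quad A := by
    intro a
    obtain ⟨s, t, h⟩ := exists_quad (a : E →L[ℝ] E)
    refine ⟨s, t, ?_⟩
    by_contra hne
    set q : A := (a - algebraMap ℝ A s) * (a - algebraMap ℝ A s) + algebraMap ℝ A (t * t) with hq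
    have hq0 : (q : E →L[ℝ] E) ≠ 0 := fun h => hne (Subtype.ext h)
    obtain ⟨δ, hδ, h1⟩ := hA.below hE q.2 hq0
    obtain ⟨y, hy, hy2⟩ := h (δ / 2) (by positivity)
    have hyn : 0 < ‖y‖ := norm_pos_iff.2 hy
    have h3 : (q : E →L[ℝ] E) y = ((a : E →L[ℝ] E) - algebraMap ℝ (E →L[ℝ] E) s)
        (((a : E →L[ℝ] E) - algebraMap ℝ (E →L[ℝ] E) s) y) + (t * t) • y := by
      rw [hq]
      have : (((a - algebraMap ℝ A s) * (a - algebraMap ℝ A s) + algebraMap ℝ A (t * t) : A) : E →L[ℝ] E) =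
          ((a : E →L[ℝ] E) - algebraMap ℝ (E →L[ℝ] E) s) * ((a : E →L[ℝ] E) - algebraMap ℝ (E →L[ℝ] E) s) +
            algebraMap ℝ (E →L[ℝ] E) (t * t) := rfl
      rw [this, add_apply, mul_apply_eq_comp, Algebra.algebraMap_eq_smul_one (t * t), smul_apply,
        one_apply_eq_self]
    rw [← h3] at hy2
    have h4 := h1 y
    nlinarith
  have hfin : ∀ {D : Type} [NormedDivisionRing D] [NormedAlgebra ℝ D] [FiniteDimensional ℝ D]
      (φ : D ≃ₐ[ℝ] A), ∀ a ∈ A, ∀ x, ‖a x‖ = ‖a‖ * ‖x‖ := by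
    intro D _ _ _ φ a ha x
    have h1 : ∀ x, ‖a x‖ = ‖φ.symm ⟨a, ha⟩‖ * ‖x‖ := by
      intro x
      have := iso_part hE hA φ (φ.symm ⟨a, ha⟩) x
      rwa [AlgEquiv.apply_symm_apply] at this
    rw [h1 x, ContinuousLinearMap.homothety_norm a h1]
  rcases frobenius hQ with ⟨⟨ψ⟩⟩ | ⟨⟨ψ⟩⟩ | ⟨⟨ψ⟩⟩
  · exact ⟨Or.inl ⟨ψ⟩, hfin ψ.symm⟩
  · exact ⟨Or.inr (Or.inl ⟨ψ⟩), hfin ψ.symm⟩
  · exact ⟨Or.inr (Or.inr ⟨ψ⟩), hfin ψ.symm⟩

end

end Pool.Agent.TH596.RO
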