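import Pool.Agent.TH596.RO.Pt
import Pool.Agent.TH578.Quad.Extend

/-!
# A finite-dimensional invariant space of bilinear forms with a non-alternating member
-/

set_option autoImplicit false

namespace Pool.Agent.TH596.RO

open Metric

section
variable {B : Type*} [NormedAddCommGroup B] [NormedSpace ℝ B]

theorem coord_bound (N : Submodule ℝ B) [FiniteDimensional ℝ N] :
    ∃ (m : ℕ) (b : Fin m → B) (C : ℝ), 0 ≤ C ∧ ∀ v ∈ N, ‖v‖ ≤ 1 →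
      ∃ l : Fin m → ℝ, (∀ i, |l i| ≤ C) ∧ v = ∑ i, l i • b i := by
  classical
  let e := Module.finBasis ℝ N
  let φ : N ≃L[ℝ] (Fin (Module.finrank ℝ N) → ℝ) := e.equivFunL
  refine ⟨_, fun i => (e i : B), ‖(φ : N →L[ℝ] (Fin (Module.finrank ℝ N) → ℝ))‖,
    norm_nonneg (φ : N →L[ℝ] (Fin (Module.finrank ℝ N) → ℝ)), ?_⟩
  intro v hv hv1
  refine ⟨fun i => φ ⟨v, hv⟩ i, fun i => ?_, ?_⟩
  · have h1 : ‖φ ⟨v, hv⟩ i‖ ≤ ‖φ ⟨v, hv⟩‖ := norm_le_pi_norm _ i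
    have h2 : ‖φ ⟨v, hv⟩‖ ≤ ‖(φ : N →L[ℝ] (Fin (Module.finrank ℝ N) → ℝ))‖ * ‖(⟨v, hv⟩ : N)‖ :=
      (φ : N →L[ℝ] (Fin (Module.finrank ℝ N) → ℝ)).le_opNorm _
    have h3 : ‖(⟨v, hv⟩ : N)‖ ≤ 1 := hv1
    calc |φ ⟨v, hv⟩ i| = ‖φ ⟨v, hv⟩ i‖ := (Real.norm_eq_abs _).symm
      _ ≤ ‖(φ : N →L[ℝ] (Fin (Module.finrank ℝ N) → ℝ))‖ * ‖(⟨v, hv⟩ : N)‖ := h1.trans h2
      _ ≤ _ := mul_le_of_le_one_right (norm_nonneg (φ : N →L[ℝ] (Fin (Module.finrank ℝ N) → ℝ))) h3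
  · have h1 := e.sum_equivFun ⟨v, hv⟩
    calc v = ((∑ i, e.equivFun ⟨v, hv⟩ i • e i : N) : B) := by rw [h1]
      _ = ∑ i, e.equivFun ⟨v, hv⟩ i • ((e i : N) : B) := by
        rw [Submodule.coe_sum]; rfl
      _ = _ := rfl

end

section
variable {E : Type*} [NormedAddCommGroup E] [NormedSpace ℝ E]

theorem norm_bl_le (T : E ≃ₗᵢ[ℝ] E) (b : E →L[ℝ] E →L[ℝ] ℝ) : ‖bl T b‖ ≤ ‖b‖ := by
  apply ContinuousLinearMap.opNorm_le_bound₂ _ (norm_nonneg b)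
  intro x y
  rw [bl_apply]
  refine (b.le_opNorm₂ _ _).trans (le_of_eq ?_)
  rw [T.symm.norm_map, T.symm.norm_map]

theorem diag_lip (b : E →L[ℝ] E →L[ℝ] ℝ) (x y : E) :
    |b x x - b y y| ≤ ‖b‖ * (‖x‖ + ‖y‖) * ‖x - y‖ := by
  have h1 : b x x - b y y = b (x - y) x + b y (x - y) := by
    rw [map_sub, map_sub]
    show _ = (b x x - b y x) + (b y x - b y y)
    ring
  have h2 := b.le_opNorm₂ (x - y) x
  have h3 := b.le_opNorm₂ y (x - y)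
  rw [Real.norm_eq_abs] at h2 h3
  rw [h1]
  calc |b (x - y) x + b y (x - y)| ≤ |b (x - y) x| + |b y (x - y)| := abs_add_le _ _
    _ ≤ ‖b‖ * ‖x - y‖ * ‖x‖ + ‖b‖ * ‖y‖ * ‖x - y‖ := add_le_add h2 h3
    _ = _ := by ring

/-- the size of the diagonal values -/
noncomputable def pp (S : Set (E →L[ℝ] E →L[ℝ] ℝ)) (x : E) : ℝ :=
  sSup ((fun b : E →L[ℝ] E →L[ℝ] ℝ => |b x x|) '' S)

theorem pp_bdd {S : Set (E →L[ℝ] E →L[ℝ] ℝ)} (hS : ∀ b ∈ S, ‖b‖ ≤ 1) (x : E) :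
    BddAbove ((fun b : E →L[ℝ] E →L[ℝ] ℝ => |b x x|) '' S) := by
  refine ⟨‖x‖ * ‖x‖, ?_⟩
  rintro _ ⟨b, hb, rfl⟩
  have h1 := b.le_opNorm₂ x x
  rw [Real.norm_eq_abs, mul_assoc] at h1
  exact h1.trans (mul_le_of_le_one_left (by positivity) (hS b hb))

theorem le_pp {S : Set (E →L[ℝ] E →L[ℝ] ℝ)} (hS : ∀ b ∈ S, ‖b‖ ≤ 1) (x : E) {b : E →L[ℝ] E →L[ℝ] ℝ}
    (hb : b ∈ S) : |b x x| ≤ pp S x :=
  le_csSup (pp_bdd hS x) ⟨b, hb, rfl⟩

theorem pp_le {S : Set (E →L[ℝ] E →L[ℝ] ℝ)} (hne : S.Nonempty) (x : E) {r : ℝ}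
    (h : ∀ b ∈ S, |b x x| ≤ r) : pp S x ≤ r := by
  apply csSup_le (hne.image _)
  rintro _ ⟨b, hb, rfl⟩
  exact h b hb

theorem forms_par [CompleteSpace E] (hE : ¬ FiniteDimensional ℝ E) {H : Subgroup (E ≃ₗᵢ[ℝ] E)} (hH : AT H)
    {N : Submodule ℝ (E →L[ℝ] E →L[ℝ] ℝ)} (hfin : Module.Finite ℝ N) (hN : ∀ T ∈ H, ∀ b ∈ N, bl T b ∈ N)
    {b0 : E →L[ℝ] E →L[ℝ] ℝ} (hb0 : b0 ∈ N) {x0 : E} (hx0 : b0 x0 x0 ≠ 0) (x y : E) :
    ‖x + y‖ ^ 2 + ‖x - y‖ ^ 2 = 2 * ‖x‖ ^ 2 + 2 * ‖y‖ ^ 2 := by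
  classical
  set S : Set (E →L[ℝ] E →L[ℝ] ℝ) := {b | b ∈ N ∧ ‖b‖ ≤ 1} with hSdef
  have hS : ∀ b ∈ S, ‖b‖ ≤ 1 := fun b hb => hb.2
  have hne : S.Nonempty := ⟨0, N.zero_mem, by
    have h0 : ‖(0 : E →L[ℝ] E →L[ℝ] ℝ)‖ = 0 := ContinuousLinearMap.opNorm_zero
    rw [h0]; exact zero_le_one⟩
  -- invariance
  have hinv : ∀ T ∈ H, ∀ x, pp S (T x) ≤ pp S x := by
    intro T hT x
    apply pp_le hne
    intro b hb
    have h1 : bl T⁻¹ b ∈ S := ⟨hN _ (H.inv_mem hT) b hb.1, (norm_bl_le _ _).trans hb.2⟩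
    exact le_pp hS x h1
  -- Lipschitz
  have hlip : ∀ x y, pp S x ≤ pp S y + (‖x‖ + ‖y‖) * ‖x - y‖ := by
    intro x y
    apply pp_le hne
    intro b hb
    have h1 := diag_lip b x y
    have h2 : ‖b‖ * (‖x‖ + ‖y‖) * ‖x - y‖ ≤ (‖x‖ + ‖y‖) * ‖x - y‖ := by
      rw [mul_assoc]
      exact mul_le_of_le_one_left (by positivity) hb.2
    have h3 := le_pp hS y hb
    have h4 : |b x x| ≤ |b y y| + |b x x - b y y| := by
      have := abs_add_le (b y y) (b x x - b y y)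
      rwa [add_sub_cancel] at this
    linarith
  -- homogeneity
  have hhom : ∀ (s : ℝ) (x : E), pp S (s • x) = s ^ 2 * pp S x := by
    intro s x
    have he : ∀ b : E →L[ℝ] E →L[ℝ] ℝ, |b (s • x) (s • x)| = s ^ 2 * |b x x| := by
      intro b
      rw [map_smul, map_smul]
      show |s • (s • b x x)| = _
      rw [smul_smul, smul_eq_mul, abs_mul, abs_mul_self, sq]
    apply le_antisymm
    · apply pp_le hne
      intro b hb
      rw [he]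
      exact mul_le_mul_of_nonneg_left (le_pp hS x hb) (sq_nonneg s)
    · by_cases hs : s = 0
      · rw [hs, zero_pow two_ne_zero, zero_mul]
        exact (abs_nonneg _).trans (le_pp hS _ hne.some_mem)
      · have hs2 : 0 < s ^ 2 := by positivity
        rw [← le_div_iff₀' hs2]
        apply pp_le hne
        intro b hb
        rw [le_div_iff₀' hs2, ← he]
        exact le_pp hS _ hb
  -- constant on the sphere
  have hle : ∀ x y : E, ‖x‖ = 1 → ‖y‖ = 1 → pp S x ≤ pp S y := by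
    intro x y hx hy
    apply le_of_forall_pos_le_add
    intro ε hε
    obtain ⟨T, hT, hTx⟩ := hH x y hx hy (ε / 2) (by positivity)
    have h1 : pp S x ≤ pp S (T x) := by
      have := hinv T⁻¹ (H.inv_mem hT) (T x)
      have h2 : T⁻¹ (T x) = x := T.symm_apply_apply x
      rwa [h2] at this
    have h3 := hlip (T x) y
    rw [T.norm_map, hx, hy] at h3
    linarith
  -- a unit vector
  have hx0n : x0 ≠ 0 := by
    rintro rfl
    apply hx0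
    rw [map_zero]
  have hb0n : b0 ≠ 0 := by
    rintro rfl
    exact hx0 rfl
  have hx0' : ‖x0‖ ≠ 0 := norm_ne_zero_iff.2 hx0n
  set u : E := (‖x0‖⁻¹ : ℝ) • x0 with hu
  have hu1 : ‖u‖ = 1 := by rw [hu, norm_smul, norm_inv, norm_norm, inv_mul_cancel₀ hx0']
  set κ := pp S u with hκ
  have hκpos : 0 < κ := by
    have hb0' : ‖b0‖ ≠ 0 := (norm_ne_zero_iff (a := b0)).2 hb0n
    have h1 : (‖b0‖⁻¹ : ℝ) • b0 ∈ S := by
      refine ⟨N.smul_mem _ hb0, ?_⟩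
      have h9 : ‖(‖b0‖⁻¹ : ℝ) • b0‖ ≤ ‖(‖b0‖⁻¹ : ℝ)‖ * ‖b0‖ := ContinuousLinearMap.opNorm_smul_le _ _
      have h8 : ‖(‖b0‖⁻¹ : ℝ)‖ = ‖b0‖⁻¹ := by
        rw [Real.norm_eq_abs, abs_of_nonneg (inv_nonneg.2 (norm_nonneg b0))]
      rw [h8, inv_mul_cancel₀ hb0'] at h9
      exact h9
    have h2 := le_pp hS u h1
    refine lt_of_lt_of_le ?_ h2
    rw [abs_pos]
    show (‖b0‖⁻¹ : ℝ) • b0 u u ≠ 0
    refine smul_ne_zero (inv_ne_zero hb0') ?_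
    rw [hu, map_smul, map_smul]
    show (‖x0‖⁻¹ : ℝ) • ((‖x0‖⁻¹ : ℝ) • b0 x0 x0) ≠ 0
    exact smul_ne_zero (inv_ne_zero hx0') (smul_ne_zero (inv_ne_zero hx0') hx0)
  have hval : ∀ x : E, pp S x = κ * ‖x‖ ^ 2 := by
    intro x
    by_cases hx : x = 0
    · have h1 := hhom 0 (0 : E)
      rw [zero_pow two_ne_zero, zero_mul, smul_zero] at h1
      rw [hx, norm_zero, zero_pow two_ne_zero, mul_zero, h1]
    have hxn : ‖x‖ ≠ 0 := norm_ne_zero_iff.2 hx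
    have h1 : ‖(‖x‖⁻¹ : ℝ) • x‖ = 1 := by rw [norm_smul, norm_inv, norm_norm, inv_mul_cancel₀ hxn]
    have h2 : x = ‖x‖ • ((‖x‖⁻¹ : ℝ) • x) := by rw [smul_smul, mul_inv_cancel₀ hxn, one_smul]
    have h3 : pp S ((‖x‖⁻¹ : ℝ) • x) = κ := le_antisymm (hle _ _ h1 hu1) (hle _ _ hu1 h1)
    conv_lhs => rw [h2]
    rw [hhom, h3, mul_comm]
  -- finitely many forms
  obtain ⟨m, b, C, hC, hb⟩ : ∃ (m : ℕ) (b : Fin m → E →L[ℝ] E →L[ℝ] ℝ) (C : ℝ), 0 ≤ C ∧ ∀ v ∈ N, ‖v‖ ≤ 1 →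
      ∃ l : Fin m → ℝ, (∀ i, |l i| ≤ C) ∧ v = ∑ i, l i • b i := by
    have h := @coord_bound (E →L[ℝ] E →L[ℝ] ℝ) _ _ N hfin
    exact h
  refine Pool.TH578.Quad.paral_of_forms (E := E) ?_ hE ?_ x y
  · intro x y hx hy ε hε
    obtain ⟨T, _, hT⟩ := hH x y hx hy ε hε
    exact ⟨T, hT⟩
  intro ε hε
  refine ⟨m, b, κ * ε ^ 2 / (m * C + 1), by positivity, ?_⟩
  have key : ∀ x y : E, (∀ i, |b i x x - b i y y| ≤ κ * ε ^ 2 / (m * C + 1)) →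
      ‖x‖ ^ 2 ≤ ‖y‖ ^ 2 + ε ^ 2 := by
    intro x y hxy
    have h1 : pp S x ≤ pp S y + κ * ε ^ 2 := by
      apply pp_le hne
      intro v hv
      obtain ⟨l, hl, hv2⟩ := hb v hv.1 hv.2
      have h2 := le_pp hS y hv
      have h3 : v x x - v y y = ∑ i, l i * (b i x x - b i y y) := by
        rw [hv2]
        simp only [FunLike.coe_sum, Finset.sum_apply, FunLike.coe_smul, Pi.smul_apply, smul_eq_mul]
        rw [← Finset.sum_sub_distrib]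
        exact Finset.sum_congr rfl fun i _ => by ring
      have h4 : |v x x - v y y| ≤ m * C * (κ * ε ^ 2 / (m * C + 1)) := by
        rw [h3]
        calc |∑ i, l i * (b i x x - b i y y)| ≤ ∑ i, |l i * (b i x x - b i y y)| := Finset.abs_sum_le_sum_abs _ _
          _ ≤ ∑ _i : Fin m, C * (κ * ε ^ 2 / (m * C + 1)) := by
              apply Finset.sum_le_sum
              intro i _
              rw [abs_mul]
              exact mul_le_mul (hl i) (hxy i) (abs_nonneg _) hC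
          _ = m * C * (κ * ε ^ 2 / (m * C + 1)) := by
              rw [Finset.sum_const, Finset.card_univ, Fintype.card_fin, nsmul_eq_mul]; ring
      have h5 : m * C * (κ * ε ^ 2 / (m * C + 1)) ≤ κ * ε ^ 2 := by
        rw [mul_div_assoc', div_le_iff₀ (by positivity)]
        nlinarith [mul_pos hκpos (pow_pos hε 2), mul_nonneg (Nat.cast_nonneg (α := ℝ) m) hC]
      have h6 : |v x x| ≤ |v y y| + |v x x - v y y| := by
        have := abs_add_le (v y y) (v x x - v y y)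
        rwa [add_sub_cancel] at this
      linarith
    rw [hval, hval, ← mul_add, mul_le_mul_iff_right₀ hκpos] at h1
    exact h1
  intro x y _ _ hxy
  have h1 := key x y hxy
  have h2 := key y x (fun i => by rw [abs_sub_comm]; exact hxy i)
  rw [abs_le]
  constructor
  · by_contra hcon
    push Not at hcon
    nlinarith [norm_nonneg x, norm_nonneg y]
  · by_contra hcon
    push Not at hcon
    nlinarith [norm_nonneg x, norm_nonneg y]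

/-- one vector is enough -/
theorem forms_par_pt [CompleteSpace E] (hE : ¬ FiniteDimensional ℝ E) {H : Subgroup (E ≃ₗᵢ[ℝ] E)} (hH : AT H)
    {N : Submodule ℝ (E →L[ℝ] E →L[ℝ] ℝ)} (hN : ∀ T ∈ H, ∀ b ∈ N, bl T b ∈ N) {x1 : E} (hx1 : x1 ≠ 0)
    {W : Submodule ℝ (E →L[ℝ] ℝ)} (hW : FiniteDimensional ℝ W) (hNW : ∀ c ∈ N, c x1 ∈ W)
    {b0 : E →L[ℝ] E →L[ℝ] ℝ} (hb0 : b0 ∈ N) {x0 : E} (hx0 : b0 x0 x0 ≠ 0) (x y : E) :
    ‖x + y‖ ^ 2 + ‖x - y‖ ^ 2 = 2 * ‖x‖ ^ 2 + 2 * ‖y‖ ^ 2 :=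
  forms_par hE hH (form_fd hE hH hN hx1 hW hNW) hN hb0 hx0 x y

end

end Pool.Agent.TH596.RO
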