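import Pool.Agent.TH596.RO.StepA
import Pool.Agent.W660.GY.Main2

/-!
# Norm continuity: Gleason norms and vectors with Lipschitz orbits
-/

set_option autoImplicit false
set_option linter.style.haveILetI false
set_option linter.unusedVariables false

namespace Pool.Agent.TH596.RO

open Topology TopologicalSpace Filter MeasureTheory
open Pool.Agent.W660.GY (IsGleason)

section
variable {P : Type} [Group P] [TopologicalSpace P] {ν : P → ℝ}

theorem nu_nonneg (h : IsGleason ν) (g : P) : 0 ≤ ν g := by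
  by_cases hg : g = 1
  · rw [hg, h.one]
  · exact (h.pos g hg).le

theorem nu_pow (h : IsGleason ν) (g : P) (k : ℕ) : ν (g ^ k) ≤ k * ν g := by
  induction k with
  | zero => rw [pow_zero, h.one]; simp
  | succ k ih =>
    rw [pow_succ]
    have := h.mul (g ^ k) g
    push_cast
    linarith

theorem nu_abs (h : IsGleason ν) (a b : P) : |ν (b⁻¹ * a) - ν a| ≤ ν b := by
  have h1 := h.mul b⁻¹ a
  rw [h.inv] at h1
  have h2 := h.mul b (b⁻¹ * a)
  rw [mul_inv_cancel_left] at h2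
  rw [abs_le]
  constructor <;> linarith

theorem nu_abs' (h : IsGleason ν) (a g : P) : |ν g - ν a| ≤ ν (a⁻¹ * g) := by
  have h1 := h.mul a (a⁻¹ * g)
  rw [mul_inv_cancel_left] at h1
  have h2 := h.mul g (a⁻¹ * g)⁻¹
  rw [h.inv, mul_inv_rev, inv_inv, mul_inv_cancel_left] at h2
  rw [abs_le]
  constructor <;> linarith

theorem nu_cont [IsTopologicalGroup P] (h : IsGleason ν) : Continuous ν := by
  rw [continuous_iff_continuousAt]
  intro a
  rw [Metric.continuousAt_iff']
  intro ε hε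
  have h1 : {g : P | ν (a⁻¹ * g) < ε} ∈ 𝓝 a := by
    have h2 : {g | ν g < ε} ∈ 𝓝 (a⁻¹ * a) := by
      rw [inv_mul_cancel]; exact h.basis.mem_of_mem hε
    exact (continuous_const_mul a⁻¹).continuousAt.preimage_mem_nhds h2
  filter_upwards [h1] with g hg
  rw [Real.dist_eq]
  exact lt_of_le_of_lt (nu_abs' h a g) hg

theorem nu_compact [IsTopologicalGroup P] [T2Space P] [LocallyCompactSpace P] (h : IsGleason ν) :
    ∃ r > 0, ∀ s ≤ r, IsCompact {g : P | ν g ≤ s} := by
  obtain ⟨C, hC, hC1⟩ := exists_compact_mem_nhds (1 : P)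
  obtain ⟨ε, hε, hεC⟩ := h.basis.mem_iff.1 hC1
  refine ⟨ε / 2, by positivity, fun s hs => ?_⟩
  refine hC.of_isClosed_subset (isClosed_le (nu_cont h) continuous_const) ?_
  intro g hg
  apply hεC
  show ν g < ε
  have : ν g ≤ s := hg
  linarith

theorem nu_aut (h : IsGleason ν) (α : P →* P) (hα : Continuous α) :
    ∃ C δ : ℝ, 0 < C ∧ 0 < δ ∧ ∀ n, ν n < δ → ν (α n) ≤ C * ν n := by
  obtain ⟨C0, hC0, hesc⟩ := h.escape
  set s := min (1 / (2 * C0 ^ 2)) (1 / C0) with hs
  have hs0 : 0 < s := lt_min (by positivity) (by positivity)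
  have hpre : α ⁻¹' {g | ν g < s} ∈ 𝓝 (1 : P) := by
    apply hα.continuousAt.preimage_mem_nhds
    rw [map_one]; exact h.basis.mem_of_mem hs0
  obtain ⟨η, hη, hηs⟩ := h.basis.mem_iff.1 hpre
  refine ⟨1 / (C0 * η), η, by positivity, hη, fun n hn => ?_⟩
  have has : ν (α n) < s := hηs hn
  set a := ν (α n) with ha
  have ha0 : 0 ≤ a := nu_nonneg h _
  rcases ha0.eq_or_lt with h0 | h0
  · rw [← h0]
    have := nu_nonneg h n
    positivity
  have hx1 : 1 ≤ 1 / (C0 * a) := by
    rw [le_div_iff₀ (by positivity)]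
    have : a < 1 / C0 := lt_of_lt_of_le has (min_le_right _ _)
    rw [lt_div_iff₀ hC0] at this
    linarith
  set k := ⌊1 / (C0 * a)⌋₊ with hk
  have hk1 : (k : ℝ) ≤ 1 / (C0 * a) := Nat.floor_le (by positivity)
  have hk2 : 1 / (C0 * a) < k + 1 := Nat.lt_floor_add_one _
  have hk3 : (1 : ℝ) ≤ k := by
    have : 1 ≤ k := Nat.le_floor (by simpa using hx1)
    exact_mod_cast this
  have hka : k * a ≤ 1 / C0 := by
    have := mul_le_mul_of_nonneg_right hk1 h0.le
    have h2 : 1 / (C0 * a) * a = 1 / C0 := by field_simp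
    linarith
  have hka2 : 1 / (2 * C0) ≤ k * a := by
    have h3 : 1 / (C0 * a) ≤ 2 * k := by linarith
    have h4 := mul_le_mul_of_nonneg_right h3 h0.le
    have h2 : 1 / (C0 * a) * a = 1 / C0 := by field_simp
    rw [h2] at h4
    have h5 : 1 / (2 * C0) = (1 / C0) / 2 := by field_simp
    rw [h5]; linarith
  have h1 := hesc (α n) k hka
  rw [← map_pow] at h1
  have h2 : s ≤ ν (α (n ^ k)) := by
    refine (min_le_left _ _).trans ?_
    have h3 : 1 / (2 * C0) ≤ C0 * ν (α (n ^ k)) := hka2.trans h1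
    rw [div_le_iff₀ (by positivity)] at h3 ⊢
    nlinarith
  have h3 : η ≤ ν (n ^ k) := by
    by_contra hcon
    push Not at hcon
    have : ν (α (n ^ k)) < s := hηs hcon
    linarith
  have h4 : η ≤ k * ν n := h3.trans (nu_pow h n k)
  have h5 : η ≤ 1 / (C0 * a) * ν n := h4.trans (mul_le_mul_of_nonneg_right hk1 (nu_nonneg h n))
  have h6 : 1 / (C0 * a) * ν n = ν n / (C0 * a) := by ring
  rw [h6, le_div_iff₀ (by positivity)] at h5
  have h7 : 1 / (C0 * η) * ν n = ν n / (C0 * η) := by ring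
  rw [h7, le_div_iff₀ (by positivity)]
  linarith

end

section
variable {P : Type} [Group P] [TopologicalSpace P] [IsTopologicalGroup P] [T2Space P] [LocallyCompactSpace P]
  {ν : P → ℝ} {V : Type*} [NormedAddCommGroup V] [NormedSpace ℝ V] [CompleteSpace V]

/-- a vector with a Lipschitz orbit -/
theorem lip_vec (h : IsGleason ν) (π : P → (V →L[ℝ] V)) (hm : ∀ g k v, π (g * k) v = π g (π k v))
    (hn : ∀ k v, ‖π k v‖ ≤ ‖v‖) (h1 : ∀ v, π 1 v = v)
    (hc : ∀ v, Continuous fun k => π k v) (v : V) (hv : v ≠ 0) :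
    ∃ w : V, w ≠ 0 ∧ ∃ C : ℝ, 0 ≤ C ∧ ∀ g, ‖π g w - w‖ ≤ C * ν g := by
  classical
  letI : MeasurableSpace P := borel P
  haveI : BorelSpace P := ⟨rfl⟩
  let μ : Measure P := Measure.haar
  have hvn : 0 < ‖v‖ := norm_pos_iff.2 hv
  obtain ⟨r0, hr0, hcpt⟩ := nu_compact h
  have hV : {n : P | ‖π n v - v‖ < ‖v‖ / 2} ∈ 𝓝 (1 : P) := by
    apply IsOpen.mem_nhds
    · exact isOpen_lt (((hc v).sub continuous_const).norm) continuous_const
    · show ‖π 1 v - v‖ < ‖v‖ / 2
      rw [h1, sub_self, norm_zero]; positivity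
  obtain ⟨r1, hr1, hr1V⟩ := h.basis.mem_iff.1 hV
  set r := min r0 r1 with hr
  have hrpos : 0 < r := lt_min hr0 hr1
  set B : Set P := {g | ν g ≤ r} with hB
  have hBc : IsCompact B := hcpt r (min_le_left _ _)
  let f : P → ℝ := fun n => max 0 (r - ν n)
  have hfc : Continuous f := continuous_const.max (continuous_const.sub (nu_cont h))
  have hf0 : ∀ n, 0 ≤ f n := fun n => le_max_left _ _
  have hfB : ∀ n, n ∉ B → f n = 0 := by
    intro n hn
    have : r < ν n := by
      by_contra hcon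
      exact hn (not_lt.1 hcon)
    exact max_eq_left (by linarith)
  have hfs : HasCompactSupport f := HasCompactSupport.intro hBc hfB
  have hint0 : Integrable f μ := hfc.integrable_of_hasCompactSupport hfs
  have hintg : ∀ g : P, Integrable (fun n => f (g⁻¹ * n) • π n v) μ := by
    intro g
    apply Continuous.integrable_of_hasCompactSupport
    · exact (hfc.comp (continuous_const_mul g⁻¹)).smul (hc v)
    · have hcs : HasCompactSupport fun n => f (g⁻¹ * n) := by
        refine HasCompactSupport.intro (hBc.image (continuous_const_mul g)) ?_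
        intro n hn
        apply hfB
        intro hb
        exact hn ⟨g⁻¹ * n, hb, by simp⟩
      exact hcs.smul_right
  have hint : Integrable (fun n => f n • π n v) μ := by
    have := hintg 1
    simpa using this
  have hintB : Integrable (B.indicator fun _ => (1 : ℝ)) μ := by
    rw [integrable_indicator_iff (hBc.isClosed.measurableSet)]
    exact integrableOn_const (hBc.measure_lt_top.ne)
  set c := ∫ n, f n ∂μ with hcdef
  have hcpos : 0 < c := by
    apply Continuous.integral_pos_of_hasCompactSupport_nonneg_nonzero (x := (1 : P)) hfc hfs hf0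
    show max 0 (r - ν 1) ≠ 0
    rw [h.one, sub_zero, max_eq_right hrpos.le]
    exact hrpos.ne'
  set cB := ∫ n, B.indicator (fun _ => (1 : ℝ)) n ∂μ with hcB
  refine ⟨∫ n, f n • π n v ∂μ, ?_, 2 * cB * ‖v‖, ?_, ?_⟩
  · intro h0
    have he : (∫ n, f n • π n v ∂μ) - c • v = ∫ n, f n • (π n v - v) ∂μ := by
      rw [hcdef, ← integral_smul_const, ← integral_sub hint (hint0.smul_const v)]
      apply integral_congr_ae
      filter_upwards with k
      rw [smul_sub]
    have h2 : ‖∫ n, f n • (π n v - v) ∂μ‖ ≤ ∫ n, f n * (‖v‖ / 2) ∂μ := by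
      apply norm_integral_le_of_norm_le
      · exact hint0.mul_const _
      · filter_upwards with k
        rw [norm_smul, Real.norm_eq_abs, abs_of_nonneg (hf0 k)]
        by_cases hk : ν k < r1
        · exact mul_le_mul_of_nonneg_left (le_of_lt (hr1V hk)) (hf0 k)
        · have : f k = 0 := max_eq_left (by
            have : r ≤ r1 := min_le_right _ _
            linarith)
          rw [this, zero_mul, zero_mul]
    rw [integral_mul_const, ← hcdef, ← he, h0, zero_sub, norm_neg, norm_smul, Real.norm_eq_abs,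
      abs_of_pos hcpos] at h2
    have := le_of_mul_le_mul_left h2 hcpos
    linarith
  · have : 0 ≤ cB := integral_nonneg fun n => Set.indicator_nonneg (fun _ _ => zero_le_one) n
    positivity
  · intro g
    have htr : π g (∫ n, f n • π n v ∂μ) = ∫ n, f (g⁻¹ * n) • π n v ∂μ := by
      rw [← ContinuousLinearMap.integral_comp_comm _ hint]
      rw [← integral_mul_left_eq_self (μ := μ) (fun n => f (g⁻¹ * n) • π n v) g]
      apply integral_congr_ae
      filter_upwards with k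
      rw [map_smul, ← hm, inv_mul_cancel_left]
    rw [htr, ← integral_sub (hintg g) hint]
    have hbd : ‖∫ n, (f (g⁻¹ * n) • π n v - f n • π n v) ∂μ‖ ≤
        ∫ n, (ν g * ‖v‖) * (B.indicator (fun _ => (1 : ℝ)) n + B.indicator (fun _ => (1 : ℝ)) (g⁻¹ * n)) ∂μ := by
      apply norm_integral_le_of_norm_le
      · apply Integrable.const_mul
        exact hintB.add (hintB.comp_mul_left g⁻¹)
      · filter_upwards with n
        rw [← sub_smul, norm_smul, Real.norm_eq_abs]
        by_cases hnB : n ∈ B ∨ g⁻¹ * n ∈ B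
        · have h2 : |f (g⁻¹ * n) - f n| ≤ ν g := by
            have h3 := nu_abs h n g
            have h4 : |f (g⁻¹ * n) - f n| ≤ |(r - ν (g⁻¹ * n)) - (r - ν n)| := by
              show |max 0 (r - ν (g⁻¹ * n)) - max 0 (r - ν n)| ≤ _
              rw [max_comm 0, max_comm 0]
              exact abs_max_sub_max_le_abs _ _ _
            refine h4.trans ?_
            rw [show (r - ν (g⁻¹ * n)) - (r - ν n) = -(ν (g⁻¹ * n) - ν n) by ring, abs_neg]
            exact h3
          have h5 : (1 : ℝ) ≤ B.indicator (fun _ => (1 : ℝ)) n + B.indicator (fun _ => (1 : ℝ)) (g⁻¹ * n) := by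
            have p1 : 0 ≤ B.indicator (fun _ => (1 : ℝ)) n := Set.indicator_nonneg (fun _ _ => zero_le_one) n
            have p2 : 0 ≤ B.indicator (fun _ => (1 : ℝ)) (g⁻¹ * n) :=
              Set.indicator_nonneg (fun _ _ => zero_le_one) _
            rcases hnB with hb | hb
            · rw [Set.indicator_of_mem hb]; linarith
            · rw [Set.indicator_of_mem hb]; linarith
          calc |f (g⁻¹ * n) - f n| * ‖π n v‖ ≤ ν g * ‖v‖ :=
                mul_le_mul h2 (hn n v) (norm_nonneg _) (nu_nonneg h g)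
            _ = (ν g * ‖v‖) * 1 := (mul_one _).symm
            _ ≤ _ := mul_le_mul_of_nonneg_left h5 (mul_nonneg (nu_nonneg h g) (norm_nonneg _))
        · push Not at hnB
          rw [hfB _ hnB.1, hfB _ hnB.2, sub_zero, abs_zero, zero_mul]
          have p1 : 0 ≤ B.indicator (fun _ => (1 : ℝ)) n := Set.indicator_nonneg (fun _ _ => zero_le_one) n
          have p2 : 0 ≤ B.indicator (fun _ => (1 : ℝ)) (g⁻¹ * n) :=
            Set.indicator_nonneg (fun _ _ => zero_le_one) _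
          have := mul_nonneg (nu_nonneg h g) (norm_nonneg v)
          positivity
    refine hbd.trans (le_of_eq ?_)
    rw [integral_const_mul, integral_add hintB (hintB.comp_mul_left g⁻¹),
      integral_mul_left_eq_self (μ := μ) (fun n => B.indicator (fun _ => (1 : ℝ)) n) g⁻¹, ← hcB]
    ring

end

section
variable {E : Type} [NormedAddCommGroup E] [NormedSpace ℝ E]

attribute [local instance] sot sot_group sot_t2

theorem norm_lip [CompleteSpace E] [Nontrivial E] {G N : Subgroup (E ≃ₗᵢ[ℝ] E)}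
    (htr : ∀ x y : E, ‖x‖ = 1 → ‖y‖ = 1 → ∃ T ∈ G, T x = y)
    (hN : ∀ T ∈ G, ∀ S ∈ N, T * S * T⁻¹ ∈ N) [LocallyCompactSpace N] {ν : N → ℝ} (h : IsGleason ν) :
    ∃ C δ : ℝ, 0 ≤ C ∧ 0 < δ ∧ ∀ n : N, ν n < δ → ∀ x : E, ‖(n : E ≃ₗᵢ[ℝ] E) x - x‖ ≤ C * ν n * ‖x‖ := by
  classical
  let D1 : Set E := {x | ∃ C δ : ℝ, 0 ≤ C ∧ 0 < δ ∧ ∀ n : N, ν n < δ → ‖(n : E ≃ₗᵢ[ℝ] E) x - x‖ ≤ C * ν n}
  have hinv : ∀ T ∈ G, ∀ x ∈ D1, T x ∈ D1 := by
    rintro T hT x ⟨C, δ, hC, hδ, hx⟩
    obtain ⟨C', δ', hC', hδ', h'⟩ := nu_aut h (cN hN (G.inv_mem hT)) (cN_cont hN (G.inv_mem hT))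
    refine ⟨C * C', min δ' (δ / C'), by positivity, lt_min hδ' (by positivity), fun n hn => ?_⟩
    have h1 := h' n (lt_of_lt_of_le hn (min_le_left _ _))
    have h2 : ν n < δ / C' := lt_of_lt_of_le hn (min_le_right _ _)
    have h3 : ν (cN hN (G.inv_mem hT) n) < δ := by
      refine lt_of_le_of_lt h1 ?_
      rw [lt_div_iff₀ hC'] at h2
      linarith
    have h4 := hx _ h3
    rw [cN_apply hN hT, ← map_sub, T.norm_map]
    calc ‖((cN hN (G.inv_mem hT) n : N) : E ≃ₗᵢ[ℝ] E) x - x‖ ≤ C * ν (cN hN (G.inv_mem hT) n) := h4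
      _ ≤ C * (C' * ν n) := mul_le_mul_of_nonneg_left h1 hC
      _ = C * C' * ν n := by ring
  have hsmul : ∀ (c : ℝ), ∀ x ∈ D1, c • x ∈ D1 := by
    rintro c x ⟨C, δ, hC, hδ, hx⟩
    refine ⟨|c| * C, δ, by positivity, hδ, fun n hn => ?_⟩
    rw [map_smul, ← smul_sub, norm_smul, Real.norm_eq_abs, mul_assoc]
    exact mul_le_mul_of_nonneg_left (hx n hn) (abs_nonneg c)
  obtain ⟨w, hw0, hw⟩ : ∃ w, w ≠ 0 ∧ w ∈ D1 := by
    obtain ⟨v, hv⟩ := exists_ne (0 : E)
    obtain ⟨w, hw0, C, hC, hw⟩ := lip_vec h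
      (fun k : N => ((k : E ≃ₗᵢ[ℝ] E).toContinuousLinearEquiv : E →L[ℝ] E)) (fun g k v => rfl)
      (fun k v => ((k : E ≃ₗᵢ[ℝ] E).norm_map v).le) (fun v => rfl) (fun v => sot_apply v) v hv
    exact ⟨w, hw0, C, 1, hC, one_pos, fun n _ => hw n⟩
  have hall : ∀ x, x ∈ D1 := by
    intro x
    by_cases hx : x = 0
    · rw [hx, ← zero_smul ℝ w]
      exact hsmul 0 w hw
    have hwn : ‖w‖ ≠ 0 := norm_ne_zero_iff.2 hw0
    have hxn : ‖x‖ ≠ 0 := norm_ne_zero_iff.2 hx
    obtain ⟨T, hT, hTx⟩ := htr ((‖w‖⁻¹ : ℝ) • w) ((‖x‖⁻¹ : ℝ) • x)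
      (by rw [norm_smul, norm_inv, norm_norm, inv_mul_cancel₀ hwn])
      (by rw [norm_smul, norm_inv, norm_norm, inv_mul_cancel₀ hxn])
    have h1 : x = ‖x‖ • T ((‖w‖⁻¹ : ℝ) • w) := by
      rw [hTx, smul_smul, mul_inv_cancel₀ hxn, one_smul]
    rw [h1]
    exact hsmul _ _ (hinv T hT _ (hsmul _ _ hw))
  -- Baire
  let F : ℕ → Set E := fun m => {x | ∀ n : N, ν n < 1 / (m + 1) → ‖(n : E ≃ₗᵢ[ℝ] E) x - x‖ ≤ m * ν n}
  have hFc : ∀ m, IsClosed (F m) := by
    intro m
    have : F m = ⋂ n : N, ⋂ _ : ν n < 1 / ((m : ℝ) + 1), {x : E | ‖(n : E ≃ₗᵢ[ℝ] E) x - x‖ ≤ m * ν n} := by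
      ext x; simp [F]
    rw [this]
    refine isClosed_iInter fun n => isClosed_iInter fun _ => ?_
    exact isClosed_le (((n : E ≃ₗᵢ[ℝ] E).continuous.sub continuous_id).norm) continuous_const
  have hcover : (⋃ m, F m) = Set.univ := by
    rw [Set.eq_univ_iff_forall]
    intro x
    obtain ⟨C, δ, hC, hδ, hx⟩ := hall x
    obtain ⟨m, hm⟩ := exists_nat_gt (max C (1 / δ))
    rw [Set.mem_iUnion]
    refine ⟨m, fun n hn => ?_⟩
    have hm1 : C < m := lt_of_le_of_lt (le_max_left _ _) hm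
    have hm2 : 1 / δ < m := lt_of_le_of_lt (le_max_right _ _) hm
    have h1 : ν n < δ := by
      refine hn.trans ?_
      rw [div_lt_iff₀ (by positivity)]
      rw [div_lt_iff₀ hδ] at hm2
      nlinarith
    exact (hx n h1).trans (mul_le_mul_of_nonneg_right hm1.le (nu_nonneg h n))
  obtain ⟨m, x1, hx1⟩ := nonempty_interior_of_iUnion_of_closed hFc hcover
  obtain ⟨r, hr, hball⟩ := Metric.isOpen_iff.1 isOpen_interior x1 hx1
  refine ⟨4 * m / r, 1 / (m + 1), by positivity, by positivity, fun n hn x => ?_⟩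
  by_cases hx : x = 0
  · rw [hx, map_zero, sub_self, norm_zero, mul_zero]
  have hxn : 0 < ‖x‖ := norm_pos_iff.2 hx
  set s : ℝ := r / 2 / ‖x‖ with hs
  have hs0 : 0 < s := by positivity
  have hxF : x1 ∈ F m := interior_subset hx1
  have hyF : x1 + s • x ∈ F m := by
    apply interior_subset
    apply hball
    rw [Metric.mem_ball, dist_eq_norm, add_sub_cancel_left, norm_smul, Real.norm_of_nonneg hs0.le, hs,
      div_mul_cancel₀ _ hxn.ne']
    linarith
  have h1 := hxF n hn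
  have h2 := hyF n hn
  have h3 : s • ((n : E ≃ₗᵢ[ℝ] E) x - x) = ((n : E ≃ₗᵢ[ℝ] E) (x1 + s • x) - (x1 + s • x)) -
      ((n : E ≃ₗᵢ[ℝ] E) x1 - x1) := by
    rw [map_add, map_smul, smul_sub]; abel
  have h4 : s * ‖(n : E ≃ₗᵢ[ℝ] E) x - x‖ ≤ 2 * m * ν n := by
    calc s * ‖(n : E ≃ₗᵢ[ℝ] E) x - x‖ = ‖s • ((n : E ≃ₗᵢ[ℝ] E) x - x)‖ := by
          rw [norm_smul, Real.norm_of_nonneg hs0.le]
      _ ≤ m * ν n + m * ν n := by rw [h3]; exact (norm_sub_le _ _).trans (add_le_add h2 h1)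
      _ = 2 * m * ν n := by ring
  have h5 : ‖(n : E ≃ₗᵢ[ℝ] E) x - x‖ ≤ 2 * m * ν n / s := by
    rw [le_div_iff₀ hs0]; linarith
  refine h5.trans (le_of_eq ?_)
  rw [hs]
  field_simp
  ring

end

end Pool.Agent.TH596.RO
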