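import Mathlib

/-!
# Locally compact groups in a Banach algebra: one-parameter subgroups and neighbourhoods of one
-/

set_option autoImplicit false
set_option linter.style.haveILetI false
set_option linter.unusedVariables false

namespace Pool.Agent.TH596.RO

open Topology Filter Metric NormedSpace

section
variable {A : Type*} [NormedRing A] [NormedAlgebra ℝ A] [CompleteSpace A]

theorem ex_cont : Continuous (exp : A → A) := by
  letI : NormedAlgebra ℚ A := NormedAlgebra.restrictScalars ℚ ℝ A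
  exact exp_continuous

theorem ex_add {x y : A} (h : Commute x y) : exp (x + y) = exp x * exp y := by
  letI : NormedAlgebra ℚ A := NormedAlgebra.restrictScalars ℚ ℝ A
  exact exp_add_of_commute h

theorem ex_nsmul (n : ℕ) (x : A) : exp ((n : ℝ) • x) = exp x ^ n := by
  letI : NormedAlgebra ℚ A := NormedAlgebra.restrictScalars ℚ ℝ A
  rw [← exp_nsmul n x, Nat.cast_smul_eq_nsmul]

theorem ex_zero : exp (0 : A) = 1 := exp_zero

theorem ex_two : ∃ r > 0, ∀ x y : A, ‖x‖ ≤ r → ‖y‖ ≤ r →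
    ‖x - y‖ ≤ 2 * ‖exp x - exp y‖ ∧ ‖exp x - exp y‖ ≤ 2 * ‖x - y‖ := by
  have h : HasStrictFDerivAt (exp : A → A) (1 : A →L[ℝ] A) 0 := hasStrictFDerivAt_exp_zero
  have h1 := h.isLittleO.def (c := 1 / 2) (by norm_num)
  rw [Metric.eventually_nhds_iff] at h1
  obtain ⟨ε, hε, h2⟩ := h1
  refine ⟨ε / 2, by positivity, fun x y hx hy => ?_⟩
  have h3 : dist (x, y) ((0 : A), (0 : A)) < ε := by
    rw [Prod.dist_eq, dist_zero_right, dist_zero_right]
    exact max_lt (by linarith) (by linarith)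
  have h4 : ‖exp x - exp y - (x - y)‖ ≤ 1 / 2 * ‖x - y‖ := h2 h3
  constructor
  · have h5 : ‖x - y‖ ≤ ‖exp x - exp y‖ + ‖exp x - exp y - (x - y)‖ := by
      calc ‖x - y‖ = ‖(exp x - exp y) - (exp x - exp y - (x - y))‖ := by
            congr 1; abel
        _ ≤ _ := norm_sub_le _ _
    linarith
  · have h5 : ‖exp x - exp y‖ ≤ ‖x - y‖ + ‖exp x - exp y - (x - y)‖ := by
      calc ‖exp x - exp y‖ = ‖(x - y) + (exp x - exp y - (x - y))‖ := by
            congr 1; abel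
        _ ≤ _ := norm_add_le _ _
    have := norm_nonneg (x - y)
    linarith

theorem ex_lin {c : ℝ} (hc : 0 < c) : ∃ r > 0, ∀ x : A, ‖x‖ ≤ r → ‖exp x - 1 - x‖ ≤ c * ‖x‖ := by
  have h : HasStrictFDerivAt (exp : A → A) (1 : A →L[ℝ] A) 0 := hasStrictFDerivAt_exp_zero
  have h1 := h.isLittleO.def (c := c) hc
  rw [Metric.eventually_nhds_iff] at h1
  obtain ⟨ε, hε, h2⟩ := h1
  refine ⟨ε / 2, by positivity, fun x hx => ?_⟩
  have h3 : dist (x, (0 : A)) ((0 : A), (0 : A)) < ε := by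
    rw [Prod.dist_eq, dist_zero_right, dist_self]
    exact max_lt (by linarith) hε
  have h4 : ‖exp x - exp 0 - (x - 0)‖ ≤ c * ‖x - 0‖ := h2 h3
  rw [ex_zero, sub_zero] at h4
  exact h4

/-- a group of elements acting isometrically -/
structure IsoG (Γ : Set A) : Prop where
  one : (1 : A) ∈ Γ
  mul : ∀ a ∈ Γ, ∀ b ∈ Γ, a * b ∈ Γ
  inv : ∀ a ∈ Γ, ∃ b ∈ Γ, a * b = 1 ∧ b * a = 1
  norm : ∀ a ∈ Γ, ∀ c, ‖c * a‖ = ‖c‖

theorem IsoG.pow {Γ : Set A} (h : IsoG Γ) {a : A} (ha : a ∈ Γ) (k : ℕ) : a ^ k ∈ Γ := by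
  induction k with
  | zero => rw [pow_zero]; exact h.one
  | succ k ih => rw [pow_succ]; exact h.mul _ ih _ ha

theorem IsoG.pow_sub {Γ : Set A} (h : IsoG Γ) {a : A} (ha : a ∈ Γ) (k : ℕ) : ‖a ^ k - 1‖ ≤ k * ‖a - 1‖ := by
  induction k with
  | zero => simp
  | succ k ih =>
    have h1 : a ^ (k + 1) - 1 = (a ^ k - 1) * a + (a - 1) := by
      rw [pow_succ]; noncomm_ring
    rw [h1]
    refine (norm_add_le _ _).trans ?_
    rw [h.norm a ha]
    push_cast
    linarith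

theorem IsoG.exp_sub {Γ : Set A} (h : IsoG Γ) {r M : ℝ} (hM : ∀ z : A, ‖z‖ ≤ r → ‖exp z‖ ≤ M) {g : A}
    (hg : g ∈ Γ) (k : ℕ) (hk : k * ‖g - 1‖ ≤ r) :
    ‖exp ((k : ℝ) • (g - 1)) - g ^ k‖ ≤ k * (M * ‖exp (g - 1) - g‖) := by
  induction k with
  | zero => simp [ex_zero]
  | succ k ih =>
    have hk' : k * ‖g - 1‖ ≤ r := by
      push_cast at hk
      have := norm_nonneg (g - 1)
      linarith
    have ih' := ih hk'
    have h1 : exp (((k + 1 : ℕ) : ℝ) • (g - 1)) = exp ((k : ℝ) • (g - 1)) * exp (g - 1) := by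
      rw [← ex_add ((Commute.refl (g - 1)).smul_left (k : ℝ))]
      congr 1
      push_cast
      rw [add_smul, one_smul]
    have h2 : exp ((k : ℝ) • (g - 1)) * exp (g - 1) - g ^ (k + 1) =
        exp ((k : ℝ) • (g - 1)) * (exp (g - 1) - g) + (exp ((k : ℝ) • (g - 1)) - g ^ k) * g := by
      rw [pow_succ]; noncomm_ring
    rw [h1, h2]
    refine (norm_add_le _ _).trans ?_
    rw [h.norm g hg]
    have h3 : ‖exp ((k : ℝ) • (g - 1)) * (exp (g - 1) - g)‖ ≤ M * ‖exp (g - 1) - g‖ := by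
      refine (norm_mul_le _ _).trans (mul_le_mul_of_nonneg_right (hM _ ?_) (norm_nonneg _))
      rw [norm_smul, Real.norm_of_nonneg (Nat.cast_nonneg k)]
      exact hk'
    push_cast
    linarith

/-- the small generators form a totally bounded set -/
theorem tb {Γ : Set A} {ρ : ℝ} (hρ : 0 < ρ) (hc : IsCompact (Γ ∩ closedBall 1 ρ)) :
    ∃ r > 0, TotallyBounded {X : A | ‖X‖ ≤ r ∧ ∀ t : ℝ, exp (t • X) ∈ Γ} := by
  obtain ⟨r0, hr0, h2⟩ := ex_two (A := A)
  set r := min r0 (ρ / 2) with hr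
  have hrpos : 0 < r := lt_min hr0 (by positivity)
  refine ⟨r, hrpos, ?_⟩
  set 𝒳 : Set A := {X : A | ‖X‖ ≤ r ∧ ∀ t : ℝ, exp (t • X) ∈ Γ} with h𝒳
  let f : 𝒳 → A := fun X => exp (X : A)
  have hX0 : ∀ X : 𝒳, ‖(X : A)‖ ≤ r0 := fun X => X.2.1.trans (min_le_left _ _)
  have hui : IsUniformInducing f := by
    have h3 : AntilipschitzWith 2 f := AntilipschitzWith.of_le_mul_dist fun x y => by
      rw [dist_eq_norm (f x) (f y)]
      have h4 := (h2 x y (hX0 x) (hX0 y)).1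
      have h5 : dist x y = ‖(x : A) - y‖ := by rw [Subtype.dist_eq, dist_eq_norm]
      rw [h5]; simpa using h4
    have h6 : LipschitzWith 2 f := LipschitzWith.of_dist_le_mul fun x y => by
      rw [dist_eq_norm (f x) (f y)]
      have h4 := (h2 x y (hX0 x) (hX0 y)).2
      have h5 : dist x y = ‖(x : A) - y‖ := by rw [Subtype.dist_eq, dist_eq_norm]
      rw [h5]; simpa using h4
    exact h3.isUniformInducing h6.uniformContinuous
  have htb : TotallyBounded (f ⁻¹' (Γ ∩ closedBall 1 ρ)) := totallyBounded_preimage hui hc.totallyBounded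
  have huniv : f ⁻¹' (Γ ∩ closedBall 1 ρ) = Set.univ := by
    rw [Set.eq_univ_iff_forall]
    intro X
    refine ⟨?_, ?_⟩
    · have := X.2.2 1
      rwa [one_smul] at this
    · rw [mem_closedBall, dist_eq_norm]
      have h4 := (h2 X 0 (hX0 X) (by rw [norm_zero]; exact hr0.le)).2
      rw [ex_zero, sub_zero] at h4
      have h5 : ‖(X : A)‖ ≤ ρ / 2 := X.2.1.trans (min_le_right _ _)
      show ‖exp (X : A) - 1‖ ≤ ρ
      linarith
  rw [huniv] at htb
  have h7 := htb.image (uniformContinuous_subtype_val (α := A) (p := fun X => X ∈ 𝒳))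
  rwa [Set.image_univ, Subtype.range_coe] at h7

theorem exp_mem_sub {D : Subalgebra ℝ A} (hD : IsClosed (D : Set A)) {X : A} (hX : X ∈ D) : exp X ∈ D := by
  haveI : CompleteSpace D := hD.completeSpace_coe
  letI : NormedAlgebra ℚ A := NormedAlgebra.restrictScalars ℚ ℝ A
  letI : NormedAlgebra ℚ D := NormedAlgebra.restrictScalars ℚ ℝ D
  have h1 : (D.val : D →ₐ[ℝ] A) (exp (⟨X, hX⟩ : D)) = exp ((D.val : D →ₐ[ℝ] A) ⟨X, hX⟩) :=
    map_exp (D.val.toRingHom) continuous_subtype_val _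
  have h2 : (D.val : D →ₐ[ℝ] A) ⟨X, hX⟩ = X := rfl
  rw [h2] at h1
  rw [← h1]
  exact (exp (⟨X, hX⟩ : D)).2

/-- the one-parameter subgroups fill a neighbourhood of one modulo a closed subalgebra -/
theorem cartan {Γ : Set A} (hΓ : IsoG Γ) {ρ : ℝ} (hρ : 0 < ρ) (hc : IsCompact (Γ ∩ closedBall 1 ρ))
    {D : Subalgebra ℝ A} (hD : IsClosed (D : Set A))
    (h2 : ∀ X : A, (∀ t : ℝ, exp (t • X) ∈ Γ) → X ∈ D) :
    ∃ δ > 0, ∀ n ∈ Γ, ‖n - 1‖ < δ → n ∈ D := by
  classical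
  by_contra hcon
  push Not at hcon
  obtain ⟨r0, hr0, htwo⟩ := ex_two (A := A)
  obtain ⟨r1, hr1, hlin1⟩ := ex_lin (A := A) (c := 1) one_pos
  set r := min (min r0 r1) ρ with hr
  have hrpos : 0 < r := lt_min (lt_min hr0 hr1) hρ
  have hrr0 : r ≤ r0 := (min_le_left _ _).trans (min_le_left _ _)
  have hrr1 : r ≤ r1 := (min_le_left _ _).trans (min_le_right _ _)
  have hrρ : r ≤ ρ := min_le_right _ _
  set M : ℝ := ‖(1 : A)‖ + 2 * r with hMdef
  have hM0 : 0 ≤ M := by positivity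
  have hM : ∀ z : A, ‖z‖ ≤ r → ‖exp z‖ ≤ M := by
    intro z hz
    have h1 := hlin1 z (hz.trans hrr1)
    have h3 : ‖exp z‖ ≤ ‖exp z - 1 - z‖ + (‖(1 : A)‖ + ‖z‖) := by
      calc ‖exp z‖ = ‖(exp z - 1 - z) + (1 + z)‖ := by congr 1; abel
        _ ≤ ‖exp z - 1 - z‖ + ‖(1 : A) + z‖ := norm_add_le _ _
        _ ≤ _ := add_le_add le_rfl (norm_add_le _ _)
    rw [hMdef]; linarith
  have hx : ∀ j : ℕ, ∃ n ∈ Γ, ‖n - 1‖ < 1 / ((j : ℝ) + 1) ∧ n ∉ D := fun j => hcon _ (by positivity)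
  choose n hnΓ hn1 hnD using hx
  -- nearest points
  have hMc : IsCompact ((Γ ∩ closedBall 1 ρ) ∩ (D : Set A)) := hc.inter_right hD
  have h1M : (1 : A) ∈ (Γ ∩ closedBall 1 ρ) ∩ (D : Set A) :=
    ⟨⟨hΓ.one, mem_closedBall_self hρ.le⟩, D.one_mem⟩
  have hmin : ∀ j, ∃ m ∈ (Γ ∩ closedBall 1 ρ) ∩ (D : Set A),
      ∀ m' ∈ (Γ ∩ closedBall 1 ρ) ∩ (D : Set A), ‖n j - m‖ ≤ ‖n j - m'‖ := by
    intro j
    obtain ⟨m, hm, hmin⟩ := hMc.exists_isMinOn ⟨1, h1M⟩
      (f := fun m => ‖n j - m‖) (Continuous.continuousOn (by fun_prop))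
    exact ⟨m, hm, fun m' hm' => isMinOn_iff.1 hmin m' hm'⟩
  choose m hmM hmmin using hmin
  have hmi : ∀ j, ∃ b ∈ Γ, m j * b = 1 ∧ b * m j = 1 := fun j => hΓ.inv _ (hmM j).1.1
  choose m' hm'Γ hmm' hm'm using hmi
  set g : ℕ → A := fun j => n j * m' j with hg
  have hgΓ : ∀ j, g j ∈ Γ := fun j => hΓ.mul _ (hnΓ j) _ (hm'Γ j)
  have hgm : ∀ j, g j * m j = n j := fun j => by rw [hg]; simp only; rw [mul_assoc, hm'm, mul_one]
  set ε : ℕ → ℝ := fun j => ‖g j - 1‖ with hεdef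
  have hε1 : ∀ j, ε j = ‖n j - m j‖ := by
    intro j
    have : (g j - 1) * m j = n j - m j := by rw [sub_mul, hgm, one_mul]
    rw [← this, hΓ.norm _ (hmM j).1.1]
  have hεpos : ∀ j, 0 < ε j := by
    intro j
    rw [hε1, norm_pos_iff, sub_ne_zero]
    intro h
    apply hnD j
    rw [h]; exact (hmM j).2
  have hεlt : ∀ j, ε j < 1 / ((j : ℝ) + 1) := by
    intro j
    rw [hε1]
    exact lt_of_le_of_lt (hmmin j 1 h1M) (hn1 j)
  have hε0 : Tendsto ε atTop (𝓝 0) :=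
    squeeze_zero (fun j => (hεpos j).le) (fun j => (hεlt j).le) tendsto_one_div_add_atTop_nhds_zero_nat
  set k : ℕ → ℕ := fun j => ⌊r / ε j⌋₊ with hkdef
  have hkle : ∀ j, k j * ε j ≤ r := by
    intro j
    have h1 : (k j : ℝ) ≤ r / ε j := Nat.floor_le (div_nonneg hrpos.le (hεpos j).le)
    rwa [le_div_iff₀ (hεpos j)] at h1
  have hkge : ∀ j, r - ε j ≤ k j * ε j := by
    intro j
    have h1 : r / ε j < k j + 1 := Nat.lt_floor_add_one _
    rw [div_lt_iff₀ (hεpos j)] at h1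
    linarith
  have hktop : Tendsto (fun j => (k j : ℝ)) atTop atTop := by
    have h1 : Tendsto (fun j => r / ε j) atTop atTop := by
      have h3 : Tendsto ε atTop (𝓝[>] 0) := tendsto_nhdsWithin_iff.2 ⟨hε0, Eventually.of_forall hεpos⟩
      exact (tendsto_inv_nhdsGT_zero.comp h3).const_mul_atTop hrpos
    have h4 : Tendsto (fun j => r / ε j - 1) atTop atTop := tendsto_atTop_add_const_right _ _ h1
    refine tendsto_atTop_mono (fun j => ?_) h4
    have : r / ε j < k j + 1 := Nat.lt_floor_add_one _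
    linarith
  set Y : ℕ → A := fun j => (k j : ℝ) • (g j - 1) with hYdef
  have hYn : ∀ j, ‖Y j‖ = k j * ε j := fun j => by
    rw [hYdef]; simp only; rw [norm_smul, Real.norm_of_nonneg (Nat.cast_nonneg _)]
  -- the error terms
  have herr : Tendsto (fun j => k j * (M * ‖exp (g j - 1) - g j‖)) atTop (𝓝 0) := by
    rw [Metric.tendsto_atTop]
    intro η hη
    obtain ⟨s, hs, hlin⟩ := ex_lin (A := A) (c := η / (2 * (r * (M + 1)))) (by positivity)
    rw [Metric.tendsto_atTop] at hε0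
    obtain ⟨J, hJ⟩ := hε0 s hs
    refine ⟨J, fun j hj => ?_⟩
    have h1 := hJ j hj
    rw [Real.dist_eq, sub_zero, abs_of_pos (hεpos j)] at h1
    have h3 := hlin (g j - 1) h1.le
    have h4 : exp (g j - 1) - 1 - (g j - 1) = exp (g j - 1) - g j := by abel
    rw [h4] at h3
    rw [Real.dist_eq, sub_zero, abs_of_nonneg (by positivity)]
    calc k j * (M * ‖exp (g j - 1) - g j‖) ≤ k j * (M * (η / (2 * (r * (M + 1))) * ε j)) := by
          apply mul_le_mul_of_nonneg_left _ (Nat.cast_nonneg _)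
          exact mul_le_mul_of_nonneg_left h3 hM0
      _ = (k j * ε j) * (M * (η / (2 * (r * (M + 1))))) := by ring
      _ ≤ r * (M * (η / (2 * (r * (M + 1))))) := mul_le_mul_of_nonneg_right (hkle j) (by positivity)
      _ = (η / 2) * (M / (M + 1)) := by field_simp
      _ ≤ (η / 2) * 1 := by
          apply mul_le_mul_of_nonneg_left _ (by positivity)
          rw [div_le_one (by positivity)]; linarith
      _ < η := by linarith
  -- powers stay in the compact set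
  have hpow : ∀ j, ∀ q ≤ k j, g j ^ q ∈ Γ ∩ closedBall 1 ρ := by
    intro j q hq
    refine ⟨hΓ.pow (hgΓ j) q, ?_⟩
    rw [mem_closedBall, dist_eq_norm]
    refine (hΓ.pow_sub (hgΓ j) q).trans ?_
    have h1 : (q : ℝ) * ε j ≤ k j * ε j := mul_le_mul_of_nonneg_right (by exact_mod_cast hq) (hεpos j).le
    exact h1.trans ((hkle j).trans hrρ)
  have hexpq : ∀ j, ∀ q ≤ k j, ‖exp ((q : ℝ) • (g j - 1)) - g j ^ q‖ ≤ k j * (M * ‖exp (g j - 1) - g j‖) := by
    intro j q hq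
    have hqk : (q : ℝ) ≤ k j := by exact_mod_cast hq
    have h1 : (q : ℝ) * ‖g j - 1‖ ≤ r :=
      (mul_le_mul_of_nonneg_right hqk (hεpos j).le).trans (hkle j)
    exact (hΓ.exp_sub hM (hgΓ j) q h1).trans (mul_le_mul_of_nonneg_right hqk (by positivity))
  obtain ⟨h, hh, φ, hφ, hlimφ⟩ := hc.tendsto_subseq (x := fun j => g j ^ k j) (fun j => hpow j _ le_rfl)
  have hφt := hφ.tendsto_atTop
  have hexpY : Tendsto (fun j => exp (Y (φ j))) atTop (𝓝 h) := by
    have h1 : Tendsto (fun j => exp (Y (φ j)) - g (φ j) ^ k (φ j)) atTop (𝓝 0) := by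
      rw [tendsto_zero_iff_norm_tendsto_zero]
      exact squeeze_zero (fun j => norm_nonneg _) (fun j => hexpq (φ j) _ le_rfl) (herr.comp hφt)
    have h3 := h1.add hlimφ
    rw [zero_add] at h3
    refine h3.congr fun j => ?_
    simp
  have hYr : ∀ j, ‖Y j‖ ≤ r0 := fun j => by rw [hYn]; exact (hkle j).trans hrr0
  have hcau : CauchySeq fun j => Y (φ j) := by
    have h1 := hexpY.cauchySeq
    rw [Metric.cauchySeq_iff] at h1 ⊢
    intro η hη
    obtain ⟨J, hJ⟩ := h1 (η / 2) (by positivity)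
    refine ⟨J, fun a ha b hb => ?_⟩
    have h3 := hJ a ha b hb
    rw [dist_eq_norm] at h3 ⊢
    have h4 := (htwo _ _ (hYr (φ a)) (hYr (φ b))).1
    linarith
  obtain ⟨X, hX⟩ := cauchySeq_tendsto_of_complete hcau
  -- exp (t X) is in Γ
  have hcl : IsClosed (Γ ∩ closedBall 1 ρ) := hc.isClosed
  have hkφ : Tendsto (fun j => (k (φ j) : ℝ)) atTop atTop := hktop.comp hφt
  have hsmall : ∀ t : ℝ, 0 ≤ t → t ≤ 1 → exp (t • X) ∈ Γ := by
    intro t ht0 ht1
    set q : ℕ → ℕ := fun j => ⌊t * k (φ j)⌋₊ with hq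
    have hqle : ∀ j, q j ≤ k (φ j) := by
      intro j
      have h1 : t * k (φ j) ≤ k (φ j) := mul_le_of_le_one_left (Nat.cast_nonneg _) ht1
      exact (Nat.floor_le_floor h1).trans (le_of_eq (Nat.floor_natCast _))
    have hqlim : Tendsto (fun j => (q j : ℝ) / k (φ j)) atTop (𝓝 t) :=
      (tendsto_nat_floor_mul_div_atTop ht0).comp hkφ
    have h1 : Tendsto (fun j => (q j : ℝ) • (g (φ j) - 1)) atTop (𝓝 (t • X)) := by
      have h3 := hqlim.smul hX
      refine h3.congr' ?_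
      filter_upwards [hkφ.eventually_gt_atTop 0] with j hj
      rw [hYdef]; simp only
      rw [smul_smul, div_mul_cancel₀ _ hj.ne']
    have h4 : Tendsto (fun j => exp ((q j : ℝ) • (g (φ j) - 1))) atTop (𝓝 (exp (t • X))) :=
      (ex_cont.tendsto _).comp h1
    have h5 : Tendsto (fun j => exp ((q j : ℝ) • (g (φ j) - 1)) - g (φ j) ^ q j) atTop (𝓝 0) := by
      rw [tendsto_zero_iff_norm_tendsto_zero]
      exact squeeze_zero (fun j => norm_nonneg _) (fun j => hexpq (φ j) _ (hqle j)) (herr.comp hφt)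
    have h6 : Tendsto (fun j => g (φ j) ^ q j) atTop (𝓝 (exp (t • X))) := by
      have h7 := h4.sub h5
      rw [sub_zero] at h7
      refine h7.congr fun j => ?_
      simp
    exact (hcl.mem_of_tendsto h6 (Eventually.of_forall fun j => hpow (φ j) _ (hqle j))).1
  have hpos : ∀ t : ℝ, 0 ≤ t → exp (t • X) ∈ Γ := by
    intro t ht
    obtain ⟨q, hq⟩ := exists_nat_gt t
    have hq0 : (0 : ℝ) < q := lt_of_le_of_lt ht hq
    have h1 := hsmall (t / q) (by positivity) (by rw [div_le_one hq0]; exact hq.le)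
    have h3 : exp (t • X) = exp ((t / q) • X) ^ q := by
      rw [← ex_nsmul, smul_smul, mul_div_cancel₀ _ hq0.ne']
    rw [h3]
    exact hΓ.pow h1 q
  have hall : ∀ t : ℝ, exp (t • X) ∈ Γ := by
    intro t
    rcases le_total 0 t with ht | ht
    · exact hpos t ht
    · obtain ⟨b, hb, hb1, hb2⟩ := hΓ.inv _ (hpos (-t) (by linarith))
      have h1 : exp (t • X) * exp ((-t) • X) = 1 := by
        rw [← ex_add (((Commute.refl X).smul_left t).smul_right (-t)), ← add_smul, add_neg_cancel, zero_smul,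
          ex_zero]
      have h3 : exp (t • X) = b := by
        calc exp (t • X) = exp (t • X) * (exp ((-t) • X) * b) := by rw [hb1, mul_one]
          _ = b := by rw [← mul_assoc, h1, one_mul]
      rw [h3]; exact hb
  have hXD : X ∈ D := h2 X hall
  -- the contradiction
  have hm1 : Tendsto (fun j => m (φ j)) atTop (𝓝 1) := by
    have h1 : Tendsto (fun j => ‖m j - 1‖) atTop (𝓝 0) := by
      have h3 : Tendsto (fun j : ℕ => 2 * (1 / ((j : ℝ) + 1))) atTop (𝓝 (2 * 0)) :=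
        tendsto_one_div_add_atTop_nhds_zero_nat.const_mul 2
      rw [mul_zero] at h3
      refine squeeze_zero (fun j => norm_nonneg _) (fun j => ?_) h3
      have h4 : ‖m j - 1‖ ≤ ‖n j - m j‖ + ‖n j - 1‖ := by
        calc ‖m j - 1‖ = ‖(n j - 1) - (n j - m j)‖ := by congr 1; abel
          _ ≤ ‖n j - 1‖ + ‖n j - m j‖ := norm_sub_le _ _
          _ = _ := add_comm _ _
      have h5 := hεlt j
      rw [hε1] at h5
      have h6 := hn1 j
      linarith
    have h7 : Tendsto m atTop (𝓝 1) := tendsto_iff_norm_sub_tendsto_zero.2 h1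
    exact h7.comp hφt
  have hki : Tendsto (fun j => (k (φ j) : ℝ)⁻¹) atTop (𝓝 0) := tendsto_inv_atTop_zero.comp hkφ
  have hsX : Tendsto (fun j => (k (φ j) : ℝ)⁻¹ • X) atTop (𝓝 0) := by
    have := hki.smul_const X
    rwa [zero_smul] at this
  have he1 : Tendsto (fun j => exp ((k (φ j) : ℝ)⁻¹ • X)) atTop (𝓝 1) := by
    have := (ex_cont.tendsto (0 : A)).comp hsX
    rw [ex_zero] at this
    exact this
  have hprod : Tendsto (fun j => exp ((k (φ j) : ℝ)⁻¹ • X) * m (φ j)) atTop (𝓝 1) := by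
    have := he1.mul hm1
    rwa [mul_one] at this
  have hball : ∀ᶠ j in atTop, exp ((k (φ j) : ℝ)⁻¹ • X) * m (φ j) ∈ closedBall (1 : A) ρ :=
    hprod.eventually (closedBall_mem_nhds _ hρ)
  have hfin : ∀ᶠ j in atTop, k (φ j) * ε (φ j) ≤ ‖Y (φ j) - X‖ +
      k (φ j) * ‖exp ((k (φ j) : ℝ)⁻¹ • X) - 1 - (k (φ j) : ℝ)⁻¹ • X‖ := by
    filter_upwards [hball, hkφ.eventually_gt_atTop 0] with j hj hkj
    have h1 : exp ((k (φ j) : ℝ)⁻¹ • X) * m (φ j) ∈ (Γ ∩ closedBall 1 ρ) ∩ (D : Set A) :=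
      ⟨⟨hΓ.mul _ (hall _) _ (hmM _).1.1, hj⟩,
        D.mul_mem (exp_mem_sub hD (D.smul_mem hXD _)) (hmM _).2⟩
    have h3 := hmmin (φ j) _ h1
    rw [← hε1] at h3
    have h4 : n (φ j) - exp ((k (φ j) : ℝ)⁻¹ • X) * m (φ j) =
        (g (φ j) - exp ((k (φ j) : ℝ)⁻¹ • X)) * m (φ j) := by rw [sub_mul, hgm]
    rw [h4, hΓ.norm _ (hmM _).1.1] at h3
    have h5 : g (φ j) - exp ((k (φ j) : ℝ)⁻¹ • X) = ((k (φ j) : ℝ)⁻¹) • (Y (φ j) - X) -
        (exp ((k (φ j) : ℝ)⁻¹ • X) - 1 - (k (φ j) : ℝ)⁻¹ • X) := by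
      rw [hYdef]; simp only
      rw [smul_sub, smul_smul, inv_mul_cancel₀ hkj.ne', one_smul]
      abel
    have h6 : ε (φ j) ≤ (k (φ j) : ℝ)⁻¹ * ‖Y (φ j) - X‖ +
        ‖exp ((k (φ j) : ℝ)⁻¹ • X) - 1 - (k (φ j) : ℝ)⁻¹ • X‖ := by
      refine h3.trans ?_
      rw [h5]
      refine (norm_sub_le _ _).trans (le_of_eq ?_)
      rw [norm_smul, Real.norm_of_nonneg (inv_nonneg.2 hkj.le)]
    calc k (φ j) * ε (φ j) ≤ k (φ j) * ((k (φ j) : ℝ)⁻¹ * ‖Y (φ j) - X‖ +
        ‖exp ((k (φ j) : ℝ)⁻¹ • X) - 1 - (k (φ j) : ℝ)⁻¹ • X‖) := mul_le_mul_of_nonneg_left h6 hkj.le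
      _ = _ := by rw [mul_add, ← mul_assoc, mul_inv_cancel₀ hkj.ne', one_mul]
  -- the right side tends to zero
  have hr1' : Tendsto (fun j => ‖Y (φ j) - X‖) atTop (𝓝 0) := tendsto_iff_norm_sub_tendsto_zero.1 hX
  have hr2 : Tendsto (fun j => k (φ j) * ‖exp ((k (φ j) : ℝ)⁻¹ • X) - 1 - (k (φ j) : ℝ)⁻¹ • X‖) atTop (𝓝 0) := by
    rw [Metric.tendsto_atTop]
    intro η hη
    obtain ⟨s, hs, hlin⟩ := ex_lin (A := A) (c := η / (2 * (‖X‖ + 1))) (by positivity)
    have h1 : ∀ᶠ j in atTop, ‖(k (φ j) : ℝ)⁻¹ • X‖ ≤ s := by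
      have h3 := tendsto_zero_iff_norm_tendsto_zero.1 hsX
      exact (h3.eventually (ge_mem_nhds hs))
    obtain ⟨J, hJ⟩ := eventually_atTop.1 (h1.and (hkφ.eventually_gt_atTop 0))
    refine ⟨J, fun j hj => ?_⟩
    obtain ⟨h3, h4⟩ := hJ j hj
    have h5 := hlin _ h3
    rw [norm_smul, Real.norm_of_nonneg (inv_nonneg.2 h4.le)] at h5
    rw [Real.dist_eq, sub_zero, abs_of_nonneg (by positivity)]
    calc k (φ j) * ‖exp ((k (φ j) : ℝ)⁻¹ • X) - 1 - (k (φ j) : ℝ)⁻¹ • X‖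
        ≤ k (φ j) * (η / (2 * (‖X‖ + 1)) * ((k (φ j) : ℝ)⁻¹ * ‖X‖)) := mul_le_mul_of_nonneg_left h5 h4.le
      _ = (η / 2) * (‖X‖ / (‖X‖ + 1)) := by
          field_simp
      _ ≤ (η / 2) * 1 := by
          apply mul_le_mul_of_nonneg_left _ (by positivity)
          rw [div_le_one (by positivity)]; linarith
      _ < η := by linarith
  have hsum := hr1'.add hr2
  rw [add_zero] at hsum
  have hleft : Tendsto (fun j => k (φ j) * ε (φ j)) atTop (𝓝 0) := by
    refine squeeze_zero' (Eventually.of_forall fun j => by have := (hεpos (φ j)).le; positivity) hfin hsum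
  have hlow : Tendsto (fun j => r - ε (φ j)) atTop (𝓝 (r - 0)) := (hε0.comp hφt).const_sub r
  have := le_of_tendsto_of_tendsto' hlow hleft (fun j => hkge (φ j))
  linarith

end

end Pool.Agent.TH596.RO
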