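import Pool.Agent.TH596.RO.Main
import Pool.Agent.TH596.RO.StepB
import Pool.Agent.TH596.RO.StepC

/-!
# Locally compact groups of isometries normalised by a transitive group
-/

set_option autoImplicit false
set_option linter.style.haveILetI false
set_option linter.unusedVariables false

namespace Pool.Agent.TH596.RO

open Topology TopologicalSpace Filter Metric NormedSpace
open Pool.Agent.W660.GY (IsGleason)

section
variable {E : Type} [NormedAddCommGroup E] [NormedSpace ℝ E]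

attribute [local instance] sot sot_group sot_t2

/-- an isometry as an operator -/
noncomputable def opp (T : E ≃ₗᵢ[ℝ] E) : E →L[ℝ] E := (T.toContinuousLinearEquiv : E →L[ℝ] E)

theorem opp_apply (T : E ≃ₗᵢ[ℝ] E) (x : E) : opp T x = T x := rfl

theorem opp_mul (S T : E ≃ₗᵢ[ℝ] E) : opp (S * T) = opp S * opp T := rfl

theorem opp_one : opp (1 : E ≃ₗᵢ[ℝ] E) = 1 := rfl

theorem opp_inv (T : E ≃ₗᵢ[ℝ] E) : opp T * opp T⁻¹ = 1 := by
  rw [← opp_mul, mul_inv_cancel, opp_one]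

theorem opp_inv' (T : E ≃ₗᵢ[ℝ] E) : opp T⁻¹ * opp T = 1 := by
  rw [← opp_mul, inv_mul_cancel, opp_one]

theorem norm_mul_opp_le (T : E ≃ₗᵢ[ℝ] E) (c : E →L[ℝ] E) : ‖c * opp T‖ ≤ ‖c‖ := by
  apply ContinuousLinearMap.opNorm_le_bound _ (norm_nonneg _)
  intro x
  refine (c.le_opNorm (T x)).trans (le_of_eq ?_)
  rw [T.norm_map]

theorem norm_mul_opp (T : E ≃ₗᵢ[ℝ] E) (c : E →L[ℝ] E) : ‖c * opp T‖ = ‖c‖ := by
  apply le_antisymm (norm_mul_opp_le T c)
  have h1 : c = (c * opp T) * opp T⁻¹ := by rw [mul_assoc, opp_inv, mul_one]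
  conv_lhs => rw [h1]
  exact norm_mul_opp_le _ _

theorem norm_opp_mul (T : E ≃ₗᵢ[ℝ] E) (c : E →L[ℝ] E) : ‖opp T * c‖ = ‖c‖ := by
  apply le_antisymm
  · apply ContinuousLinearMap.opNorm_le_bound _ (norm_nonneg _)
    intro x
    show ‖T (c x)‖ ≤ _
    rw [T.norm_map]
    exact c.le_opNorm x
  · apply ContinuousLinearMap.opNorm_le_bound _ (norm_nonneg _)
    intro x
    have h1 := (opp T * c).le_opNorm x
    have h2 : ‖(opp T * c) x‖ = ‖c x‖ := T.norm_map (c x)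
    rw [h2] at h1
    exact h1

theorem cj_opp (T S : E ≃ₗᵢ[ℝ] E) : cj T (opp S) = opp (T * S * T⁻¹) := rfl

theorem lc_normal [CompleteSpace E] [SeparableSpace E] (hE : ¬ FiniteDimensional ℝ E)
    {G N : Subgroup (E ≃ₗᵢ[ℝ] E)} (htr : ∀ x y : E, ‖x‖ = 1 → ‖y‖ = 1 → ∃ T ∈ G, T x = y)
    (hN : ∀ T ∈ G, ∀ S ∈ N, T * S * T⁻¹ ∈ N) [LocallyCompactSpace N] {S : E ≃ₗᵢ[ℝ] E} (hS : S ∈ N) :
    (S.toContinuousLinearEquiv : E →L[ℝ] E) ∈ DD G := by
  classical
  haveI : Nontrivial E := nontriv hE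
  haveI : SecondCountableTopology N := sot_sc N
  have hat : AT G := by
    intro x y hx hy ε hε
    obtain ⟨T, hT, hTx⟩ := htr x y hx hy
    exact ⟨T, hT, by rw [hTx, sub_self, norm_zero]; exact hε⟩
  obtain ⟨ν, hν⟩ := Pool.Agent.W660.GY.gy2 N (nss_lc htr hN)
  obtain ⟨C, δ, hC, hδ, hlip⟩ := norm_lip htr hN hν
  set f : N → (E →L[ℝ] E) := fun n => opp (n : E ≃ₗᵢ[ℝ] E) with hf
  have hsub : ∀ a b : N, ‖f a - f b‖ = ‖f (b⁻¹ * a) - 1‖ := by
    intro a b
    have h1 : f a - f b = opp (b : E ≃ₗᵢ[ℝ] E) * (f (b⁻¹ * a) - 1) := by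
      rw [mul_sub, mul_one]
      congr 1
      show opp (a : E ≃ₗᵢ[ℝ] E) = opp (b : E ≃ₗᵢ[ℝ] E) * opp ((b : E ≃ₗᵢ[ℝ] E)⁻¹ * (a : E ≃ₗᵢ[ℝ] E))
      rw [← opp_mul, mul_inv_cancel_left]
    rw [h1, norm_opp_mul]
  have hf1 : ∀ a : N, ν a < δ → ‖f a - 1‖ ≤ C * ν a := by
    intro a ha
    apply ContinuousLinearMap.opNorm_le_bound _ (mul_nonneg hC (nu_nonneg hν a))
    intro x
    exact hlip a ha x
  have hfc : Continuous f := by
    rw [continuous_iff_continuousAt]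
    intro b
    rw [Metric.continuousAt_iff']
    intro ε hε
    have h1 : {a : N | ν (b⁻¹ * a) < min δ (ε / (C + 1))} ∈ 𝓝 b := by
      have h2 : {g : N | ν g < min δ (ε / (C + 1))} ∈ 𝓝 (b⁻¹ * b) := by
        rw [inv_mul_cancel]; exact hν.basis.mem_of_mem (lt_min hδ (by positivity))
      exact (continuous_const_mul b⁻¹).continuousAt.preimage_mem_nhds h2
    filter_upwards [h1] with a ha
    rw [dist_eq_norm, hsub]
    have h2 : ν (b⁻¹ * a) < δ := lt_of_lt_of_le ha (min_le_left _ _)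
    have h3 : ν (b⁻¹ * a) < ε / (C + 1) := lt_of_lt_of_le ha (min_le_right _ _)
    rw [lt_div_iff₀ (by positivity)] at h3
    have h4 := hf1 _ h2
    have h5 := nu_nonneg hν (b⁻¹ * a)
    nlinarith
  -- compactness
  obtain ⟨r0, hr0, hcpt⟩ := nu_compact hν
  obtain ⟨ρ, hρ, hρν⟩ : ∃ ρ > 0, ∀ n : N, ‖f n - 1‖ ≤ ρ → ν n ≤ r0 := by
    by_contra hcon
    push Not at hcon
    have h1 : ∀ j : ℕ, ∃ n : N, ‖f n - 1‖ ≤ 1 / ((j : ℝ) + 1) ∧ r0 < ν n := fun j => hcon _ (by positivity)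
    choose n hn1 hn2 using h1
    have h2 : Tendsto n atTop (𝓝 1) := by
      rw [nhds_induced, tendsto_comap_iff, tendsto_pi_nhds]
      intro x
      rw [tendsto_iff_norm_sub_tendsto_zero]
      have h3 : Tendsto (fun j : ℕ => 1 / ((j : ℝ) + 1) * ‖x‖) atTop (𝓝 (0 * ‖x‖)) :=
        tendsto_one_div_add_atTop_nhds_zero_nat.mul_const _
      rw [zero_mul] at h3
      refine squeeze_zero (fun j => norm_nonneg _) (fun j => ?_) h3
      have h4 := (f (n j) - 1).le_opNorm x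
      exact h4.trans (mul_le_mul_of_nonneg_right (hn1 j) (norm_nonneg x))
    have h3 := ((nu_cont hν).tendsto 1).comp h2
    rw [hν.one] at h3
    have := ge_of_tendsto h3 (Eventually.of_forall fun j => (hn2 j).le)
    linarith
  set Γ : Set (E →L[ℝ] E) := Set.range f with hΓdef
  have hΓ : IsoG Γ :=
    { one := ⟨1, rfl⟩
      mul := by
        rintro _ ⟨a, rfl⟩ _ ⟨b, rfl⟩
        exact ⟨a * b, rfl⟩
      inv := by
        rintro _ ⟨a, rfl⟩
        exact ⟨_, ⟨a⁻¹, rfl⟩, opp_inv _, opp_inv' _⟩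
      norm := by
        rintro _ ⟨a, rfl⟩ c
        exact norm_mul_opp _ c }
  have hc : IsCompact (Γ ∩ closedBall 1 ρ) := by
    have h1 : IsCompact ({n : N | ν n ≤ r0} ∩ {n : N | ‖f n - 1‖ ≤ ρ}) :=
      (hcpt r0 le_rfl).inter_right (isClosed_le ((hfc.sub continuous_const).norm) continuous_const)
    have h2 : Γ ∩ closedBall 1 ρ = f '' ({n : N | ν n ≤ r0} ∩ {n : N | ‖f n - 1‖ ≤ ρ}) := by
      ext a
      constructor
      · rintro ⟨⟨n, rfl⟩, hn⟩
        rw [mem_closedBall, dist_eq_norm] at hn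
        exact ⟨n, ⟨hρν n hn, hn⟩, rfl⟩
      · rintro ⟨n, ⟨_, hn⟩, rfl⟩
        refine ⟨⟨n, rfl⟩, ?_⟩
        rw [mem_closedBall, dist_eq_norm]
        exact hn
    rw [h2]
    exact h1.image hfc
  -- the algebra
  have hfd : FiniteDimensional ℝ (DD G) := tri_fd (core_DD hE hat).1
  have hDcl : IsClosed ((DD G : Subalgebra ℝ (E →L[ℝ] E)) : Set (E →L[ℝ] E)) := by
    haveI : FiniteDimensional ℝ (Subalgebra.toSubmodule (DD G)) := hfd
    exact Submodule.closed_of_finiteDimensional (Subalgebra.toSubmodule (DD G))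
  have hgen : ∀ X : E →L[ℝ] E, (∀ t : ℝ, exp (t • X) ∈ Γ) → X ∈ DD G := by
    intro X hX
    obtain ⟨r, hr, htb⟩ := tb hρ hc
    set c : ℝ := r / (‖X‖ + 1) with hcdef
    have hc0 : 0 < c := by positivity
    have hcX : c • X ∈ DD G := by
      apply ap_op hE hat
      refine TotallyBounded.subset ?_ htb
      rintro _ ⟨T, hT, rfl⟩
      refine ⟨?_, fun t => ?_⟩
      · rw [norm_cj, norm_smul, Real.norm_of_nonneg hc0.le, hcdef, div_mul_eq_mul_div,
          div_le_iff₀ (by positivity)]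
        nlinarith [norm_nonneg X]
      · letI : NormedAlgebra ℚ (E →L[ℝ] E) := NormedAlgebra.restrictScalars ℚ ℝ (E →L[ℝ] E)
        have h1 : t • cj T (c • X) = cj T ((t * c) • X) := by
          rw [map_smul, map_smul, smul_smul]
        have h2 : (cj T).toRingHom (exp ((t * c) • X)) = exp ((cj T).toRingHom ((t * c) • X)) :=
          map_exp (cj T).toRingHom (cjL T).continuous _
        have h3 : exp (t • cj T (c • X)) = cj T (exp ((t * c) • X)) := by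
          rw [h1]; exact h2.symm
        rw [h3]
        obtain ⟨n, hn⟩ := hX (t * c)
        rw [← hn]
        exact ⟨⟨T * n * T⁻¹, hN T hT n n.2⟩, rfl⟩
    have h4 : X = c⁻¹ • (c • X) := by rw [smul_smul, inv_mul_cancel₀ hc0.ne', one_smul]
    rw [h4]
    exact (DD G).smul_mem hcX _
  obtain ⟨δ2, hδ2, hnear⟩ := cartan hΓ hρ hc hDcl hgen
  -- countably many cosets
  have hU : ∀ a : N, {n : N | ‖f n - f a‖ < δ2} ∈ 𝓝 a := by
    intro a
    apply IsOpen.mem_nhds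
    · exact isOpen_lt ((hfc.sub continuous_const).norm) continuous_const
    · show ‖f a - f a‖ < δ2
      rw [sub_self, norm_zero]; exact hδ2
  obtain ⟨s, hs, hcov⟩ := TopologicalSpace.countable_cover_nhds hU
  have hsne : s.Nonempty := by
    by_contra hcon
    rw [Set.not_nonempty_iff_eq_empty] at hcon
    rw [hcon] at hcov
    simp at hcov
    exact (Set.univ_nonempty (α := N)).ne_empty hcov.symm
  obtain ⟨c, rfl⟩ := hs.exists_eq_range hsne
  have hSfam : opp S ∈ Al (fam G) (fam_ne G) (fam_inf G) := by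
    rw [mem_Al_fam]
    refine ⟨Module.finrank ℝ (Subalgebra.toSubmodule (DD G)),
      fun i => (Subalgebra.toSubmodule (DD G)).map (LinearMap.mulLeft ℝ (f (c i))), fun i => ?_, fun T hT => ?_⟩
    · haveI : FiniteDimensional ℝ (Subalgebra.toSubmodule (DD G)) := hfd
      exact ⟨inferInstance, Submodule.finrank_map_le _ _⟩
    · rw [cj_opp]
      set n' : N := ⟨T * S * T⁻¹, hN T hT S hS⟩ with hn'
      have h1 : n' ∈ (⋃ x ∈ Set.range c, {n : N | ‖f n - f x‖ < δ2}) := by rw [hcov]; trivial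
      obtain ⟨x, ⟨i, rfl⟩, hi⟩ := Set.mem_iUnion₂.1 h1
      have hi' : ‖f n' - f (c i)‖ < δ2 := hi
      rw [hsub] at hi'
      have h2 : f ((c i)⁻¹ * n') ∈ DD G := hnear _ ⟨_, rfl⟩ hi'
      refine ⟨i, ⟨f ((c i)⁻¹ * n'), h2, ?_⟩⟩
      show f (c i) * f ((c i)⁻¹ * n') = f n'
      show opp ((c i : N) : E ≃ₗᵢ[ℝ] E) * opp (((c i)⁻¹ * n' : N) : E ≃ₗᵢ[ℝ] E) = opp (n' : E ≃ₗᵢ[ℝ] E)
      rw [← opp_mul]
      congr 1
      show (c i : E ≃ₗᵢ[ℝ] E) * ((c i : E ≃ₗᵢ[ℝ] E)⁻¹ * (n' : E ≃ₗᵢ[ℝ] E)) = n'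
      rw [mul_inv_cancel_left]
  exact fam_le_DD hE htr hSfam

end

end Pool.Agent.TH596.RO
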