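import Pool.Agent.H590R3.AbMain

/-!
# Local form of the commuting-conjugates argument
-/

set_option autoImplicit false
set_option linter.unusedVariables false

namespace Pool.Agent.TH596.RO.LA

open Pool.H590R3.Ab
open scoped BigOperators

variable {E : Type*} [NormedAddCommGroup E] [NormedSpace ℝ E]

/-- Core lemma, local form: an operator commuting with its conjugates near `1` and killing a nonzero
vector has square zero (adapted from `H590R3/AbCore`). -/
theorem core_loc [CompleteSpace E] [TopologicalSpace.SeparableSpace E]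
    (G : Subgroup (E ≃ₗᵢ[ℝ] E))
    (htr : ∀ x y : E, ‖x‖ = 1 → ‖y‖ = 1 → ∃ T ∈ G, T x = y)
    (a : E →L[ℝ] E) {ι : Type} [Finite ι] (f : ι → E) {r0 : ℝ} (hr0 : 0 < r0)
    (hc : ∀ T ∈ G, (∀ i, ‖T (f i) - f i‖ ≤ r0) → ∀ (z : E), T (a (T.symm (a z))) = a (T (a (T.symm z))))
    (x0 : E) (hx0 : x0 ≠ 0) (hax0 : a x0 = 0) (w : E) : a (a w) = 0 := by
  -- normalise
  obtain ⟨x, hx, hax⟩ : ∃ x : E, ‖x‖ = 1 ∧ a x = 0 := by
    refine ⟨‖x0‖⁻¹ • x0, ?_, ?_⟩
    · rw [norm_smul, norm_inv, norm_norm, inv_mul_cancel₀ (norm_ne_zero_iff.2 hx0)]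
    · rw [map_smul, hax0, smul_zero]
  have key : ∀ κ : ℝ, 0 < κ → ‖a (a w)‖ ≤ (‖a‖ ^ 2 + ‖a‖ * (‖a‖ + 1)) * κ := by
    intro κ hκ
    obtain ⟨t, ht, H⟩ := near_open_sub G htr (Sum.elim (![w, a w] : Fin 2 → E) f) x hx (lt_min hκ hr0)
    set ε : ℝ := min t 1 / (2 * (‖w‖ + 1)) with hε
    have hw : 0 ≤ ‖w‖ := norm_nonneg w
    have hmin : 0 < min t 1 := lt_min ht one_pos
    have hεpos : 0 < ε := by positivity
    have hεw : ε * ‖w‖ ≤ min t 1 / 2 := by
      rw [hε, div_mul_eq_mul_div, div_le_div_iff₀ (by positivity) (by norm_num)]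
      nlinarith
    set y : E := x + ε • w with hy
    have hyx : ‖y - x‖ = ε * ‖w‖ := by
      rw [hy, add_sub_cancel_left, norm_smul, Real.norm_of_nonneg hεpos.le]
    have hy1 : |‖y‖ - 1| ≤ ε * ‖w‖ := by
      rw [← hx, ← hyx]
      exact abs_norm_sub_norm_le y x
    have hm1 : min t 1 ≤ 1 := min_le_right _ _
    have hmt : min t 1 ≤ t := min_le_left _ _
    have hypos : 0 < ‖y‖ := by
      have := (abs_le.1 hy1).1
      linarith
    set v : E := ‖y‖⁻¹ • y with hv
    have hv1 : ‖v‖ = 1 := by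
      rw [hv, norm_smul, norm_inv, norm_norm, inv_mul_cancel₀ hypos.ne']
    have hvy : y = ‖y‖ • v := by
      rw [hv, smul_smul, mul_inv_cancel₀ hypos.ne', one_smul]
    have hvx : ‖v - x‖ ≤ t := by
      have h1 : ‖v - y‖ = |‖y‖ - 1| := by
        have h2 : v - y = (1 - ‖y‖) • v := by
          rw [sub_smul, one_smul, ← hvy]
        rw [h2, norm_smul, hv1, mul_one, Real.norm_eq_abs, abs_sub_comm]
      calc ‖v - x‖ = ‖(v - y) + (y - x)‖ := by rw [sub_add_sub_cancel]
        _ ≤ ‖v - y‖ + ‖y - x‖ := norm_add_le _ _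
        _ ≤ ε * ‖w‖ + ε * ‖w‖ := by rw [h1, hyx]; linarith
        _ ≤ t := by linarith
    obtain ⟨T, hTG, hT1, hT2⟩ := H v hv1 hvx (ε * κ / ‖y‖) (by positivity)
    have hTw : ‖T w - w‖ ≤ κ := (hT2 (Sum.inl 0)).trans (min_le_left _ _)
    have hTaw : ‖T (a w) - a w‖ ≤ κ := (hT2 (Sum.inl 1)).trans (min_le_left _ _)
    have hTf : ∀ i, ‖T (f i) - f i‖ ≤ r0 := fun i => (hT2 (Sum.inr i)).trans (min_le_right _ _)
    have hna : 0 ≤ ‖a‖ := norm_nonneg a
    -- b = T a T⁻¹
    have hbTx : T (a (T.symm (T x))) = 0 := by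
      rw [T.symm_apply_apply, hax, map_zero]
    have hbv : ‖T (a (T.symm v))‖ ≤ ‖a‖ * (ε * κ / ‖y‖) := by
      have h1 : T (a (T.symm v)) = T (a (T.symm (v - T x))) := by
        rw [map_sub, map_sub, map_sub, hbTx, sub_zero]
      rw [h1, T.norm_map]
      refine (a.le_opNorm _).trans ?_
      rw [T.symm.norm_map, norm_sub_rev]
      exact mul_le_mul_of_nonneg_left hT1 hna
    have hby : ‖T (a (T.symm y))‖ ≤ ‖a‖ * (ε * κ) := by
      rw [hvy, map_smul, map_smul, map_smul, norm_smul, norm_norm]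
      calc ‖y‖ * ‖T (a (T.symm v))‖ ≤ ‖y‖ * (‖a‖ * (ε * κ / ‖y‖)) :=
            mul_le_mul_of_nonneg_left hbv hypos.le
        _ = ‖a‖ * (ε * κ) := by field_simp
    have hab : a (T (a (T.symm y))) = ε • a (T (a (T.symm w))) := by
      rw [hy, map_add, map_add, map_add, map_add, map_smul, map_smul, map_smul, map_smul,
        ← hc T hTG hTf x, hax, map_zero, map_zero, map_zero, zero_add]
    have h3 : ‖a (T (a (T.symm w)))‖ ≤ ‖a‖ ^ 2 * κ := by
      have h4 : ε * ‖a (T (a (T.symm w)))‖ ≤ ‖a‖ * (‖a‖ * (ε * κ)) := by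
        have h5 : ‖ε • a (T (a (T.symm w)))‖ ≤ ‖a‖ * (‖a‖ * (ε * κ)) := by
          rw [← hab]
          exact (a.le_opNorm _).trans (mul_le_mul_of_nonneg_left hby hna)
        rwa [norm_smul, Real.norm_of_nonneg hεpos.le] at h5
      have h6 : ‖a‖ * (‖a‖ * (ε * κ)) = ε * (‖a‖ ^ 2 * κ) := by ring
      rw [h6] at h4
      exact le_of_mul_le_mul_left h4 hεpos
    have h7 : ‖T (a (T.symm w)) - a w‖ ≤ (‖a‖ + 1) * κ := by
      have h8 : T (a (T.symm w)) - a w = T (a (T.symm w - w)) + (T (a w) - a w) := by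
        rw [map_sub, map_sub]; abel
      rw [h8]
      refine (norm_add_le _ _).trans ?_
      rw [T.norm_map]
      have h9 : ‖a (T.symm w - w)‖ ≤ ‖a‖ * κ := by
        refine (a.le_opNorm _).trans (mul_le_mul_of_nonneg_left ?_ hna)
        have h10 : T.symm w - w = T.symm (w - T w) := by
          rw [map_sub, T.symm_apply_apply]
        rw [h10, T.symm.norm_map, norm_sub_rev]
        exact hTw
      nlinarith
    have h11 : a (a w) = a (T (a (T.symm w))) - a (T (a (T.symm w)) - a w) := by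
      rw [map_sub]; abel
    rw [h11]
    refine (norm_sub_le _ _).trans ?_
    have h12 : ‖a (T (a (T.symm w)) - a w)‖ ≤ ‖a‖ * ((‖a‖ + 1) * κ) :=
      (a.le_opNorm _).trans (mul_le_mul_of_nonneg_left h7 hna)
    nlinarith
  by_contra hne
  have hr : 0 < ‖a (a w)‖ := norm_pos_iff.2 hne
  set r := ‖a (a w)‖ with hrdef
  set C : ℝ := ‖a‖ ^ 2 + ‖a‖ * (‖a‖ + 1) with hC
  have hC0 : 0 ≤ C := by positivity
  have h1 := key (r / (2 * (C + 1))) (by positivity)
  have h2 : C * (r / (2 * (C + 1))) < r := by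
    rw [mul_div_assoc', div_lt_iff₀ (by positivity)]
    nlinarith
  linarith

/-- operator form of the core lemma -/
theorem core_op_loc [CompleteSpace E] [TopologicalSpace.SeparableSpace E]
    (G : Subgroup (E ≃ₗᵢ[ℝ] E))
    (htr : ∀ x y : E, ‖x‖ = 1 → ‖y‖ = 1 → ∃ T ∈ G, T x = y)
    (a b : E →L[ℝ] E) {ι : Type} [Finite ι] (f : ι → E) {r0 : ℝ} (hr0 : 0 < r0)
    (hc : ∀ T ∈ G, (∀ i, ‖T (f i) - f i‖ ≤ r0) → (op T * a * op T⁻¹) * a = a * (op T * a * op T⁻¹))
    (hab : a * b = 0) (hb : b ≠ 0) : a * a = 0 := by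
  obtain ⟨y, hy⟩ : ∃ y, b y ≠ 0 := by
    by_contra h
    push Not at h
    exact hb (ContinuousLinearMap.ext h)
  ext w
  refine core_loc G htr a f hr0 (fun T hT hTf z => ?_) (b y) hy ?_ w
  · have := DFunLike.congr_fun (hc T hT hTf) z
    exact this
  · exact DFunLike.congr_fun hab y

/-- The quadratic equation: an isometry commuting with its conjugates. -/
theorem quad_loc [CompleteSpace E] [TopologicalSpace.SeparableSpace E] [Nontrivial E]
    (hP : Parti_stmt) (G : Subgroup (E ≃ₗᵢ[ℝ] E))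
    (htr : ∀ x y : E, ‖x‖ = 1 → ‖y‖ = 1 → ∃ T ∈ G, T x = y)
    (n : E ≃ₗᵢ[ℝ] E) {ι : Type} [Finite ι] (f : ι → E) {r0 : ℝ} (hr0 : 0 < r0)
    (hn : ∀ T ∈ G, (∀ i, ‖T (f i) - f i‖ ≤ r0) → (T * n * T⁻¹) * n = n * (T * n * T⁻¹)) :
    ∃ c : ℝ, Co n = c • (1 : E →L[ℝ] E) := by
  have happ : ∀ ε : ℝ, 0 < ε → ∃ c : ℝ, ‖Co n - c • (1 : E →L[ℝ] E)‖ ≤ 3 * ε := by
    intro ε hε
    obtain ⟨M, a, c, hs, h1, h0, hl⟩ := hP ε hε
    set H : ℕ → (E →L[ℝ] E) := fun j => Fop n (a j) with hH
    have hsum : ∑ j ∈ Finset.range (M + 1), H j = 1 := by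
      rw [hH, Fop_sum n hs]
      have : (fun k => ∑ j ∈ Finset.range (M + 1), a j k) = fun k : ℤ => if k = 0 then (1:ℝ) else 0 :=
        funext h1
      rw [this, Fop_delta]
    have hzero : ∀ i j, i + 2 ≤ j → H i * H j = 0 := fun i j hij =>
      Fop_mul_eq_zero n (hs i) (hs j) (h0 i j hij)
    have hcomm : ∀ i j, H i * H j = H j * H i := fun i j => Fop_comm n (hs i) (hs j)
    have hone : (1 : E →L[ℝ] E) ≠ 0 := one_ne_zero
    have hex : ∃ j, H j ≠ 0 := by
      by_contra h
      push Not at h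
      rw [Finset.sum_eq_zero (fun j _ => h j)] at hsum
      exact hone hsum.symm
    classical
    obtain ⟨j0, hj0, hmin⟩ : ∃ j0, H j0 ≠ 0 ∧ ∀ i, i < j0 → H i = 0 :=
      ⟨Nat.find hex, Nat.find_spec hex, fun i hi => by
        have := Nat.find_min hex hi
        push Not at this
        exact this⟩
    -- E = H j0 + H (j0+1)
    have hsE : Summable fun k => |a j0 k + a (j0 + 1) k| :=
      Summable.of_nonneg_of_le (fun _ => abs_nonneg _) (fun k => abs_add_le _ _)
        ((hs j0).add (hs (j0 + 1)))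
    have hE : H j0 + H (j0 + 1) = Fop n (fun k => a j0 k + a (j0 + 1) k) := by
      have := Fop_lin n (hs j0) (hs (j0 + 1)) 1 1
      simpa using this
    have hlate : ∀ j, j0 + 3 ≤ j → j ≤ M → H j = 0 := by
      intro j hj hjM
      by_contra hne
      have hHE : H j0 * (H j0 + H (j0 + 1)) = H j0 := by
        have e1 : H j0 * ∑ j ∈ Finset.range (M + 1), H j = H j0 := by rw [hsum, mul_one]
        rw [Finset.mul_sum, ← Finset.sum_subset (s₁ := {j0, j0 + 1})] at e1
        · rw [Finset.sum_pair (by omega)] at e1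
          rw [mul_add]
          exact e1
        · intro i hi
          simp only [Finset.mem_insert, Finset.mem_singleton] at hi
          rw [Finset.mem_range]
          omega
        · intro i _ hi
          simp only [Finset.mem_insert, Finset.mem_singleton, not_or] at hi
          rcases lt_or_gt_of_ne hi.1 with h | h
          · rw [hmin i h, mul_zero]
          · exact hzero _ _ (by omega)
      have hEj : (H j0 + H (j0 + 1)) * H j = 0 := by
        rw [add_mul, hzero _ _ (by omega), hzero _ _ (by omega), add_zero]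
      have hEE : (H j0 + H (j0 + 1)) * (H j0 + H (j0 + 1)) = 0 := by
        refine core_op_loc G htr _ (H j) f hr0 (fun T hT hTf => ?_) hEj hne
        rw [hE]
        exact Fop_good n T (hn T hT hTf) hsE hsE
      have : H j0 = 0 := by
        calc H j0 = H j0 * (H j0 + H (j0 + 1)) := hHE.symm
          _ = (H j0 * (H j0 + H (j0 + 1))) * (H j0 + H (j0 + 1)) := by rw [hHE, hHE]
          _ = H j0 * ((H j0 + H (j0 + 1)) * (H j0 + H (j0 + 1))) := mul_assoc _ _ _
          _ = 0 := by rw [hEE, mul_zero]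
      exact hj0 this
    refine ⟨c j0, ?_⟩
    have e2 : Co n - c j0 • (1 : E →L[ℝ] E)
        = ∑ j ∈ Finset.range (M + 1), (Co n - c j0 • (1 : E →L[ℝ] E)) * H j := by
      rw [← Finset.mul_sum, hsum, mul_one]
    rw [e2]
    refine (norm_sum_le _ _).trans ?_
    have e3 : ∀ j ∈ Finset.range (M + 1), ‖(Co n - c j0 • (1 : E →L[ℝ] E)) * H j‖
        ≤ if j ∈ Finset.Icc j0 (j0 + 2) then ε else 0 := by
      intro j hj
      rw [Finset.mem_range] at hj
      by_cases hj1 : j < j0
      · rw [hmin j hj1, mul_zero, norm_zero]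
        split_ifs
        · exact hε.le
        · exact le_refl _
      · by_cases hj2 : j ≤ j0 + 2
        · rw [if_pos (Finset.mem_Icc.2 ⟨by omega, hj2⟩)]
          rw [hH, Co_mul_Fop n (hs j)]
          refine (Fop_norm_le n ?_).trans (hl j0 j (by omega) hj2)
          have s1 : Summable fun k : ℤ => |a j (k - 1)| := summable_shift (hs j) (-1)
          have s2 : Summable fun k : ℤ => |a j (k + 1)| := summable_shift (hs j) 1
          refine Summable.of_nonneg_of_le (fun _ => abs_nonneg _) (fun k => ?_)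
            (((s1.mul_left (1/2)).add (s2.mul_left (1/2))).add ((hs j).mul_left |c j0|))
          have h3 : (a j (k - 1) + a j (k + 1)) / 2 - c j0 * a j k
              = 1 / 2 * a j (k - 1) + 1 / 2 * a j (k + 1) + - (c j0 * a j k) := by ring
          rw [h3]
          refine (abs_add_le _ _).trans ?_
          rw [abs_neg, abs_mul (c j0)]
          have h4 := abs_add_le (1 / 2 * a j (k - 1)) (1 / 2 * a j (k + 1))
          rw [abs_mul, abs_mul, abs_of_pos (by norm_num : (0:ℝ) < 1/2)] at h4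
          linarith
        · rw [hlate j (by omega) (by omega), mul_zero, norm_zero]
          split_ifs
          · exact hε.le
          · exact le_refl _
    refine (Finset.sum_le_sum e3).trans ?_
    rw [← Finset.sum_filter]
    have e4 : (Finset.filter (fun j => j ∈ Finset.Icc j0 (j0 + 2)) (Finset.range (M + 1)))
        ⊆ Finset.Icc j0 (j0 + 2) := fun j hj => (Finset.mem_filter.1 hj).2
    refine (Finset.sum_le_sum_of_subset_of_nonneg e4 (fun _ _ _ => hε.le)).trans ?_
    rw [Finset.sum_const, Nat.card_Icc]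
    have : j0 + 2 + 1 - j0 = 3 := by omega
    rw [this]
    simp
  -- closedness of the line
  have hcl : IsClosed ((Submodule.span ℝ {(1 : E →L[ℝ] E)} : Submodule ℝ (E →L[ℝ] E)) :
      Set (E →L[ℝ] E)) := Submodule.closed_of_finiteDimensional _
  have hmem : Co n ∈ ((Submodule.span ℝ {(1 : E →L[ℝ] E)} : Submodule ℝ (E →L[ℝ] E)) :
      Set (E →L[ℝ] E)) := by
    rw [← hcl.closure_eq, Metric.mem_closure_iff]
    intro r hr
    obtain ⟨c, hc⟩ := happ (r / 4) (by positivity)
    refine ⟨c • 1, Submodule.smul_mem _ _ (Submodule.mem_span_singleton_self _), ?_⟩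
    rw [dist_eq_norm]
    linarith
  obtain ⟨c, hc⟩ := Submodule.mem_span_singleton.1 hmem
  exact ⟨c, hc.symm⟩

end Pool.Agent.TH596.RO.LA
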