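import Pool.Agent.TH596.RO.LaA
import Pool.Agent.H590R3.AbParti

/-!
# The complex structure of an isometry which commutes with its conjugates near `1`
-/

set_option autoImplicit false
set_option linter.unusedVariables false

namespace Pool.Agent.TH596.RO.LA

open Pool.H590R3.Ab

variable {E : Type*} [NormedAddCommGroup E] [NormedSpace ℝ E]

theorem comm_conj {n S T : E ≃ₗᵢ[ℝ] E}
    (h : ((T⁻¹ * S) * n * (T⁻¹ * S)⁻¹) * n = n * ((T⁻¹ * S) * n * (T⁻¹ * S)⁻¹)) :
    op (S * n * S⁻¹) * op (T * n * T⁻¹) = op (T * n * T⁻¹) * op (S * n * S⁻¹) := by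
  rw [← op_mul, ← op_mul]
  congr 1
  have e1 : (S * n * S⁻¹) * (T * n * T⁻¹) =
      T * (((T⁻¹ * S) * n * (T⁻¹ * S)⁻¹) * n) * T⁻¹ := by group
  have e2 : (T * n * T⁻¹) * (S * n * S⁻¹) =
      T * (n * ((T⁻¹ * S) * n * (T⁻¹ * S)⁻¹)) * T⁻¹ := by group
  rw [e1, e2, h]

theorem Jop_conj (n T : E ≃ₗᵢ[ℝ] E) (c : ℝ) :
    Jop (T * n * T⁻¹) c = op T * Jop n c * op T⁻¹ := by
  unfold Jop
  rw [mul_smul_comm, smul_mul_assoc, mul_sub, sub_mul, mul_smul_comm, mul_one,
    smul_mul_assoc, op_mul_inv, op_mul, op_mul]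

theorem Co_conj {n T : E ≃ₗᵢ[ℝ] E} {c : ℝ} (h : Co n = c • (1 : E →L[ℝ] E)) :
    Co (T * n * T⁻¹) = c • (1 : E →L[ℝ] E) := by
  have h1 : op T * Co n * op T⁻¹ = c • (1 : E →L[ℝ] E) := by
    rw [h, mul_smul_comm, mul_one, smul_mul_assoc, op_mul_inv]
  rw [← h1]
  unfold Co
  have h2 : (T * n * T⁻¹)⁻¹ = T * n⁻¹ * T⁻¹ := by group
  rw [mul_smul_comm, smul_mul_assoc, mul_add, add_mul, h2, op_mul, op_mul, op_mul, op_mul]

/-- `J` and `T J T⁻¹` agree up to sign if `T` is near `1`. -/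
theorem Jop_eq_or_loc [CompleteSpace E] [TopologicalSpace.SeparableSpace E]
    (G : Subgroup (E ≃ₗᵢ[ℝ] E))
    (htr : ∀ x y : E, ‖x‖ = 1 → ‖y‖ = 1 → ∃ T ∈ G, T x = y)
    (n : E ≃ₗᵢ[ℝ] E) {ι : Type} [Finite ι] (f : ι → E) {r0 : ℝ} (hr0 : 0 < r0)
    (hn : ∀ T ∈ G, (∀ i, ‖T (f i) - f i‖ ≤ r0) → (T * n * T⁻¹) * n = n * (T * n * T⁻¹))
    {c : ℝ} (hcn : Co n = c • (1 : E →L[ℝ] E)) (hc : |c| < 1)
    {T : E ≃ₗᵢ[ℝ] E} (hT : T ∈ G) (hTf : ∀ i, ‖T (f i) - f i‖ ≤ r0 / 2) :
    Jop (T * n * T⁻¹) c = Jop n c ∨ Jop (T * n * T⁻¹) c = -Jop n c := by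
  set m : E ≃ₗᵢ[ℝ] E := T * n * T⁻¹ with hm
  have hJn := Jop_sq n c hcn hc
  have hJm := Jop_sq m c (Co_conj hcn) hc
  have hTr : ∀ i, ‖T (f i) - f i‖ ≤ r0 := fun i => (hTf i).trans (by linarith)
  have hmn : op n * op m = op m * op n := by
    rw [← op_mul, ← op_mul, hm, hn T hT hTr]
  have hJJ : Jop n c * Jop m c = Jop m c * Jop n c := by
    unfold Jop
    rw [smul_mul_smul_comm, smul_mul_smul_comm, sub_mul, sub_mul, mul_sub, mul_sub, mul_sub,
      mul_sub, hmn]
    simp only [mul_smul_comm, smul_mul_assoc, mul_one, one_mul]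
    module
  set a := Jop n c - Jop m c with ha
  set b := Jop n c + Jop m c with hb
  have hab0 : a * b = 0 := by
    rw [ha, hb, sub_mul, mul_add, mul_add, hJn, hJm, hJJ]
    abel
  by_cases hb0 : b = 0
  · right
    rw [hb] at hb0
    exact eq_neg_of_add_eq_zero_right hb0
  · left
    have ha2 : a * a = 0 := by
      refine core_op_loc G htr a b (Sum.elim f (fun i => T (f i))) (half_pos hr0)
        (fun S hS hSf => ?_) hab0 hb0
      have hS1 : ∀ i, ‖S (f i) - f i‖ ≤ r0 / 2 := fun i => hSf (Sum.inl i)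
      have hS2 : ∀ i, ‖S (T (f i)) - T (f i)‖ ≤ r0 / 2 := fun i => hSf (Sum.inr i)
      -- the four commutation relations
      have c1 : op (S * n * S⁻¹) * op n = op n * op (S * n * S⁻¹) := by
        rw [← op_mul, ← op_mul, hn S hS (fun i => (hS1 i).trans (by linarith))]
      have c2 : op (S * n * S⁻¹) * op m = op m * op (S * n * S⁻¹) := by
        refine comm_conj (hn _ (G.mul_mem (G.inv_mem hT) hS) fun i => ?_)
        have h1 : ‖(T⁻¹ * S) (f i) - f i‖ = ‖S (f i) - T (f i)‖ := by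
          have h2 : (T⁻¹ * S) (f i) - f i = T⁻¹ (S (f i) - T (f i)) := by
            rw [map_sub]
            congr 1
            exact (T.symm_apply_apply (f i)).symm
          rw [h2]
          exact (T⁻¹).norm_map _
        rw [h1]
        calc ‖S (f i) - T (f i)‖ = ‖(S (f i) - f i) - (T (f i) - f i)‖ := by
              rw [sub_sub_sub_cancel_right]
          _ ≤ ‖S (f i) - f i‖ + ‖T (f i) - f i‖ := norm_sub_le _ _
          _ ≤ r0 := by have := hS1 i; have := hTf i; linarith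
      have c3 : op (S * m * S⁻¹) * op n = op n * op (S * m * S⁻¹) := by
        have h0 : S * m * S⁻¹ = (S * T) * n * (S * T)⁻¹ := by rw [hm]; group
        rw [h0, ← op_mul, ← op_mul, hn _ (G.mul_mem hS hT) fun i => ?_]
        calc ‖(S * T) (f i) - f i‖ = ‖(S (T (f i)) - T (f i)) + (T (f i) - f i)‖ := by
              rw [sub_add_sub_cancel]; rfl
          _ ≤ ‖S (T (f i)) - T (f i)‖ + ‖T (f i) - f i‖ := norm_add_le _ _
          _ ≤ r0 := by have := hS2 i; have := hTf i; linarith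
      have c4 : op (S * m * S⁻¹) * op m = op m * op (S * m * S⁻¹) := by
        have h0 : S * m * S⁻¹ = (S * T) * n * (S * T)⁻¹ := by rw [hm]; group
        rw [h0]
        refine comm_conj (hn _ (G.mul_mem (G.inv_mem hT) (G.mul_mem hS hT)) fun i => ?_)
        have h1 : ‖(T⁻¹ * (S * T)) (f i) - f i‖ = ‖S (T (f i)) - T (f i)‖ := by
          have h2 : (T⁻¹ * (S * T)) (f i) - f i = T⁻¹ (S (T (f i)) - T (f i)) := by
            rw [map_sub]
            congr 1
            exact (T.symm_apply_apply (f i)).symm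
          rw [h2]
          exact (T⁻¹).norm_map _
        rw [h1]
        exact (hS2 i).trans (by linarith)
      have e1 : a = (Real.sqrt (1 - c ^ 2))⁻¹ • op n + (-(Real.sqrt (1 - c ^ 2))⁻¹) • op m
          + (-((Real.sqrt (1 - c ^ 2))⁻¹ * c) + (Real.sqrt (1 - c ^ 2))⁻¹ * c) •
            (1 : E →L[ℝ] E) := by
        rw [ha]
        unfold Jop
        module
      have e2 : op S * a * op S⁻¹ = (Real.sqrt (1 - c ^ 2))⁻¹ • op (S * n * S⁻¹)
          + (-(Real.sqrt (1 - c ^ 2))⁻¹) • op (S * m * S⁻¹)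
          + (-((Real.sqrt (1 - c ^ 2))⁻¹ * c) + (Real.sqrt (1 - c ^ 2))⁻¹ * c) •
            (1 : E →L[ℝ] E) := by
        rw [e1]
        simp only [mul_add, add_mul, mul_smul_comm, smul_mul_assoc, mul_one, op_mul,
          op_mul_inv]
      rw [e2, e1]
      exact comb_comm _ _ _ _ c1 c2 c3 c4 _ _ _ _ _ _
    have h1 : Jop n c * Jop m c = -1 := by
      rw [ha, sub_mul, mul_sub, mul_sub, hJn, hJm, ← hJJ] at ha2
      have h2 : (2:ℝ) • (Jop n c * Jop m c) = (2:ℝ) • (-1 : E →L[ℝ] E) := by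
        have h3 : -1 - Jop n c * Jop m c - (Jop n c * Jop m c - -1)
            = -((2:ℝ) • (Jop n c * Jop m c)) + (2:ℝ) • (-1 : E →L[ℝ] E) := by module
        rw [h3] at ha2
        exact (neg_add_eq_zero.1 ha2)
      exact smul_right_injective _ (two_ne_zero) h2
    have h4 : Jop n c * (Jop m c * Jop m c) = -Jop m c := by
      rw [← mul_assoc, h1, neg_mul, one_mul]
    rw [hJm, mul_neg, mul_one] at h4
    exact (neg_injective h4).symm

/-- An isometry which commutes with its conjugates near `1` is `± 1` or `c + s J` with `J² = -1` and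
`J` fixed by the conjugations near `1`. -/
theorem single [CompleteSpace E] [TopologicalSpace.SeparableSpace E] [Nontrivial E]
    (G : Subgroup (E ≃ₗᵢ[ℝ] E))
    (htr : ∀ x y : E, ‖x‖ = 1 → ‖y‖ = 1 → ∃ T ∈ G, T x = y)
    (n : E ≃ₗᵢ[ℝ] E) {ι : Type} [Finite ι] (f : ι → E) {r0 : ℝ} (hr0 : 0 < r0)
    (hn : ∀ T ∈ G, (∀ i, ‖T (f i) - f i‖ ≤ r0) → (T * n * T⁻¹) * n = n * (T * n * T⁻¹)) :
    (∃ s : ℝ, op n = s • (1 : E →L[ℝ] E)) ∨
    ∃ (J : E →L[ℝ] E) (c s : ℝ) (ι' : Type) (_ : Finite ι') (f' : ι' → E) (r' : ℝ), 0 < r' ∧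
      op n = c • 1 + s • J ∧
      ∀ T ∈ G, (∀ i, ‖T (f' i) - f' i‖ ≤ r') → op T * J * op T⁻¹ = J := by
  obtain ⟨c, hcn⟩ := quad_loc parti G htr n f hr0 hn
  by_cases hlt : |c| < 1
  swap
  · left
    have h1 := abs_le_of_Co n c hcn
    have h2 : |c| = 1 := le_antisymm h1 (not_lt.1 hlt)
    rcases (abs_eq zero_le_one).1 h2 with h | h
    · rw [h] at hcn
      refine ⟨1, ?_⟩
      ext x
      rw [one_smul]
      exact eq_one_of_Co n hcn x
    · rw [h] at hcn
      refine ⟨-1, ?_⟩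
      ext x
      have := eq_neg_of_Co n hcn x
      rw [neg_smul, one_smul]
      exact this
  · right
    obtain ⟨x, hx⟩ := exists_norm_eq E (zero_le_one (α := ℝ))
    set J := Jop n c with hJ
    have hJ2 := Jop_sq n c hcn hlt
    have hJx : J x ≠ 0 := by
      intro h
      have h1 : (J * J) x = -x := by rw [hJ, hJ2]; rfl
      have h2 : (J * J) x = J (J x) := rfl
      rw [h2, h, map_zero] at h1
      have h3 : x = 0 := by rw [← neg_eq_zero]; exact h1.symm
      rw [h3, norm_zero] at hx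
      exact zero_ne_one hx
    have hJp : 0 < ‖J x‖ := norm_pos_iff.2 hJx
    set r' : ℝ := min (r0 / 2) (‖J x‖ / (‖J‖ + 2)) with hr'
    have hr'0 : 0 < r' := lt_min (half_pos hr0) (by positivity)
    refine ⟨J, c, Real.sqrt (1 - c ^ 2), ι ⊕ Fin 2, inferInstance,
      Sum.elim f (![x, J x] : Fin 2 → E), r', hr'0, op_eq_Jop n c hlt, ?_⟩
    intro T hT hTf
    have hT1 : ∀ i, ‖T (f i) - f i‖ ≤ r0 / 2 := fun i => (hTf (Sum.inl i)).trans (min_le_left _ _)
    have hTx : ‖T x - x‖ ≤ r' := hTf (Sum.inr 0)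
    have hTJ : ‖T (J x) - J x‖ ≤ r' := hTf (Sum.inr 1)
    rw [← Jop_conj]
    rcases Jop_eq_or_loc G htr n f hr0 hn hcn hlt hT hT1 with h | h
    · exact h
    · exfalso
      have h1 : T (J (T.symm x)) = -(J x) := by
        have := DFunLike.congr_fun h x
        rw [Jop_conj] at this
        exact this
      have h2 : ‖T (J (T.symm x)) - J x‖ = 2 * ‖J x‖ := by
        rw [h1, ← neg_add', norm_neg, ← two_smul ℝ (J x), norm_smul]
        norm_num
      have h3 : ‖T (J (T.symm x)) - J x‖ ≤ (‖J‖ + 1) * r' := by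
        have h8 : T (J (T.symm x)) - J x = T (J (T.symm x - x)) + (T (J x) - J x) := by
          rw [map_sub, map_sub]; abel
        rw [h8]
        refine (norm_add_le _ _).trans ?_
        rw [T.norm_map]
        have h9 : ‖J (T.symm x - x)‖ ≤ ‖J‖ * r' := by
          refine (J.le_opNorm _).trans (mul_le_mul_of_nonneg_left ?_ (norm_nonneg _))
          have h10 : T.symm x - x = T.symm (x - T x) := by
            rw [map_sub, T.symm_apply_apply]
          rw [h10, T.symm.norm_map, norm_sub_rev]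
          exact hTx
        linarith
      have h4 : (‖J‖ + 2) * r' ≤ ‖J x‖ := by
        have h5 : r' ≤ ‖J x‖ / (‖J‖ + 2) := min_le_right _ _
        rw [le_div_iff₀ (by positivity)] at h5
        linarith
      linarith

end Pool.Agent.TH596.RO.LA
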