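import Pool.Agent.TH596.RO.Core

/-!
# Subgroups of countable index, countable unions of finite-dimensional subspaces
-/

set_option autoImplicit false

namespace Pool.Agent.TH596.RO

open Metric Quaternion

section
variable {E : Type*} [NormedAddCommGroup E] [NormedSpace ℝ E]

theorem cj_mul (S T : E ≃ₗᵢ[ℝ] E) (a : E →L[ℝ] E) : cj (S * T) a = cj S (cj T a) := rfl

theorem cj_one (a : E →L[ℝ] E) : cj (1 : E ≃ₗᵢ[ℝ] E) a = a := rfl

theorem cj_inv_cj (T : E ≃ₗᵢ[ℝ] E) (a : E →L[ℝ] E) : cj T⁻¹ (cj T a) = a := cj_symm T a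

theorem cj_cj_inv (T : E ≃ₗᵢ[ℝ] E) (a : E →L[ℝ] E) : cj T (cj T⁻¹ a) = a := by
  rw [← cj_mul, mul_inv_cancel, cj_one]

/-- the members with a finite-dimensional orbit span under a group of the family `𝓗` -/
def Al (𝓗 : Set (Subgroup (E ≃ₗᵢ[ℝ] E))) (hne : 𝓗.Nonempty)
    (hinf : ∀ H ∈ 𝓗, ∀ H' ∈ 𝓗, H ⊓ H' ∈ 𝓗) : Subalgebra ℝ (E →L[ℝ] E) where
  carrier := {a | ∃ H ∈ 𝓗, ∃ F : Submodule ℝ (E →L[ℝ] E), FiniteDimensional ℝ F ∧ Inv H F ∧ a ∈ F}
  mul_mem' := by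
    rintro a b ⟨H, hH, F, hF1, hF2, ha⟩ ⟨H', hH', F', hF1', hF2', hb⟩
    refine ⟨H ⊓ H', hinf H hH H' hH', F * F', ?_, ?_, Submodule.mul_mem_mul ha hb⟩
    · have h1 : F.FG := (Submodule.fg_iff_finiteDimensional F).2 hF1
      have h2 : F'.FG := (Submodule.fg_iff_finiteDimensional F').2 hF1'
      exact (Submodule.fg_iff_finiteDimensional _).1 (h1.mul h2)
    · intro T hT c hc
      refine Submodule.mul_induction_on hc (fun x hx y hy => ?_) (fun x y hx hy => ?_)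
      · rw [map_mul]
        exact Submodule.mul_mem_mul (hF2 T hT.1 x hx) (hF2' T hT.2 y hy)
      · rw [map_add]; exact Submodule.add_mem _ hx hy
  add_mem' := by
    rintro a b ⟨H, hH, F, hF1, hF2, ha⟩ ⟨H', hH', F', hF1', hF2', hb⟩
    refine ⟨H ⊓ H', hinf H hH H' hH', F ⊔ F', inferInstance, ?_,
      Submodule.add_mem_sup ha hb⟩
    intro T hT c hc
    obtain ⟨x, hx, y, hy, rfl⟩ := Submodule.mem_sup.1 hc
    rw [map_add]
    exact Submodule.add_mem_sup (hF2 T hT.1 x hx) (hF2' T hT.2 y hy)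
  algebraMap_mem' := by
    intro r
    obtain ⟨H, hH⟩ := hne
    refine ⟨H, hH, Submodule.span ℝ {1}, inferInstance, ?_, ?_⟩
    · intro T hT c hc
      obtain ⟨s, rfl⟩ := Submodule.mem_span_singleton.1 hc
      rw [map_smul, map_one]
      exact Submodule.smul_mem _ _ (Submodule.mem_span_singleton_self _)
    · rw [Algebra.algebraMap_eq_smul_one]
      exact Submodule.smul_mem _ _ (Submodule.mem_span_singleton_self _)

theorem mem_Al {𝓗 : Set (Subgroup (E ≃ₗᵢ[ℝ] E))} {hne : 𝓗.Nonempty}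
    {hinf : ∀ H ∈ 𝓗, ∀ H' ∈ 𝓗, H ⊓ H' ∈ 𝓗} {a : E →L[ℝ] E} :
    a ∈ Al 𝓗 hne hinf ↔ ∃ H ∈ 𝓗, ∃ F : Submodule ℝ (E →L[ℝ] E), FiniteDimensional ℝ F ∧ Inv H F ∧ a ∈ F :=
  Iff.rfl

theorem good_Al {𝓗 : Set (Subgroup (E ≃ₗᵢ[ℝ] E))} {hne : 𝓗.Nonempty}
    {hinf : ∀ H ∈ 𝓗, ∀ H' ∈ 𝓗, H ⊓ H' ∈ 𝓗} (hat : ∀ H ∈ 𝓗, AT H) : Good (Al 𝓗 hne hinf) := by
  classical
  intro s
  induction s using Finset.induction_on with
  | empty =>
    intro _
    obtain ⟨H, hH⟩ := hne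
    exact ⟨H, hat H hH, ⊥, inferInstance, fun T _ c hc => by
      rw [Submodule.mem_bot] at hc ⊢; rw [hc, map_zero], fun c hc => by
      rw [Submodule.mem_bot] at hc; rw [hc]; exact Subalgebra.zero_mem _, by simp⟩
  | insert a s _ ih => ?_
  intro hs
  have hfin : ∀ t : Finset (E →L[ℝ] E), (∀ a ∈ t, a ∈ Al 𝓗 hne hinf) → ∃ H ∈ 𝓗,
      ∃ F : Submodule ℝ (E →L[ℝ] E), FiniteDimensional ℝ F ∧ Inv H F ∧ ∀ a ∈ t, a ∈ F := by
    intro t
    induction t using Finset.induction_on with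
    | empty =>
      intro _
      obtain ⟨H, hH⟩ := hne
      exact ⟨H, hH, ⊥, inferInstance, fun T _ c hc => by
        rw [Submodule.mem_bot] at hc ⊢; rw [hc, map_zero], by simp⟩
    | insert b t _ ih2 =>
      intro ht
      obtain ⟨H, hH, F, hF1, hF2, hF3⟩ := ih2 (fun c hc => ht c (Finset.mem_insert_of_mem hc))
      obtain ⟨H', hH', F', hF1', hF2', hb⟩ := ht b (Finset.mem_insert_self _ _)
      refine ⟨H ⊓ H', hinf H hH H' hH', F ⊔ F', inferInstance, ?_, ?_⟩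
      · intro T hT c hc
        obtain ⟨x, hx, y, hy, rfl⟩ := Submodule.mem_sup.1 hc
        rw [map_add]
        exact Submodule.add_mem_sup (hF2 T hT.1 x hx) (hF2' T hT.2 y hy)
      · intro c hc
        rcases Finset.mem_insert.1 hc with rfl | hc
        · exact (le_sup_right : F' ≤ F ⊔ F') hb
        · exact (le_sup_left : F ≤ F ⊔ F') (hF3 c hc)
  obtain ⟨H, hH, F, hF1, hF2, hF3⟩ := hfin _ hs
  exact ⟨H, hat H hH, F, hF1, hF2, fun c hc => ⟨H, hH, F, hF1, hF2, hc⟩, hF3⟩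

/-- countable index -/
def CI (G H : Subgroup (E ≃ₗᵢ[ℝ] E)) : Prop :=
  ∃ c : ℕ → E ≃ₗᵢ[ℝ] E, ∀ T ∈ G, ∃ n, (c n)⁻¹ * T ∈ H

theorem CI.refl (G : Subgroup (E ≃ₗᵢ[ℝ] E)) : CI G G := ⟨fun _ => 1, fun T hT => ⟨0, by simpa using hT⟩⟩

theorem CI.inf {G H H' : Subgroup (E ≃ₗᵢ[ℝ] E)} (h : CI G H) (h' : CI G H') : CI G (H ⊓ H') := by
  classical
  obtain ⟨c, hc⟩ := h
  obtain ⟨c', hc'⟩ := h'
  let P : ℕ × ℕ → (E ≃ₗᵢ[ℝ] E) → Prop := fun p T => (c p.1)⁻¹ * T ∈ H ∧ (c' p.2)⁻¹ * T ∈ H'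
  let d : ℕ × ℕ → E ≃ₗᵢ[ℝ] E := fun p => if hp : ∃ T, P p T then hp.choose else 1
  refine ⟨fun n => d (Nat.unpair n), fun T hT => ?_⟩
  obtain ⟨n, hn⟩ := hc T hT
  obtain ⟨m, hm⟩ := hc' T hT
  refine ⟨Nat.pair n m, ?_⟩
  have hp : ∃ T, P (n, m) T := ⟨T, hn, hm⟩
  have hd : P (n, m) (d (n, m)) := by
    simp only [d, dif_pos hp]
    exact hp.choose_spec
  show (d (Nat.unpair (Nat.pair n m)))⁻¹ * T ∈ H ⊓ H'
  rw [Nat.unpair_pair]
  constructor
  · have := H.mul_mem (H.inv_mem hd.1) hn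
    rwa [mul_inv_rev, inv_inv, mul_assoc, mul_inv_cancel_left] at this
  · have := H'.mul_mem (H'.inv_mem hd.2) hm
    rwa [mul_inv_rev, inv_inv, mul_assoc, mul_inv_cancel_left] at this

/-- subgroups of countable index of a transitive group are almost transitive -/
theorem CI.at [CompleteSpace E] (hE : ¬ FiniteDimensional ℝ E) {G H : Subgroup (E ≃ₗᵢ[ℝ] E)}
    (htr : ∀ x y : E, ‖x‖ = 1 → ‖y‖ = 1 → ∃ T ∈ G, T x = y) (h : CI G H) : AT H := by
  obtain ⟨c, hc⟩ := h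
  intro x y hx hy ε hε
  -- the sphere
  let S : Type _ := sphere (0 : E) 1
  have hScl : IsClosed (sphere (0 : E) 1) := isClosed_sphere
  haveI : CompleteSpace S := hScl.completeSpace_coe
  have hrank : 1 < Module.rank ℝ E := by
    have := (Module.rank_lt_aleph0_iff (R := ℝ) (M := E)).not.2 hE
    rw [not_lt] at this
    exact lt_of_lt_of_le Cardinal.one_lt_aleph0 this
  haveI : PreconnectedSpace S :=
    isPreconnected_iff_preconnectedSpace.1 (isPreconnected_sphere hrank 0 1)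
  have hSn : ∀ z : S, ‖(z : E)‖ = 1 := fun z => by
    have := z.2; rwa [mem_sphere, dist_zero_right] at this
  let mk : ∀ z : E, ‖z‖ = 1 → S := fun z hz => ⟨z, by rwa [mem_sphere, dist_zero_right]⟩
  let x' : S := mk x hx
  haveI : Nonempty S := ⟨x'⟩
  -- orbits
  let O : S → Set S := fun z => {w | ∃ T ∈ H, (w : E) = T z}
  let act : (E ≃ₗᵢ[ℝ] E) → S → S := fun T z => mk (T z) (by rw [T.norm_map]; exact hSn z)
  have hact : ∀ T z w, dist (act T z) (act T w) = dist z w := by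
    intro T z w
    show dist (T z) (T w) = dist (z : E) w
    exact T.dist_map _ _
  have hOact : ∀ T ∈ H, ∀ z w, w ∈ closure (O z) → act T w ∈ closure (O z) := by
    intro T hT z w hw
    rw [Metric.mem_closure_iff] at hw ⊢
    intro δ hδ
    obtain ⟨u, ⟨R, hR, hu⟩, hd⟩ := hw δ hδ
    refine ⟨act T u, ⟨T * R, H.mul_mem hT hR, ?_⟩, by rw [hact]; exact hd⟩
    show T (u : E) = (T * R) z
    rw [hu]; rfl
  -- countable cover
  have hcover : (⋃ n, closure (O (act (c n)⁻¹ x'))) = Set.univ := by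
    rw [Set.eq_univ_iff_forall]
    intro w
    obtain ⟨T, hT, hTw⟩ := htr w x (hSn w) hx
    obtain ⟨n, hn⟩ := hc T hT
    rw [Set.mem_iUnion]
    refine ⟨n, subset_closure ⟨((c n)⁻¹ * T)⁻¹, H.inv_mem hn, ?_⟩⟩
    show (w : E) = ((c n)⁻¹ * T)⁻¹ ((c n)⁻¹ x)
    rw [← hTw, mul_inv_rev, inv_inv]
    show (w : E) = T⁻¹ ((c n) ((c n)⁻¹ (T w)))
    have h1 : (c n) ((c n)⁻¹ (T (w : E))) = T w := (c n).apply_symm_apply _
    rw [h1]
    exact (T.symm_apply_apply _).symm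
  obtain ⟨n, z, hz⟩ := nonempty_interior_of_iUnion_of_closed (fun n => isClosed_closure) hcover
  set y0 : S := act (c n)⁻¹ x' with hy0
  -- the closure is open
  have hopen : IsOpen (closure (O y0)) := by
    rw [Metric.isOpen_iff]
    obtain ⟨r, hr, hball⟩ := Metric.isOpen_iff.1 isOpen_interior z hz
    intro w hw
    refine ⟨r / 3, by positivity, fun w' hw' => ?_⟩
    have hzc : z ∈ closure (O y0) := interior_subset hz
    obtain ⟨u, ⟨R, hR, hu⟩, hd⟩ := Metric.mem_closure_iff.1 hzc (r / 3) (by positivity)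
    obtain ⟨u', ⟨R', hR', hu'⟩, hd'⟩ := Metric.mem_closure_iff.1 hw (r / 3) (by positivity)
    -- `k = R R'⁻¹`
    have hk : R * R'⁻¹ ∈ H := H.mul_mem hR (H.inv_mem hR')
    have h1 : act (R * R'⁻¹) u' = u := by
      apply Subtype.ext
      show (R * R'⁻¹) (u' : E) = u
      rw [hu', hu]
      show R (R'⁻¹ (R' (y0 : E))) = R y0
      congr 1
      exact R'.symm_apply_apply _
    have h2 : dist (act (R * R'⁻¹) w') z < r := by
      calc dist (act (R * R'⁻¹) w') z ≤ dist (act (R * R'⁻¹) w') (act (R * R'⁻¹) w) +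
            dist (act (R * R'⁻¹) w) (act (R * R'⁻¹) u') + dist (act (R * R'⁻¹) u') z := dist_triangle4 _ _ _ _
        _ < r / 3 + r / 3 + r / 3 := by
            rw [hact, hact, h1, dist_comm u z]
            rw [mem_ball] at hw'
            linarith
        _ = r := by ring
    have h3 : act (R * R'⁻¹) w' ∈ closure (O y0) := interior_subset (hball h2)
    have h4 := hOact (R * R'⁻¹)⁻¹ (H.inv_mem hk) y0 _ h3
    have h5 : act (R * R'⁻¹)⁻¹ (act (R * R'⁻¹) w') = w' := by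
      apply Subtype.ext
      exact (R * R'⁻¹).symm_apply_apply _
    rwa [h5] at h4
  have huniv : closure (O y0) = Set.univ :=
    IsClopen.eq_univ ⟨isClosed_closure, hopen⟩ ⟨y0, subset_closure ⟨1, H.one_mem, rfl⟩⟩
  -- conclusion
  have hx1 : mk x hx ∈ closure (O y0) := by rw [huniv]; trivial
  have hy1 : mk y hy ∈ closure (O y0) := by rw [huniv]; trivial
  obtain ⟨u, ⟨R, hR, hu⟩, hd⟩ := Metric.mem_closure_iff.1 hx1 (ε / 2) (by positivity)
  obtain ⟨u', ⟨R', hR', hu'⟩, hd'⟩ := Metric.mem_closure_iff.1 hy1 (ε / 2) (by positivity)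
  refine ⟨R' * R⁻¹, H.mul_mem hR' (H.inv_mem hR), ?_⟩
  have e1 : dist x (R y0) < ε / 2 := by
    have : dist x (u : E) < ε / 2 := hd
    rwa [hu] at this
  have e2 : dist y (R' y0) < ε / 2 := by
    have : dist y (u' : E) < ε / 2 := hd'
    rwa [hu'] at this
  have e3 : (R' * R⁻¹) (R (y0 : E)) = R' y0 := by
    show R' (R⁻¹ (R (y0 : E))) = R' y0
    congr 1
    exact R.symm_apply_apply _
  rw [← dist_eq_norm]
  calc dist ((R' * R⁻¹) x) y ≤ dist ((R' * R⁻¹) x) ((R' * R⁻¹) (R y0)) + dist ((R' * R⁻¹) (R (y0 : E))) y :=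
        dist_triangle _ _ _
    _ = dist x (R y0) + dist y (R' y0) := by
        rw [LinearIsometryEquiv.dist_map, e3, dist_comm y]
    _ < ε := by linarith

end

end Pool.Agent.TH596.RO
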