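import Pool.Agent.TH264.Bridge.PW

/-!
# Density of the vectors with a finite-dimensional orbit span (compact groups)
-/

set_option autoImplicit false
set_option linter.style.haveILetI false
set_option linter.unusedVariables false

namespace Pool.Agent.TH596.RO

open MeasureTheory

section
variable {K : Type*} [Group K] [TopologicalSpace K] [IsTopologicalGroup K]

/-- left translation -/
noncomputable def ltr (h : K) : C(K, ℝ) →ₗ[ℝ] C(K, ℝ) where
  toFun f := ⟨fun k => f (h⁻¹ * k), by fun_prop⟩
  map_add' f g := rfl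
  map_smul' r f := rfl

theorem ltr_apply (h : K) (f : C(K, ℝ)) (k : K) : ltr h f k = f (h⁻¹ * k) := rfl

/-- representative functions -/
def Rep (K : Type*) [Group K] [TopologicalSpace K] [IsTopologicalGroup K] : Subalgebra ℝ C(K, ℝ) where
  carrier := {f | ∃ L : Submodule ℝ C(K, ℝ), FiniteDimensional ℝ L ∧ (∀ h : K, ∀ g ∈ L, ltr h g ∈ L) ∧ f ∈ L}
  mul_mem' := by
    rintro a b ⟨F, hF1, hF2, ha⟩ ⟨F', hF1', hF2', hb⟩
    refine ⟨F * F', ?_, ?_, Submodule.mul_mem_mul ha hb⟩
    · have h1 : F.FG := (Submodule.fg_iff_finiteDimensional F).2 hF1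
      have h2 : F'.FG := (Submodule.fg_iff_finiteDimensional F').2 hF1'
      exact (Submodule.fg_iff_finiteDimensional _).1 (h1.mul h2)
    · intro h c hc
      refine Submodule.mul_induction_on hc (fun x hx y hy => ?_) (fun x y hx hy => ?_)
      · have : ltr h (x * y) = ltr h x * ltr h y := rfl
        rw [this]
        exact Submodule.mul_mem_mul (hF2 h x hx) (hF2' h y hy)
      · rw [map_add]; exact Submodule.add_mem _ hx hy
  add_mem' := by
    rintro a b ⟨F, hF1, hF2, ha⟩ ⟨F', hF1', hF2', hb⟩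
    refine ⟨F ⊔ F', inferInstance, ?_, Submodule.add_mem_sup ha hb⟩
    intro h c hc
    obtain ⟨x, hx, y, hy, rfl⟩ := Submodule.mem_sup.1 hc
    rw [map_add]
    exact Submodule.add_mem_sup (hF2 h x hx) (hF2' h y hy)
  algebraMap_mem' := by
    intro r
    refine ⟨Submodule.span ℝ {1}, inferInstance, ?_, ?_⟩
    · intro h c hc
      obtain ⟨s, rfl⟩ := Submodule.mem_span_singleton.1 hc
      rw [map_smul]
      have : ltr h (1 : C(K, ℝ)) = 1 := rfl
      rw [this]
      exact Submodule.smul_mem _ _ (Submodule.mem_span_singleton_self _)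
    · rw [Algebra.algebraMap_eq_smul_one]
      exact Submodule.smul_mem _ _ (Submodule.mem_span_singleton_self _)

/-- real parts of the matrix entries -/
noncomputable def reF {N : ℕ} (ρ : K →* Matrix (Fin N) (Fin N) ℂ) (hρ : Continuous ρ) (i j : Fin N) : C(K, ℝ) :=
  ⟨fun k => (ρ k i j).re, by
    have h1 : Continuous fun k => ρ k i j := (continuous_apply j).comp ((continuous_apply i).comp hρ)
    exact Complex.continuous_re.comp h1⟩

/-- imaginary parts of the matrix entries -/
noncomputable def imF {N : ℕ} (ρ : K →* Matrix (Fin N) (Fin N) ℂ) (hρ : Continuous ρ) (i j : Fin N) : C(K, ℝ) :=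
  ⟨fun k => (ρ k i j).im, by
    have h1 : Continuous fun k => ρ k i j := (continuous_apply j).comp ((continuous_apply i).comp hρ)
    exact Complex.continuous_im.comp h1⟩

/-- the span of the matrix entries -/
noncomputable def LF {N : ℕ} (ρ : K →* Matrix (Fin N) (Fin N) ℂ) (hρ : Continuous ρ) : Submodule ℝ C(K, ℝ) :=
  Submodule.span ℝ (Set.range fun p : Fin N × Fin N => reF ρ hρ p.1 p.2) ⊔
    Submodule.span ℝ (Set.range fun p : Fin N × Fin N => imF ρ hρ p.1 p.2)

theorem reF_mem {N : ℕ} (ρ : K →* Matrix (Fin N) (Fin N) ℂ) (hρ : Continuous ρ) (i j : Fin N) :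
    reF ρ hρ i j ∈ LF ρ hρ :=
  (le_sup_left : _ ≤ LF ρ hρ) (Submodule.subset_span ⟨(i, j), rfl⟩)

theorem imF_mem {N : ℕ} (ρ : K →* Matrix (Fin N) (Fin N) ℂ) (hρ : Continuous ρ) (i j : Fin N) :
    imF ρ hρ i j ∈ LF ρ hρ :=
  (le_sup_right : _ ≤ LF ρ hρ) (Submodule.subset_span ⟨(i, j), rfl⟩)

theorem LF_fd {N : ℕ} (ρ : K →* Matrix (Fin N) (Fin N) ℂ) (hρ : Continuous ρ) :
    FiniteDimensional ℝ (LF ρ hρ) := by
  haveI h1 : FiniteDimensional ℝ (Submodule.span ℝ (Set.range fun p : Fin N × Fin N => reF ρ hρ p.1 p.2)) :=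
    FiniteDimensional.span_of_finite ℝ (Set.finite_range _)
  haveI h2 : FiniteDimensional ℝ (Submodule.span ℝ (Set.range fun p : Fin N × Fin N => imF ρ hρ p.1 p.2)) :=
    FiniteDimensional.span_of_finite ℝ (Set.finite_range _)
  exact inferInstanceAs (FiniteDimensional ℝ (_ ⊔ _ : Submodule ℝ C(K, ℝ)))

theorem LF_inv {N : ℕ} (ρ : K →* Matrix (Fin N) (Fin N) ℂ) (hρ : Continuous ρ) (h : K) (g : C(K, ℝ))
    (hg : g ∈ LF ρ hρ) : ltr h g ∈ LF ρ hρ := by
  have key : LF ρ hρ ≤ (LF ρ hρ).comap (ltr h) := by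
    refine sup_le ?_ ?_
    · rw [Submodule.span_le]
      rintro _ ⟨⟨i, j⟩, rfl⟩
      show ltr h (reF ρ hρ i j) ∈ LF ρ hρ
      have he : ltr h (reF ρ hρ i j) = ∑ l, ((ρ h⁻¹ i l).re • reF ρ hρ l j - (ρ h⁻¹ i l).im • imF ρ hρ l j) := by
        ext k
        rw [ltr_apply]
        show (ρ (h⁻¹ * k) i j).re = _
        rw [map_mul, Matrix.mul_apply, Complex.re_sum, ContinuousMap.coe_sum, Finset.sum_apply]
        apply Finset.sum_congr rfl
        intro l _
        rw [Complex.mul_re]
        rfl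
      rw [he]
      exact Submodule.sum_mem _ fun l _ => Submodule.sub_mem _
        (Submodule.smul_mem _ _ (reF_mem ρ hρ l j)) (Submodule.smul_mem _ _ (imF_mem ρ hρ l j))
    · rw [Submodule.span_le]
      rintro _ ⟨⟨i, j⟩, rfl⟩
      show ltr h (imF ρ hρ i j) ∈ LF ρ hρ
      have he : ltr h (imF ρ hρ i j) = ∑ l, ((ρ h⁻¹ i l).re • imF ρ hρ l j + (ρ h⁻¹ i l).im • reF ρ hρ l j) := by
        ext k
        rw [ltr_apply]
        show (ρ (h⁻¹ * k) i j).im = _
        rw [map_mul, Matrix.mul_apply, Complex.im_sum, ContinuousMap.coe_sum, Finset.sum_apply]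
        apply Finset.sum_congr rfl
        intro l _
        rw [Complex.mul_im]
        rfl
      rw [he]
      exact Submodule.sum_mem _ fun l _ => Submodule.add_mem _
        (Submodule.smul_mem _ _ (imF_mem ρ hρ l j)) (Submodule.smul_mem _ _ (reF_mem ρ hρ l j))
  exact key hg

theorem rep_sep [CompactSpace K] [T2Space K] : (Rep K).SeparatesPoints := by
  intro x y hxy
  have hb : x⁻¹ * y ≠ 1 := by
    intro h
    exact hxy (inv_mul_eq_one.1 h)
  obtain ⟨N, ρ, hρ, hρb⟩ := Pool.Agent.TH264.Bridge.PWaux1.exists_rep_ne_one K (x⁻¹ * y) hb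
  have hne : ρ x ≠ ρ y := by
    intro h
    apply hρb
    rw [map_mul, ← h, ← map_mul, inv_mul_cancel, map_one]
  obtain ⟨i, j, hij⟩ : ∃ i j, ρ x i j ≠ ρ y i j := by
    by_contra hcon
    push Not at hcon
    exact hne (Matrix.ext hcon)
  by_cases hre : (ρ x i j).re = (ρ y i j).re
  · refine ⟨_, ⟨imF ρ hρ i j, ⟨LF ρ hρ, LF_fd ρ hρ, LF_inv ρ hρ, imF_mem ρ hρ i j⟩, rfl⟩, ?_⟩
    intro h
    exact hij (Complex.ext hre h)
  · exact ⟨_, ⟨reF ρ hρ i j, ⟨LF ρ hρ, LF_fd ρ hρ, LF_inv ρ hρ, reF_mem ρ hρ i j⟩, rfl⟩, hre⟩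

end

section
variable {K : Type*} [Group K] [TopologicalSpace K] [IsTopologicalGroup K] [CompactSpace K] [T2Space K]
variable {V : Type*} [NormedAddCommGroup V] [NormedSpace ℝ V] [CompleteSpace V]

theorem pw_dense (π : K → (V →L[ℝ] V)) (h1 : ∀ v, π 1 v = v)
    (hm : ∀ h k v, π (h * k) v = π h (π k v)) (hn : ∀ k v, ‖π k v‖ ≤ ‖v‖)
    (hc : ∀ v, Continuous fun k => π k v) (v : V) {ε : ℝ} (hε : 0 < ε) :
    ∃ w : V, ‖w - v‖ < ε ∧ ∃ F : Submodule ℝ V, FiniteDimensional ℝ F ∧ ∀ k, π k w ∈ F := by
  classical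
  letI : MeasurableSpace K := borel K
  haveI : BorelSpace K := ⟨rfl⟩
  let μ : Measure K := Measure.haar
  haveI : IsFiniteMeasure μ := inferInstance
  have hint : ∀ f : C(K, ℝ), Integrable (fun k => f k • π k v) μ := by
    intro f
    apply Continuous.integrable_of_hasCompactSupport
    · exact f.continuous.smul (hc v)
    · exact HasCompactSupport.of_compactSpace _
  have hint0 : ∀ f : C(K, ℝ), Integrable (fun k => f k) μ := by
    intro f
    exact f.continuous.integrable_of_hasCompactSupport (HasCompactSupport.of_compactSpace _)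
  let J : C(K, ℝ) →ₗ[ℝ] V :=
    { toFun := fun f => ∫ k, f k • π k v ∂μ
      map_add' := by
        intro f g
        rw [← integral_add (hint f) (hint g)]
        apply integral_congr_ae
        filter_upwards with k
        show (f k + g k) • π k v = _
        rw [add_smul]
      map_smul' := by
        intro r f
        rw [RingHom.id_apply, ← integral_smul]
        apply integral_congr_ae
        filter_upwards with k
        show (r * f k) • π k v = _
        rw [mul_smul] }
  have hJ : ∀ f, J f = ∫ k, f k • π k v ∂μ := fun f => rfl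
  have htr : ∀ h f, π h (J f) = J (ltr h f) := by
    intro h f
    rw [hJ, hJ, ← ContinuousLinearMap.integral_comp_comm _ (hint f)]
    rw [← integral_mul_left_eq_self (μ := μ) (fun k => ltr h f k • π k v) h]
    apply integral_congr_ae
    filter_upwards with k
    rw [map_smul, ← hm, ltr_apply, inv_mul_cancel_left]
  -- a bump
  have hU : IsOpen {k : K | ‖π k v - v‖ < ε / 4} := by
    apply isOpen_lt
    · exact ((hc v).sub continuous_const).norm
    · exact continuous_const
  obtain ⟨f, hf0, hf1, hf01⟩ := exists_continuous_zero_one_of_isClosed (X := K)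
    (s := {k : K | ‖π k v - v‖ < ε / 4}ᶜ) (t := {1}) hU.isClosed_compl isClosed_singleton (by
      rw [Set.disjoint_singleton_right]
      intro h
      apply h
      show ‖π 1 v - v‖ < ε / 4
      rw [h1, sub_self, norm_zero]
      positivity)
  have hf1' : f 1 = 1 := hf1 rfl
  set c := ∫ k, f k ∂μ with hcdef
  have hcpos : 0 < c := by
    apply Continuous.integral_pos_of_hasCompactSupport_nonneg_nonzero (x := (1 : K)) f.continuous
      (HasCompactSupport.of_compactSpace _) (fun k => (hf01 k).1)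
    rw [hf1']
    exact one_ne_zero
  have hJf : ‖J f - c • v‖ ≤ c * (ε / 4) := by
    have he : J f - c • v = ∫ k, f k • (π k v - v) ∂μ := by
      rw [hJ, hcdef, ← integral_smul_const, ← integral_sub (hint f) ((hint0 f).smul_const v)]
      apply integral_congr_ae
      filter_upwards with k
      rw [smul_sub]
    rw [he]
    calc ‖∫ k, f k • (π k v - v) ∂μ‖ ≤ ∫ k, f k * (ε / 4) ∂μ := by
          apply norm_integral_le_of_norm_le
          · exact (hint0 f).mul_const _
          · filter_upwards with k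
            rw [norm_smul, Real.norm_eq_abs, abs_of_nonneg (hf01 k).1]
            by_cases hk : ‖π k v - v‖ < ε / 4
            · exact mul_le_mul_of_nonneg_left hk.le (hf01 k).1
            · have : f k = 0 := hf0 hk
              rw [this, zero_mul, zero_mul]
      _ = c * (ε / 4) := by rw [integral_mul_const]
  -- approximate by a representative function
  obtain ⟨g, hg⟩ := ContinuousMap.exists_mem_subalgebra_near_continuousMap_of_separatesPoints (Rep K) rep_sep f
    (c * (ε / 4) / ((‖v‖ + 1) * (μ.real Set.univ + 1))) (by positivity)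
  have hJg : ‖J (g : C(K, ℝ)) - J f‖ ≤ c * (ε / 4) := by
    rw [← map_sub, hJ]
    calc ‖∫ k, ((g : C(K, ℝ)) - f) k • π k v ∂μ‖
        ≤ ∫ _k, c * (ε / 4) / ((‖v‖ + 1) * (μ.real Set.univ + 1)) * ‖v‖ ∂μ := by
          apply norm_integral_le_of_norm_le
          · exact integrable_const _
          · filter_upwards with k
            rw [norm_smul]
            apply mul_le_mul _ (hn k v) (norm_nonneg _) (by positivity)
            exact (ContinuousMap.norm_coe_le_norm _ k).trans hg.le
      _ = (c * (ε / 4)) * (‖v‖ / (‖v‖ + 1)) * (μ.real Set.univ / (μ.real Set.univ + 1)) := by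
          rw [integral_const, smul_eq_mul]
          have h2 : ‖v‖ + 1 ≠ 0 := by positivity
          have h3 : μ.real Set.univ + 1 ≠ 0 := by positivity
          field_simp
      _ ≤ (c * (ε / 4)) * 1 * 1 := by
          have h2 : ‖v‖ / (‖v‖ + 1) ≤ 1 := by
            rw [div_le_one (by positivity)]; linarith
          have h3 : μ.real Set.univ / (μ.real Set.univ + 1) ≤ 1 := by
            rw [div_le_one (by positivity)]; linarith
          have h4 : 0 ≤ μ.real Set.univ / (μ.real Set.univ + 1) := by positivity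
          have h5 : 0 ≤ c * (ε / 4) := by positivity
          exact mul_le_mul (mul_le_mul_of_nonneg_left h2 h5) h3 h4 (by positivity)
      _ = c * (ε / 4) := by ring
  obtain ⟨L, hL1, hL2, hL3⟩ := g.2
  refine ⟨c⁻¹ • J (g : C(K, ℝ)), ?_, L.map J, inferInstance, ?_⟩
  · have he : c⁻¹ • J (g : C(K, ℝ)) - v = c⁻¹ • ((J (g : C(K, ℝ)) - J f) + (J f - c • v)) := by
      rw [sub_add_sub_cancel, smul_sub, smul_smul, inv_mul_cancel₀ hcpos.ne', one_smul]
    rw [he, norm_smul, norm_inv, Real.norm_eq_abs, abs_of_pos hcpos]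
    calc c⁻¹ * ‖(J (g : C(K, ℝ)) - J f) + (J f - c • v)‖ ≤ c⁻¹ * (c * (ε / 4) + c * (ε / 4)) := by
          apply mul_le_mul_of_nonneg_left _ (by positivity)
          exact (norm_add_le _ _).trans (add_le_add hJg hJf)
      _ = ε / 2 := by field_simp; ring
      _ < ε := by linarith
  · intro k
    rw [map_smul, htr]
    exact Submodule.smul_mem _ _ ⟨_, hL2 k _ hL3, rfl⟩

end

end Pool.Agent.TH596.RO
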