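import Pool.Agent.TH596.RO.Inj

/-!
# The strong operator topology on a group of isometries
-/

set_option autoImplicit false
set_option linter.style.haveILetI false
set_option linter.unusedVariables false

namespace Pool.Agent.TH596.RO

open Topology TopologicalSpace Filter

section
variable {E : Type} [NormedAddCommGroup E] [NormedSpace ℝ E]

/-- the strong operator topology -/
@[reducible] def sot (N : Subgroup (E ≃ₗᵢ[ℝ] E)) : TopologicalSpace N :=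
  TopologicalSpace.induced (fun (n : N) (x : E) => (n : E ≃ₗᵢ[ℝ] E) x) inferInstance

attribute [local instance] sot

theorem sot_apply {N : Subgroup (E ≃ₗᵢ[ℝ] E)} (x : E) : Continuous fun n : N => (n : E ≃ₗᵢ[ℝ] E) x :=
  (continuous_apply x).comp continuous_induced_dom

theorem sot_cont {N : Subgroup (E ≃ₗᵢ[ℝ] E)} {X : Type*} [TopologicalSpace X] {f : X → N}
    (h : ∀ x, Continuous fun t => ((f t : N) : E ≃ₗᵢ[ℝ] E) x) : Continuous f :=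
  continuous_induced_rng.2 (continuous_pi h)

theorem sot_group (N : Subgroup (E ≃ₗᵢ[ℝ] E)) : IsTopologicalGroup N where
  continuous_mul := by
    apply sot_cont
    intro x
    rw [continuous_iff_continuousAt]
    rintro ⟨a0, b0⟩
    rw [ContinuousAt, tendsto_iff_dist_tendsto_zero]
    have hz : Filter.Tendsto (fun p : N × N => dist ((p.2 : E ≃ₗᵢ[ℝ] E) x) ((b0 : E ≃ₗᵢ[ℝ] E) x) +
        dist ((p.1 : E ≃ₗᵢ[ℝ] E) ((b0 : E ≃ₗᵢ[ℝ] E) x)) ((a0 : E ≃ₗᵢ[ℝ] E) ((b0 : E ≃ₗᵢ[ℝ] E) x)))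
        (nhds (a0, b0)) (nhds (0 + 0)) := by
      apply Filter.Tendsto.add
      · rw [← tendsto_iff_dist_tendsto_zero]
        exact ((sot_apply x).comp continuous_snd).continuousAt
      · rw [← tendsto_iff_dist_tendsto_zero]
        exact ((sot_apply _).comp continuous_fst).continuousAt
    rw [add_zero] at hz
    refine squeeze_zero (fun x => dist_nonneg) (fun p => ?_) hz
    calc dist ((p.1 : E ≃ₗᵢ[ℝ] E) ((p.2 : E ≃ₗᵢ[ℝ] E) x)) ((a0 : E ≃ₗᵢ[ℝ] E) ((b0 : E ≃ₗᵢ[ℝ] E) x)) ≤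
          dist ((p.1 : E ≃ₗᵢ[ℝ] E) ((p.2 : E ≃ₗᵢ[ℝ] E) x)) ((p.1 : E ≃ₗᵢ[ℝ] E) ((b0 : E ≃ₗᵢ[ℝ] E) x)) +
          dist ((p.1 : E ≃ₗᵢ[ℝ] E) ((b0 : E ≃ₗᵢ[ℝ] E) x)) ((a0 : E ≃ₗᵢ[ℝ] E) ((b0 : E ≃ₗᵢ[ℝ] E) x)) :=
            dist_triangle _ _ _
      _ = _ := by rw [LinearIsometryEquiv.dist_map]
  continuous_inv := by
    apply sot_cont
    intro x
    rw [continuous_iff_continuousAt]
    intro a0
    rw [ContinuousAt, tendsto_iff_dist_tendsto_zero]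
    have hz : Filter.Tendsto (fun p : N => dist ((p : E ≃ₗᵢ[ℝ] E) (((a0⁻¹ : N) : E ≃ₗᵢ[ℝ] E) x))
        ((a0 : E ≃ₗᵢ[ℝ] E) (((a0⁻¹ : N) : E ≃ₗᵢ[ℝ] E) x))) (nhds a0) (nhds 0) := by
      rw [← tendsto_iff_dist_tendsto_zero]
      exact (sot_apply _).continuousAt
    refine squeeze_zero (fun x => dist_nonneg) (fun p => le_of_eq ?_) hz
    have h1 : (a0 : E ≃ₗᵢ[ℝ] E) (((a0⁻¹ : N) : E ≃ₗᵢ[ℝ] E) x) = x := (a0 : E ≃ₗᵢ[ℝ] E).apply_symm_apply x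
    have h2 : (p : E ≃ₗᵢ[ℝ] E) (((p⁻¹ : N) : E ≃ₗᵢ[ℝ] E) x) = x := (p : E ≃ₗᵢ[ℝ] E).apply_symm_apply x
    rw [h1]
    calc dist (((p⁻¹ : N) : E ≃ₗᵢ[ℝ] E) x) (((a0⁻¹ : N) : E ≃ₗᵢ[ℝ] E) x)
        = dist ((p : E ≃ₗᵢ[ℝ] E) (((p⁻¹ : N) : E ≃ₗᵢ[ℝ] E) x))
          ((p : E ≃ₗᵢ[ℝ] E) (((a0⁻¹ : N) : E ≃ₗᵢ[ℝ] E) x)) := (LinearIsometryEquiv.dist_map _ _ _).symm
      _ = dist x ((p : E ≃ₗᵢ[ℝ] E) (((a0⁻¹ : N) : E ≃ₗᵢ[ℝ] E) x)) := by rw [h2]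
      _ = _ := dist_comm _ _

theorem sot_t2 (N : Subgroup (E ≃ₗᵢ[ℝ] E)) : T2Space N := by
  refine T2Space.of_injective_continuous (f := fun (n : N) (x : E) => (n : E ≃ₗᵢ[ℝ] E) x) ?_
    continuous_induced_dom
  intro a b h
  apply Subtype.ext
  apply LinearIsometryEquiv.ext
  intro x
  exact congrFun h x

theorem sot_sc [SeparableSpace E] (N : Subgroup (E ≃ₗᵢ[ℝ] E)) : SecondCountableTopology N := by
  let e : ℕ → E := denseSeq E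
  let ι : N → (ℕ → E) := fun n k => (n : E ≃ₗᵢ[ℝ] E) (e k)
  have heq : (sot N) = TopologicalSpace.induced ι inferInstance := by
    apply le_antisymm
    · rw [← continuous_iff_le_induced]
      exact continuous_pi fun k => sot_apply (e k)
    · -- evaluation at every point is continuous for the coarser topology
      show TopologicalSpace.induced ι inferInstance ≤ TopologicalSpace.induced _ _
      rw [← continuous_iff_le_induced]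
      refine @continuous_pi _ _ _ (TopologicalSpace.induced ι inferInstance) _ _ ?_
      intro x
      letI : TopologicalSpace N := TopologicalSpace.induced ι inferInstance
      have hk : ∀ k, Continuous fun n : N => (n : E ≃ₗᵢ[ℝ] E) (e k) := fun k =>
        (continuous_apply k).comp (continuous_induced_dom (f := ι))
      rw [continuous_iff_continuousAt]
      intro a
      rw [Metric.continuousAt_iff']
      intro ε hε
      obtain ⟨k, hkx⟩ := (denseRange_denseSeq E).exists_dist_lt x (ε := ε / 3) (by positivity)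
      have h1 := Metric.continuousAt_iff'.1 ((hk k).continuousAt (x := a)) (ε / 3) (by positivity)
      filter_upwards [h1] with n hn
      calc dist ((n : E ≃ₗᵢ[ℝ] E) x) ((a : E ≃ₗᵢ[ℝ] E) x) ≤
            dist ((n : E ≃ₗᵢ[ℝ] E) x) ((n : E ≃ₗᵢ[ℝ] E) (e k)) +
            dist ((n : E ≃ₗᵢ[ℝ] E) (e k)) ((a : E ≃ₗᵢ[ℝ] E) (e k)) +
            dist ((a : E ≃ₗᵢ[ℝ] E) (e k)) ((a : E ≃ₗᵢ[ℝ] E) x) := dist_triangle4 _ _ _ _
        _ < ε / 3 + ε / 3 + ε / 3 := by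
            rw [LinearIsometryEquiv.dist_map, LinearIsometryEquiv.dist_map, dist_comm (e k) x]
            have : dist x (e k) < ε / 3 := hkx
            linarith
        _ = ε := by ring
  rw [heq]
  haveI : SecondCountableTopology (ℕ → E) := inferInstance
  exact TopologicalSpace.secondCountableTopology_induced N (ℕ → E) ι

/-- conjugation on `N` -/
def cN {G N : Subgroup (E ≃ₗᵢ[ℝ] E)} (hN : ∀ T ∈ G, ∀ S ∈ N, T * S * T⁻¹ ∈ N) {T : E ≃ₗᵢ[ℝ] E} (hT : T ∈ G) :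
    N →* N where
  toFun n := ⟨T * n * T⁻¹, hN T hT n n.2⟩
  map_one' := by
    apply Subtype.ext
    show T * 1 * T⁻¹ = 1
    group
  map_mul' a b := by
    apply Subtype.ext
    show T * (a * b) * T⁻¹ = (T * a * T⁻¹) * (T * b * T⁻¹)
    group

theorem cN_coe {G N : Subgroup (E ≃ₗᵢ[ℝ] E)} (hN : ∀ T ∈ G, ∀ S ∈ N, T * S * T⁻¹ ∈ N) {T : E ≃ₗᵢ[ℝ] E}
    (hT : T ∈ G) (n : N) : ((cN hN hT n : N) : E ≃ₗᵢ[ℝ] E) = T * n * T⁻¹ := rfl

theorem cN_cont {G N : Subgroup (E ≃ₗᵢ[ℝ] E)} (hN : ∀ T ∈ G, ∀ S ∈ N, T * S * T⁻¹ ∈ N) {T : E ≃ₗᵢ[ℝ] E}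
    (hT : T ∈ G) : Continuous (cN hN hT) := by
  apply sot_cont
  intro x
  exact T.continuous.comp (sot_apply (T⁻¹ x))

theorem cN_inv {G N : Subgroup (E ≃ₗᵢ[ℝ] E)} (hN : ∀ T ∈ G, ∀ S ∈ N, T * S * T⁻¹ ∈ N) {T : E ≃ₗᵢ[ℝ] E}
    (hT : T ∈ G) (n : N) : cN hN hT (cN hN (G.inv_mem hT) n) = n := by
  apply Subtype.ext
  show T * (T⁻¹ * n * T⁻¹⁻¹) * T⁻¹ = n
  group

theorem cN_inv' {G N : Subgroup (E ≃ₗᵢ[ℝ] E)} (hN : ∀ T ∈ G, ∀ S ∈ N, T * S * T⁻¹ ∈ N) {T : E ≃ₗᵢ[ℝ] E}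
    (hT : T ∈ G) (n : N) : cN hN (G.inv_mem hT) (cN hN hT n) = n := by
  apply Subtype.ext
  show T⁻¹ * (T * n * T⁻¹) * T⁻¹⁻¹ = n
  group

theorem cN_apply {G N : Subgroup (E ≃ₗᵢ[ℝ] E)} (hN : ∀ T ∈ G, ∀ S ∈ N, T * S * T⁻¹ ∈ N) {T : E ≃ₗᵢ[ℝ] E}
    (hT : T ∈ G) (n : N) (x : E) :
    (n : E ≃ₗᵢ[ℝ] E) (T x) = T (((cN hN (G.inv_mem hT) n : N) : E ≃ₗᵢ[ℝ] E) x) := by
  show (n : E ≃ₗᵢ[ℝ] E) (T x) = T (T⁻¹ ((n : E ≃ₗᵢ[ℝ] E) ((T⁻¹)⁻¹ x)))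
  rw [inv_inv]
  exact (T.apply_symm_apply _).symm

end

end Pool.Agent.TH596.RO
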