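import Pool.Agent.TH596.RO.Sot
import Pool.Agent.W660.GY.Main3

/-!
# Locally compact groups of isometries normalised by a transitive group have no small subgroups
-/

set_option autoImplicit false
set_option linter.style.haveILetI false
set_option linter.unusedVariables false

namespace Pool.Agent.TH596.RO

open Topology TopologicalSpace Filter MeasureTheory

/-- all small subgroups lie in `K` -/
def QQ (P : Type) [Group P] [TopologicalSpace P] (K : Subgroup P) : Prop :=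
  ∃ U ∈ 𝓝 (1 : P), ∀ S : Subgroup P, (S : Set P) ⊆ U → S ≤ K

theorem gyK (P : Type) [Group P] [TopologicalSpace P] [IsTopologicalGroup P] [T2Space P]
    [LocallyCompactSpace P] {V : Set P} (hV : V ∈ 𝓝 (1 : P)) :
    ∃ K : Subgroup P, IsCompact (K : Set P) ∧ (K : Set P) ⊆ V ∧ QQ P K := by
  obtain ⟨H, hH, h⟩ := Pool.Agent.W660.GY.gy3 P
  have hcont : Continuous (Subtype.val : H → P) := continuous_subtype_val
  obtain ⟨K0, hK0n, hK0c, hK0V, U1, hU1, hNSS⟩ := h (Subtype.val ⁻¹' V)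
    (hcont.continuousAt.preimage_mem_nhds (by exact hV))
  refine ⟨K0.map H.subtype, ?_, ?_, ?_⟩
  · have : ((K0.map H.subtype : Subgroup P) : Set P) = Subtype.val '' (K0 : Set H) := rfl
    rw [this]
    exact hK0c.image hcont
  · rintro _ ⟨k, hk, rfl⟩
    exact hK0V hk
  · have hπ : Continuous (fun x : H => (QuotientGroup.mk x : H ⧸ K0)) := continuous_quotient_mk'
    have hU2 : (fun x : H => (QuotientGroup.mk x : H ⧸ K0)) ⁻¹' U1 ∈ 𝓝 (1 : H) :=
      hπ.continuousAt.preimage_mem_nhds (by exact hU1)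
    have hU : Subtype.val '' ((fun x : H => (QuotientGroup.mk x : H ⧸ K0)) ⁻¹' U1) ∈ 𝓝 (1 : P) :=
      (hH.isOpenEmbedding_subtypeVal).isOpenMap.image_mem_nhds hU2
    refine ⟨_, hU, fun S hS => ?_⟩
    have hSH : S ≤ H := fun s hs => by
      obtain ⟨u, _, rfl⟩ := hS hs
      exact u.2
    have h1 : (S.subgroupOf H).map (QuotientGroup.mk' K0) = ⊥ := by
      apply hNSS
      rintro _ ⟨s, hs, rfl⟩
      obtain ⟨u, hu, hus⟩ := hS hs
      have : u = s := Subtype.ext hus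
      rw [← this]
      exact hu
    intro s hs
    have h2 : (QuotientGroup.mk' K0) ⟨s, hSH hs⟩ ∈ (⊥ : Subgroup (H ⧸ K0)) := by
      rw [← h1]
      exact ⟨⟨s, hSH hs⟩, hs, rfl⟩
    rw [Subgroup.mem_bot] at h2
    have h3 : (⟨s, hSH hs⟩ : H) ∈ K0 := (QuotientGroup.eq_one_iff _).1 h2
    exact ⟨⟨s, hSH hs⟩, h3, rfl⟩

section
variable {K : Type*} [Group K] [TopologicalSpace K] [IsTopologicalGroup K] [CompactSpace K] [T2Space K]
variable {V : Type*} [NormedAddCommGroup V] [NormedSpace ℝ V] [CompleteSpace V]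

theorem exists_fixed (π : K → (V →L[ℝ] V)) (hm : ∀ h k v, π (h * k) v = π h (π k v))
    (hc : ∀ v, Continuous fun k => π k v) (v : V) {δ : ℝ} (hδ : δ < ‖v‖) (hv : ∀ k, ‖π k v - v‖ ≤ δ) :
    ∃ w : V, w ≠ 0 ∧ ∀ k, π k w = w := by
  classical
  letI : MeasurableSpace K := borel K
  haveI : BorelSpace K := ⟨rfl⟩
  let μ : Measure K := Measure.haar
  haveI : IsFiniteMeasure μ := inferInstance
  have hint : Integrable (fun k => π k v) μ :=
    (hc v).integrable_of_hasCompactSupport (HasCompactSupport.of_compactSpace _)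
  set c := ∫ _k : K, (1 : ℝ) ∂μ with hcdef
  have hcpos : 0 < c := by
    apply Continuous.integral_pos_of_hasCompactSupport_nonneg_nonzero (x := (1 : K)) continuous_const
      (HasCompactSupport.of_compactSpace _) (fun k => zero_le_one)
    exact one_ne_zero
  refine ⟨∫ k, π k v ∂μ, ?_, ?_⟩
  · intro h0
    have he : (∫ k, π k v ∂μ) - c • v = ∫ k, (π k v - v) ∂μ := by
      rw [integral_sub hint (integrable_const v), hcdef, ← integral_smul_const]
      simp
    have h1 : ‖∫ k, (π k v - v) ∂μ‖ ≤ ∫ _k : K, (1 : ℝ) * δ ∂μ := by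
      apply norm_integral_le_of_norm_le
      · exact integrable_const _
      · filter_upwards with k
        rw [one_mul]; exact hv k
    rw [integral_mul_const, ← hcdef, ← he, h0, zero_sub, norm_neg, norm_smul, Real.norm_eq_abs,
      abs_of_pos hcpos] at h1
    have := le_of_mul_le_mul_left h1 hcpos
    linarith
  · intro h
    rw [← ContinuousLinearMap.integral_comp_comm _ hint]
    rw [← integral_mul_left_eq_self (μ := μ) (fun k => π k v) h]
    apply integral_congr_ae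
    filter_upwards with k
    rw [hm]

end

section
variable {E : Type} [NormedAddCommGroup E] [NormedSpace ℝ E]

attribute [local instance] sot sot_group sot_t2

/-- the fixed vectors -/
def Fx {N : Subgroup (E ≃ₗᵢ[ℝ] E)} (K : Subgroup N) : Submodule ℝ E where
  carrier := {x | ∀ k ∈ K, (k : E ≃ₗᵢ[ℝ] E) x = x}
  zero_mem' := fun k _ => map_zero _
  add_mem' := fun {a b} ha hb k hk => by rw [map_add, ha k hk, hb k hk]
  smul_mem' := fun c {a} ha k hk => by rw [map_smul, ha k hk]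

theorem Fx_closed {N : Subgroup (E ≃ₗᵢ[ℝ] E)} (K : Subgroup N) : IsClosed (Fx K : Set E) := by
  have : (Fx K : Set E) = ⋂ k ∈ K, {x : E | (k : E ≃ₗᵢ[ℝ] E) x = x} := by
    ext x
    simp [Fx]
  rw [this]
  exact isClosed_biInter fun k _ => isClosed_eq (k : E ≃ₗᵢ[ℝ] E).continuous continuous_id

theorem nss_lc [CompleteSpace E] [SeparableSpace E] [Nontrivial E] {G N : Subgroup (E ≃ₗᵢ[ℝ] E)}
    (htr : ∀ x y : E, ‖x‖ = 1 → ‖y‖ = 1 → ∃ T ∈ G, T x = y)
    (hN : ∀ T ∈ G, ∀ S ∈ N, T * S * T⁻¹ ∈ N) [LocallyCompactSpace N] : Pool.Agent.W660.GY.NSS N := by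
  classical
  haveI : SecondCountableTopology N := sot_sc N
  let D0 : Set E := {x | ∃ K : Subgroup N, QQ N K ∧ ∀ k ∈ K, (k : E ≃ₗᵢ[ℝ] E) x = x}
  have hinv : ∀ T ∈ G, ∀ x ∈ D0, T x ∈ D0 := by
    rintro T hT x ⟨K, ⟨U, hU, hS⟩, hK⟩
    refine ⟨K.map (cN hN hT), ⟨(cN hN (G.inv_mem hT)) ⁻¹' U, ?_, fun S hSU => ?_⟩, ?_⟩
    · apply (cN_cont hN (G.inv_mem hT)).continuousAt.preimage_mem_nhds
      rw [map_one]; exact hU
    · intro s hs
      have h1 : S.map (cN hN (G.inv_mem hT)) ≤ K := by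
        apply hS
        rintro _ ⟨s, hs, rfl⟩
        exact hSU hs
      exact ⟨cN hN (G.inv_mem hT) s, h1 ⟨s, hs, rfl⟩, cN_inv hN hT s⟩
    · rintro _ ⟨k, hk, rfl⟩
      rw [cN_apply hN hT, cN_inv' hN hT, hK k hk]
  have hsmul : ∀ (c : ℝ), ∀ x ∈ D0, c • x ∈ D0 := by
    rintro c x ⟨K, hK, h⟩
    exact ⟨K, hK, fun k hk => by rw [map_smul, h k hk]⟩
  -- a nonzero member
  obtain ⟨w, hw0, hw⟩ : ∃ w, w ≠ 0 ∧ w ∈ D0 := by
    obtain ⟨v, hv⟩ := exists_ne (0 : E)
    have hvn : 0 < ‖v‖ := norm_pos_iff.2 hv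
    have hV : {n : N | ‖(n : E ≃ₗᵢ[ℝ] E) v - v‖ < ‖v‖ / 2} ∈ 𝓝 (1 : N) := by
      apply IsOpen.mem_nhds
      · exact isOpen_lt (((sot_apply v).sub continuous_const).norm) continuous_const
      · show ‖v - v‖ < ‖v‖ / 2
        rw [sub_self, norm_zero]; positivity
    obtain ⟨K, hKc, hKV, hKQ⟩ := gyK N hV
    haveI : CompactSpace K := isCompact_iff_compactSpace.1 hKc
    obtain ⟨w, hw0, hw⟩ := exists_fixed (K := K) (V := E)
      (fun k => (((k : N) : E ≃ₗᵢ[ℝ] E).toContinuousLinearEquiv : E →L[ℝ] E)) (fun h k v => rfl)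
      (fun v => (sot_apply v).comp continuous_subtype_val) v (δ := ‖v‖ / 2) (by linarith)
      (fun k => (hKV k.2).le)
    exact ⟨w, hw0, K, hKQ, fun k hk => hw ⟨k, hk⟩⟩
  have hall : ∀ x, x ∈ D0 := by
    intro x
    by_cases hx : x = 0
    · rw [hx, ← zero_smul ℝ w]
      exact hsmul 0 w hw
    have hwn : ‖w‖ ≠ 0 := norm_ne_zero_iff.2 hw0
    have hxn : ‖x‖ ≠ 0 := norm_ne_zero_iff.2 hx
    obtain ⟨T, hT, hTx⟩ := htr ((‖w‖⁻¹ : ℝ) • w) ((‖x‖⁻¹ : ℝ) • x)
      (by rw [norm_smul, norm_inv, norm_norm, inv_mul_cancel₀ hwn])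
      (by rw [norm_smul, norm_inv, norm_norm, inv_mul_cancel₀ hxn])
    have h1 : x = ‖x‖ • T ((‖w‖⁻¹ : ℝ) • w) := by
      rw [hTx, smul_smul, mul_inv_cancel₀ hxn, one_smul]
    rw [h1]
    exact hsmul _ _ (hinv T hT _ (hsmul _ _ hw))
  -- small compact subgroups
  obtain ⟨V, hV⟩ := (𝓝 (1 : N)).exists_antitone_basis
  have hK : ∀ j, ∃ K : Subgroup N, (K : Set N) ⊆ V j ∧ QQ N K := fun j => by
    obtain ⟨K, _, h1, h2⟩ := gyK N (hV.1.mem_of_mem (i := j) trivial)
    exact ⟨K, h1, h2⟩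
  choose K hKV hKQ using hK
  have hcover : (⋃ j, (Fx (K j) : Set E)) = Set.univ := by
    rw [Set.eq_univ_iff_forall]
    intro x
    obtain ⟨K', ⟨U, hU, hS⟩, hK'⟩ := hall x
    obtain ⟨j, _, hj⟩ := hV.1.mem_iff.1 hU
    rw [Set.mem_iUnion]
    exact ⟨j, fun k hk => hK' k (hS (K j) ((hKV j).trans hj) hk)⟩
  obtain ⟨j, hj⟩ := nonempty_interior_of_iUnion_of_closed (fun j => Fx_closed (K j)) hcover
  have htop : Fx (K j) = ⊤ := Submodule.eq_top_of_nonempty_interior' _ hj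
  have hbot : K j = ⊥ := by
    rw [Subgroup.eq_bot_iff_forall]
    intro k hk
    apply Subtype.ext
    apply LinearIsometryEquiv.ext
    intro x
    have : x ∈ Fx (K j) := by rw [htop]; trivial
    exact this k hk
  obtain ⟨U, hU, hS⟩ := hKQ j
  refine ⟨U, hU, fun S hSU => ?_⟩
  have := hS S hSU
  rw [hbot] at this
  exact le_bot_iff.1 this

end

end Pool.Agent.TH596.RO
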